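import Pool.Agent.H.MP_e5d137_al.G3.Top

/-!
# Cells and boundary maps
-/

namespace Pool.Agent.H.MP_e5d137_al.G3

open Matrix Finsupp

/-- cells of degree `i`: spanning subsets with `6 - i` elements of configurations -/
def IsCell (i : ℕ) (M : Finset V) : Prop := Spans M ∧ (∃ g, M ⊆ cfg g) ∧ M.card + i = 6

/-- the type of cells -/
abbrev Cell (i : ℕ) : Type := {M : Finset V // IsCell i M}

lemma IsCell.pos {i : ℕ} {M : Finset V} (h : IsCell i M) {x : V} (hx : x ∈ M) : Pos x := by
  obtain ⟨g, hg⟩ := h.2.1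
  exact cfg_pos (hg hx)

/-- the formal boundary -/
def dd (f : Finset V → ℤ) (M : Finset V) : ℤ := ∑ x ∈ M, sg x M * f (M.erase x)

lemma sg_erase {x d : V} {M : Finset V} (hd : d ∈ M) :
    sg x M = (if col d < col x then -1 else 1) * sg x (M.erase d) := by
  conv_lhs => rw [← Finset.insert_erase hd]
  rw [sg_insert (Finset.notMem_erase d M)]

lemma sg_erase' {x d : V} {M : Finset V} (hd : d ∈ M) :
    sg x (M.erase d) = (if col d < col x then -1 else 1) * sg x M := by
  rw [sg_erase hd, ← mul_assoc]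
  split_ifs <;> simp

/-- the key antisymmetry of signs -/
lemma sg_anti {x y : V} {M : Finset V} (hx : x ∈ M) (hy : y ∈ M) (hxy : col x ≠ col y) :
    sg x M * sg y (M.erase x) = -(sg y M * sg x (M.erase y)) := by
  rw [sg_erase' hx, sg_erase' hy]
  rcases lt_or_gt_of_ne hxy with h | h
  · rw [if_pos h, if_neg (not_lt.2 h.le)]; ring
  · rw [if_neg (not_lt.2 h.le), if_pos h]; ring

lemma dd_dd (f : Finset V → ℤ) {M : Finset V} (hM : ∀ x ∈ M, ∀ y ∈ M, col x = col y → x = y) :
    dd (dd f) M = 0 := by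
  classical
  set U : V → V → ℤ := fun x y => if x = y then 0 else
    sg x M * sg y (M.erase x) * f ((M.erase x).erase y) with hU
  have h1 : dd (dd f) M = ∑ x ∈ M, ∑ y ∈ M, U x y := by
    unfold dd
    refine Finset.sum_congr rfl (fun x hx => ?_)
    rw [Finset.mul_sum, ← Finset.insert_erase hx, Finset.sum_insert (Finset.notMem_erase x M),
      Finset.insert_erase hx]
    simp only [hU, if_true, zero_add]
    refine Finset.sum_congr rfl (fun y hy => ?_)
    rw [if_neg (Finset.ne_of_mem_erase hy).symm]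
    ring
  have h2 : ∀ x ∈ M, ∀ y ∈ M, U x y = -U y x := by
    intro x hx y hy
    simp only [hU]
    by_cases hxy : x = y
    · rw [if_pos hxy, if_pos hxy.symm, neg_zero]
    · rw [if_neg hxy, if_neg (Ne.symm hxy), sg_anti hx hy (fun h => hxy (hM x hx y hy h)),
        Finset.erase_right_comm]
      ring
  have h3 : ∑ x ∈ M, ∑ y ∈ M, U x y = -∑ x ∈ M, ∑ y ∈ M, U x y := by
    conv_lhs => rw [Finset.sum_comm]
    rw [← Finset.sum_neg_distrib]
    refine Finset.sum_congr rfl (fun x hx => ?_)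
    rw [← Finset.sum_neg_distrib]
    exact Finset.sum_congr rfl (fun y hy => h2 y hy x hx)
  rw [h1]
  linarith

lemma dd_add (f f' : Finset V → ℤ) (M : Finset V) :
    dd (fun N => f N + f' N) M = dd f M + dd f' M := by
  unfold dd
  rw [← Finset.sum_add_distrib]
  exact Finset.sum_congr rfl (fun x _ => by ring)

/-- orientation twist in degree zero -/
noncomputable def tw (i : ℕ) (M : Finset V) : ℤ := if i = 0 then eps M else 1

lemma tw_sq (i : ℕ) (M : Finset V) : tw i M * tw i M = 1 := by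
  unfold tw
  split_ifs
  · exact eps_sq M
  · rfl

lemma tw_abs (i : ℕ) (M : Finset V) : (tw i M).natAbs = 1 := by
  unfold tw
  split_ifs
  · exact eps_abs M
  · rfl

/-- a chain as a function on finite sets -/
noncomputable def ex {i : ℕ} (c : Cell i →₀ ℤ) (M : Finset V) : ℤ := by
  classical
  exact if h : IsCell i M then c ⟨M, h⟩ else 0

lemma ex_cell {i : ℕ} (c : Cell i →₀ ℤ) (N : Cell i) : ex c N.1 = c N := by
  classical
  unfold ex
  rw [dif_pos N.2]

lemma ex_of_cell {i : ℕ} (c : Cell i →₀ ℤ) {M : Finset V} (h : IsCell i M) :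
    ex c M = c ⟨M, h⟩ := by
  classical
  unfold ex
  rw [dif_pos h]

lemma ex_of_not {i : ℕ} (c : Cell i →₀ ℤ) {M : Finset V} (h : ¬ IsCell i M) : ex c M = 0 := by
  classical
  unfold ex
  rw [dif_neg h]

lemma isCell_of_ex {i : ℕ} {c : Cell i →₀ ℤ} {M : Finset V} (h : ex c M ≠ 0) : IsCell i M := by
  by_contra hcon
  exact h (ex_of_not c hcon)

lemma ex_add {i : ℕ} (c c' : Cell i →₀ ℤ) (M : Finset V) : ex (c + c') M = ex c M + ex c' M := by
  by_cases h : IsCell i M
  · rw [ex_of_cell _ h, ex_of_cell _ h, ex_of_cell _ h, Finsupp.add_apply]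
  · rw [ex_of_not _ h, ex_of_not _ h, ex_of_not _ h, add_zero]

lemma ex_zero {i : ℕ} (M : Finset V) : ex (0 : Cell i →₀ ℤ) M = 0 := by
  by_cases h : IsCell i M
  · rw [ex_of_cell _ h, Finsupp.zero_apply]
  · rw [ex_of_not _ h]

/-- sets of cells contained in configurations containing a cell are finite -/
lemma finite_above {j : ℕ} (i : ℕ) (t : Finset (Cell j)) :
    {N : Cell i | ∃ M ∈ t, M.1 ⊆ N.1}.Finite := by
  classical
  have h1 : (⋃ M ∈ t, ⋃ v ∈ {v : Finset V | (∃ g, cfg g = v) ∧ M.1 ⊆ v},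
      {N : Finset V | N ⊆ v}).Finite := by
    refine t.finite_toSet.biUnion (fun M _ => ?_)
    refine (finite_cfg_above M.2.1).biUnion (fun v _ => ?_)
    refine (v.powerset.finite_toSet).subset (fun N hN => ?_)
    exact Finset.mem_coe.2 (Finset.mem_powerset.2 hN)
  refine (h1.preimage (f := (Subtype.val : Cell i → Finset V)) Subtype.val_injective.injOn).subset ?_
  rintro N ⟨M, hM, hMN⟩
  obtain ⟨g, hg⟩ := N.2.2.1
  simp only [Set.mem_preimage, Set.mem_iUnion]
  exact ⟨M, hM, cfg g, ⟨⟨g, rfl⟩, hMN.trans hg⟩, hg⟩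

/-- value of the boundary of a chain -/
noncomputable def bdf (i : ℕ) (c : Cell (i + 1) →₀ ℤ) (N : Cell i) : ℤ := tw i N.1 * dd (ex c) N.1

lemma bdf_finite (i : ℕ) (c : Cell (i + 1) →₀ ℤ) : (Function.support (bdf i c)).Finite := by
  refine (finite_above i c.support).subset (fun N hN => ?_)
  have h1 : dd (ex c) N.1 ≠ 0 := fun h => hN (by simp [bdf, h])
  obtain ⟨x, hx, h2⟩ := Finset.exists_ne_zero_of_sum_ne_zero h1
  have h3 : ex c (N.1.erase x) ≠ 0 := fun h => h2 (by rw [h, mul_zero])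
  have h4 := isCell_of_ex h3
  refine ⟨⟨N.1.erase x, h4⟩, ?_, Finset.erase_subset _ _⟩
  rw [Finsupp.mem_support_iff, ← ex_of_cell c h4]
  exact h3

/-- the boundary map -/
noncomputable def bdW (i : ℕ) : (Cell (i + 1) →₀ ℤ) →+ (Cell i →₀ ℤ) where
  toFun c := Finsupp.ofSupportFinite (bdf i c) (bdf_finite i c)
  map_zero' := by
    ext N
    rw [Finsupp.ofSupportFinite_coe, Finsupp.zero_apply]
    unfold bdf dd
    simp [ex_zero]
  map_add' c c' := by
    ext N
    rw [Finsupp.ofSupportFinite_coe, Finsupp.add_apply, Finsupp.ofSupportFinite_coe,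
      Finsupp.ofSupportFinite_coe]
    unfold bdf
    rw [← mul_add, ← dd_add]
    congr 2
    funext M
    exact ex_add c c' M

lemma bdW_apply (i : ℕ) (c : Cell (i + 1) →₀ ℤ) (N : Cell i) :
    bdW i c N = tw i N.1 * dd (ex c) N.1 := rfl

lemma IsCell.col_inj {i : ℕ} {M : Finset V} (h : IsCell i M) :
    ∀ x ∈ M, ∀ y ∈ M, col x = col y → x = y := by
  obtain ⟨g, hg⟩ := h.2.1
  exact fun x hx y hy => col_inj_of_mem (hg hx) (hg hy)

lemma ex_eq_zero_of_not_spans {i : ℕ} (c : Cell i →₀ ℤ) {M : Finset V} (h : ¬ Spans M) :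
    ex c M = 0 := ex_of_not c (fun h' => h h'.1)

lemma dd_ex_eq_zero_of_not_spans {i : ℕ} (c : Cell i →₀ ℤ) {M : Finset V} (h : ¬ Spans M) :
    dd (ex c) M = 0 := by
  unfold dd
  refine Finset.sum_eq_zero (fun x _ => ?_)
  rw [ex_eq_zero_of_not_spans c (fun h' => h (h'.mono (Finset.erase_subset _ _))), mul_zero]

lemma ex_bdW (i : ℕ) (c : Cell (i + 2) →₀ ℤ) {N : Finset V} (hN : ∃ g, N ⊆ cfg g)
    (hc : N.card + (i + 1) = 6) : ex (bdW (i + 1) c) N = dd (ex c) N := by
  by_cases h : Spans N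
  · rw [ex_of_cell _ ⟨h, hN, hc⟩, bdW_apply]
    simp [tw]
  · rw [ex_eq_zero_of_not_spans _ h, dd_ex_eq_zero_of_not_spans c h]

lemma bdW_bdW (i : ℕ) (c : Cell (i + 2) →₀ ℤ) : bdW i (bdW (i + 1) c) = 0 := by
  ext N
  rw [bdW_apply, Finsupp.zero_apply]
  have h : dd (ex (bdW (i + 1) c)) N.1 = dd (dd (ex c)) N.1 := by
    unfold dd
    refine Finset.sum_congr rfl (fun x hx => ?_)
    congr 1
    have h1 := Finset.card_erase_of_mem hx
    have h2 := N.2.2.2
    have h3 : 0 < N.1.card := Finset.card_pos.2 ⟨x, hx⟩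
    obtain ⟨g, hg⟩ := N.2.2.1
    rw [ex_bdW i c ⟨g, (Finset.erase_subset _ _).trans hg⟩ (by omega)]
    rfl
  rw [h, dd_dd _ N.2.col_inj, mul_zero]

section Action

/-- image of a set of vectors -/
def img (g : GL3) (M : Finset V) : Finset V := M.image (pac g)

lemma img_mul (g h : GL3) (M : Finset V) : img (g * h) M = img g (img h M) := by
  unfold img
  rw [Finset.image_image]
  refine Finset.image_congr (fun x _ => ?_)
  exact pac_mul g h x

lemma img_one {M : Finset V} (hM : ∀ x ∈ M, Pos x) : img 1 M = M := by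
  unfold img
  conv_rhs => rw [← Finset.image_id (s := M)]
  refine Finset.image_congr (fun x hx => ?_)
  exact pac_one (hM x hx)

lemma sv_mul (g h : GL3) (k : Fin 6) : pac g (sv h k) = sv (g * h) k := by
  unfold sv
  rw [pac_mul]

lemma img_cfg (g h : GL3) : img g (cfg h) = cfg (g * h) := by
  unfold img cfg
  rw [Finset.image_image]
  refine Finset.image_congr (fun k _ => ?_)
  exact sv_mul g h k

lemma img_mono (g : GL3) {M N : Finset V} (h : M ⊆ N) : img g M ⊆ img g N :=
  Finset.image_subset_image h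

lemma Spans.img {M : Finset V} (h : Spans M) (g : GL3) : Spans (img g M) := by
  obtain ⟨x, hx, y, hy, z, hz, h⟩ := h
  exact ⟨pac g x, Finset.mem_image_of_mem _ hx, pac g y, Finset.mem_image_of_mem _ hy, pac g z,
    Finset.mem_image_of_mem _ hz, fun h' => h ((dt_pac_eq_zero g x y z).1 h')⟩

lemma card_img (g : GL3) {M : Finset V} (hM : ∀ x ∈ M, Pos x) : (img g M).card = M.card := by
  unfold img
  exact Finset.card_image_of_injOn (fun x hx y hy h => pac_inj g (hM x hx) (hM y hy) h)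

lemma IsCell.img {i : ℕ} {M : Finset V} (h : IsCell i M) (g : GL3) : IsCell i (img g M) := by
  refine ⟨h.1.img g, ?_, ?_⟩
  · obtain ⟨w, hw⟩ := h.2.1
    refine ⟨g * w, ?_⟩
    rw [← img_cfg]
    exact img_mono g hw
  · rw [card_img g (fun x hx => h.pos hx)]
    exact h.2.2

instance actCell (i : ℕ) : MulAction G3' (Cell i) where
  smul g M := ⟨G3.img (g : GL3) M.1, M.2.img _⟩
  one_smul M := Subtype.ext (img_one (fun _ hx => M.2.pos hx))
  mul_smul g h M := Subtype.ext (img_mul (g : GL3) (h : GL3) M.1)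

lemma smul_val {i : ℕ} (g : G3') (M : Cell i) : (g • M).1 = img (g : GL3) M.1 := rfl

lemma s_not_C3 (k : Fin 6) : ¬ C3 (s k) 0 := by
  unfold C3
  revert k
  decide

/-- the action is free -/
lemma free_cell {i : ℕ} (g : G3') (M : Cell i) (h : g • M = M) : g = 1 := by
  have h1 : img (g : GL3) M.1 = M.1 := congrArg Subtype.val h
  obtain ⟨w, hw⟩ := M.2.2.1
  have h2 : ∀ x ∈ M.1, ac (g : GL3) x = x := by
    intro x hx
    have h3 : pac (g : GL3) x ∈ M.1 := by
      have h3' : pac (g : GL3) x ∈ img (g : GL3) M.1 := Finset.mem_image_of_mem _ hx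
      rwa [h1] at h3'
    have h4 : pac (g : GL3) x = x := col_inj_of_mem (hw h3) (hw hx) (col_pac g.2 x)
    unfold pac at h4
    rcases nrm_eq (ac (g : GL3) x) with h5 | h5
    · rw [← h5, h4]
    · exfalso
      rw [h5] at h4
      have h6 := C3_of_mem g.2 x
      rw [neg_eq_iff_eq_neg.1 h4] at h6
      have h7 : C3 x 0 := by
        intro i
        have := h6 i
        simp only [Pi.neg_apply, Pi.zero_apply] at this ⊢
        omega
      obtain ⟨k, rfl⟩ := mem_cfg.1 (hw hx)
      have h8 : C3 (ac w (s k)) 0 := by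
        unfold sv pac at h7
        rcases nrm_eq (ac w (s k)) with h9 | h9 <;> rw [h9] at h7
        · exact h7
        · have := h7.neg
          rwa [neg_neg, neg_zero] at this
      have h9 := h8.ac w⁻¹
      rw [ac_inv_ac, ac_zero] at h9
      exact s_not_C3 k h9
  obtain ⟨x, hx, y, hy, z, hz, hd⟩ := M.2.1
  have h3 : ∀ u : V, ac (g : GL3) u = u := by
    intro u
    have h4 : dt x y z • ac (g : GL3) u = dt x y z • u := by
      rw [← ac_smul, cramer, ac_add, ac_add, ac_smul, ac_smul, ac_smul, h2 x hx, h2 y hy, h2 z hz]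
    funext i
    have h5 := congrFun h4 i
    simp only [Pi.smul_apply, smul_eq_mul] at h5
    exact mul_left_cancel₀ hd h5
  apply Subtype.ext
  apply Units.ext
  show ((g : GL3) : Matrix (Fin 3) (Fin 3) ℤ) = 1
  ext i j
  have h4 := congrFun (h3 (Pi.single j 1)) i
  unfold ac at h4
  rw [Matrix.mulVec_single_one] at h4
  rw [Matrix.one_apply]
  simpa [Pi.single_apply] using h4

lemma ex_smul {i : ℕ} (g : G3') (c : Cell i →₀ ℤ) {M : Finset V} (hM : ∀ x ∈ M, Pos x) :
    ex (c.mapDomain (fun x => g • x)) (img (g : GL3) M) = ex c M := by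
  by_cases h : IsCell i M
  · rw [ex_of_cell c h, ex_of_cell _ (h.img (g : GL3))]
    have h1 : (⟨img (g : GL3) M, h.img (g : GL3)⟩ : Cell i) = g • (⟨M, h⟩ : Cell i) := rfl
    rw [h1]
    exact Finsupp.mapDomain_apply (MulAction.injective g) c ⟨M, h⟩
  · have h1 : ¬ IsCell i (img (g : GL3) M) := by
      intro h'
      apply h
      have := h'.img ((g : GL3)⁻¹)
      rw [← img_mul, inv_mul_cancel, img_one hM] at this
      exact this
    rw [ex_of_not c h, ex_of_not _ h1]

lemma sg_img (g : G3') {x : V} {M : Finset V} (hM : ∀ x ∈ M, Pos x) :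
    sg (pac (g : GL3) x) (img (g : GL3) M) = sg x M := by
  unfold sg img
  rw [Finset.prod_image (fun x hx y hy h => pac_inj (g : GL3) (hM x hx) (hM y hy) h)]
  refine Finset.prod_congr rfl (fun y _ => ?_)
  rw [col_pac g.2, col_pac g.2]

lemma img_erase (g : GL3) {x : V} {M : Finset V} (hM : ∀ x ∈ M, Pos x) (hx : x ∈ M) :
    (img g M).erase (pac g x) = img g (M.erase x) := by
  ext y
  simp only [img, Finset.mem_erase, Finset.mem_image]
  constructor
  · rintro ⟨h1, z, hz, rfl⟩
    exact ⟨z, ⟨fun h => h1 (by rw [h]), hz⟩, rfl⟩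
  · rintro ⟨z, ⟨h1, hz⟩, rfl⟩
    exact ⟨fun h => h1 (pac_inj g (hM z hz) (hM x hx) h), z, hz, rfl⟩

lemma eps_img (g : G3') (w : GL3) : eps (cfg ((g : GL3) * w)) = eps (cfg w) := by
  rw [eps_cfg, eps_cfg]
  congr 1
  funext k
  rw [← sv_mul, col_pac g.2]

lemma tw_img (g : G3') {i : ℕ} {M : Finset V} (h : IsCell i M) :
    tw i (img (g : GL3) M) = tw i M := by
  unfold tw
  split_ifs with hi
  · subst hi
    obtain ⟨w, hw⟩ := h.2.1
    have h1 : M = cfg w := Finset.eq_of_subset_of_card_le hw (by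
      rw [card_cfg]
      have := h.2.2
      omega)
    rw [h1, img_cfg, eps_img]
  · rfl

lemma bdW_smul (i : ℕ) (g : G3') (c : Cell (i + 1) →₀ ℤ) :
    bdW i (c.mapDomain (fun x => g • x)) = (bdW i c).mapDomain (fun x => g • x) := by
  ext N
  obtain ⟨N, rfl⟩ : ∃ N', N = g • N' := ⟨g⁻¹ • N, (smul_inv_smul g N).symm⟩
  rw [Finsupp.mapDomain_apply (MulAction.injective g) (bdW i c) N, bdW_apply, bdW_apply, smul_val,
    tw_img g N.2]
  congr 1
  unfold dd
  have hpos : ∀ x ∈ N.1, Pos x := fun x hx => N.2.pos hx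
  have h1 : ∀ F : V → ℤ, ∑ x ∈ img (g : GL3) N.1, F x = ∑ x ∈ N.1, F (pac (g : GL3) x) := by
    intro F
    unfold img
    rw [Finset.sum_image (fun x hx y hy h => pac_inj (g : GL3) (hpos x hx) (hpos y hy) h)]
  rw [h1]
  refine Finset.sum_congr rfl (fun x hx => ?_)
  rw [sg_img g hpos, img_erase _ hpos hx, ex_smul g c (fun y hy => hpos y (Finset.mem_of_mem_erase hy))]

end Action

end Pool.Agent.H.MP_e5d137_al.G3
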