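import Mathlib

/-!
# Positive real numbers linearly independent over the integers
-/

namespace Pool.Agent.H.MP_e5d137_al.G3

open Polynomial

lemma exists_weights (N : ℕ) : ∃ η : Fin N → ℝ, (∀ j, 0 < η j) ∧
    ∀ n : Fin N → ℤ, ∑ j, η j * (n j : ℝ) = 0 → n = 0 := by
  obtain ⟨τ, hτ⟩ : ∃ τ : ℝ, Transcendental ℤ τ :=
    ⟨_, transcendental_liouvilleNumber (le_refl 2)⟩
  have h0 : τ ≠ 0 := by
    rintro rfl
    exact hτ isAlgebraic_zero
  refine ⟨fun j => τ ^ (2 * (j : ℕ)), fun j => ?_, fun n hn => ?_⟩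
  · show 0 < τ ^ (2 * (j : ℕ))
    rw [pow_mul]
    exact pow_pos (by positivity) _
  · have hp : (∑ j : Fin N, C (n j) * X ^ (2 * (j : ℕ)) : ℤ[X]) = 0 := by
      by_contra hne
      apply hτ
      refine ⟨_, hne, ?_⟩
      simp only [map_sum, map_mul, map_pow, aeval_X, aeval_C]
      rw [← hn]
      refine Finset.sum_congr rfl (fun j _ => ?_)
      simp [mul_comm]
    funext i
    have hc := congrArg (fun p : ℤ[X] => p.coeff (2 * (i : ℕ))) hp
    simp only [finsetSum_coeff, coeff_C_mul, coeff_X_pow, coeff_zero] at hc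
    rw [Finset.sum_eq_single i] at hc
    · simpa using hc
    · intro j _ hj
      rw [if_neg]
      · simp
      · intro h
        apply hj
        apply Fin.ext
        omega
    · intro h
      exact absurd (Finset.mem_univ i) h

end Pool.Agent.H.MP_e5d137_al.G3
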