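import Pool.Agent.H.MP_e5d137_al.G3.Form
import Pool.Agent.H.MP_e5d137_al.G3.Weight

/-!
# The height function on configurations
-/

namespace Pool.Agent.H.MP_e5d137_al.G3

open Matrix

/-- determinant of three vectors -/
def dt (x y z : V) : ℤ :=
  x 0 * (y 1 * z 2 - y 2 * z 1) - x 1 * (y 0 * z 2 - y 2 * z 0) + x 2 * (y 0 * z 1 - y 1 * z 0)

lemma dt_eq_det (x y z : V) : dt x y z = Matrix.det (Matrix.of ![x, y, z]) := by
  rw [Matrix.det_fin_three]
  simp [dt]
  ring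

lemma dt_ac (g : GL3) (x y z : V) :
    dt (ac g x) (ac g y) (ac g z) = (g : Matrix (Fin 3) (Fin 3) ℤ).det * dt x y z := by
  rw [dt_eq_det, dt_eq_det]
  have : Matrix.of ![ac g x, ac g y, ac g z] =
      (Matrix.of ![x, y, z]) * (g : Matrix (Fin 3) (Fin 3) ℤ)ᵀ := by
    ext i j
    rw [Matrix.mul_apply]
    fin_cases i <;>
    · simp [ac, Matrix.mulVec, dotProduct, Fin.sum_univ_succ]
      ring
  rw [this, Matrix.det_mul, Matrix.det_transpose, mul_comm]

lemma dt_neg₁ (x y z : V) : dt (-x) y z = -dt x y z := by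
  simp only [dt, Pi.neg_apply]; ring

lemma dt_neg₂ (x y z : V) : dt x (-y) z = -dt x y z := by
  simp only [dt, Pi.neg_apply]; ring

lemma dt_neg₃ (x y z : V) : dt x y (-z) = -dt x y z := by
  simp only [dt, Pi.neg_apply]; ring

lemma dt_nrm_eq_zero (x y z : V) : dt (nrm x) (nrm y) (nrm z) = 0 ↔ dt x y z = 0 := by
  rcases nrm_eq x with h1 | h1 <;> rcases nrm_eq y with h2 | h2 <;>
    rcases nrm_eq z with h3 | h3 <;> rw [h1, h2, h3] <;>
    simp only [dt_neg₁, dt_neg₂, dt_neg₃, neg_eq_zero]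

lemma det_ne_zero (g : GL3) : (g : Matrix (Fin 3) (Fin 3) ℤ).det ≠ 0 := by
  have h : IsUnit (g : Matrix (Fin 3) (Fin 3) ℤ).det :=
    (Matrix.isUnit_iff_isUnit_det _).1 g.isUnit
  exact h.ne_zero

lemma dt_pac_eq_zero (g : GL3) (x y z : V) :
    dt (pac g x) (pac g y) (pac g z) = 0 ↔ dt x y z = 0 := by
  unfold pac
  rw [dt_nrm_eq_zero, dt_ac, mul_eq_zero]
  exact ⟨fun h => h.resolve_left (det_ne_zero g), Or.inr⟩

lemma dt_sv_eq_zero (g : GL3) (i j k : Fin 6) :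
    dt (sv g i) (sv g j) (sv g k) = 0 ↔ dt (s i) (s j) (s k) = 0 := dt_pac_eq_zero g _ _ _

/-- a set of vectors which spans the space -/
def Spans (M : Finset V) : Prop := ∃ x ∈ M, ∃ y ∈ M, ∃ z ∈ M, dt x y z ≠ 0

lemma Spans.mono {M N : Finset V} (h : Spans M) (hMN : M ⊆ N) : Spans N := by
  obtain ⟨x, hx, y, hy, z, hz, h⟩ := h
  exact ⟨x, hMN hx, y, hMN hy, z, hMN hz, h⟩

/-- covectors of the flats of the configuration -/
def fl : Fin 7 → V :=
  ![![1, 0, 0], ![0, 0, 1], ![0, 1, 0], ![1, -1, 0], ![0, 1, -1], ![1, 0, -1], ![1, -1, 1]]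

set_option maxRecDepth 100000 in
lemma flat_aux : ∀ N ∈ (Finset.univ : Finset (Fin 6)).powerset,
    (∀ i ∈ N, ∀ j ∈ N, ∀ k ∈ N, dt (s i) (s j) (s k) = 0) →
    ∃ f : Fin 7, ∀ k ∈ N, fl f ⬝ᵥ s k = 0 := by decide

lemma fl_ne_zero (f : Fin 7) : fl f ⬝ᵥ fl f ≠ 0 := by revert f; decide

/-- the weights -/
noncomputable def eta : Fin 6 → ℝ := (exists_weights 6).choose

lemma eta_pos (j : Fin 6) : 0 < eta j := (exists_weights 6).choose_spec.1 j

lemma eta_indep (n : Fin 6 → ℤ) (h : ∑ j, eta j * (n j : ℝ) = 0) : n = 0 :=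
  (exists_weights 6).choose_spec.2 n h

/-- evaluation of a function at the linear combination of rank one forms given by the weights -/
noncomputable def S (Q : V → ℤ) : ℝ := ∑ j, eta j * (Q (yv j) : ℝ)

/-- coordinates of the weight form in the basis given by a configuration -/
noncomputable def al (g : GL3) (k : Fin 6) : ℝ := S (fun x => A k (ac g⁻¹ x))

lemma S_eq {Q : V → ℤ} (hQ : IsQ Q) (hQn : ∀ x, Q (-x) = Q x) (g : GL3) :
    S Q = ∑ k, al g k * (Q (sv g k) : ℝ) := by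
  unfold S al S
  simp only [Finset.sum_mul]
  rw [Finset.sum_comm]
  refine Finset.sum_congr rfl (fun j _ => ?_)
  rw [hQ.eq_sum_sv hQn g (yv j)]
  push_cast
  rw [Finset.mul_sum]
  refine Finset.sum_congr rfl (fun k _ => ?_)
  ring

lemma al_ne_zero (g : GL3) (k : Fin 6) : al g k ≠ 0 := by
  intro h
  have h1 := eta_indep (fun j => A k (ac g⁻¹ (yv j))) h
  have h2 := ((isQ_A k).comp g⁻¹).eq_sum_yv (ac g (s k))
  simp only [ac_inv_ac] at h2
  rw [A_s, if_pos rfl] at h2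
  have h3 : ∀ j, A k (ac g⁻¹ (yv j)) = 0 := fun j => congrFun h1 j
  simp [h3] at h2

/-- the height -/
noncomputable def ht (g : GL3) : ℝ := S (qf g)

lemma ht_eq (g w : GL3) : ht w = ∑ k, al g k * (qf w (sv g k) : ℝ) :=
  S_eq (isQ_qf w) (qf_neg w) g

lemma ht_sub (g w : GL3) : ht w - ht g = ∑ k, al g k * ((qf w (sv g k) : ℝ) - 1) := by
  rw [ht_eq g w, ht_eq g g, ← Finset.sum_sub_distrib]
  refine Finset.sum_congr rfl (fun k _ => ?_)
  rw [qf_sv]
  push_cast
  ring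

lemma S_sq_pos {l : V} (hl : l ⬝ᵥ l ≠ 0) (g : GL3) :
    0 < S (fun x => (l ⬝ᵥ ac g x) ^ 2) := by
  have hnn : ∀ j, 0 ≤ eta j * (((l ⬝ᵥ ac g (yv j)) ^ 2 : ℤ) : ℝ) := fun j => by
    have := eta_pos j
    push_cast
    positivity
  rcases (Finset.sum_nonneg (s := Finset.univ) (fun j _ => hnn j)).lt_or_eq with h | h
  · exact h
  · exfalso
    have h1 : ∀ j, (l ⬝ᵥ ac g (yv j)) ^ 2 = 0 := by
      intro j
      have h2 := (Finset.sum_eq_zero_iff_of_nonneg (s := Finset.univ) (fun j _ => hnn j)).1 h.symm j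
        (Finset.mem_univ j)
      have h3 := eta_pos j
      rcases mul_eq_zero.1 h2 with h4 | h4
      · exact absurd h4 h3.ne'
      · exact_mod_cast h4
    have h5 := ((isQ_sq l).comp g).eq_sum_yv (ac g⁻¹ l)
    simp only [h1, mul_zero, Finset.sum_const_zero, ac_ac_inv] at h5
    exact hl (by simpa using h5)

/-- the vectors with positive coordinate span -/
lemma spans_pos (g : GL3) : Spans ((Finset.univ.filter (fun k => 0 < al g k)).image (sv g)) := by
  by_contra hcon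
  set N : Finset (Fin 6) := Finset.univ.filter (fun k => 0 < al g k) with hN
  obtain ⟨f, hf⟩ := flat_aux N (by simp) (by
    intro i hi j hj k hk
    by_contra hne
    apply hcon
    refine ⟨sv g i, Finset.mem_image_of_mem _ hi, sv g j, Finset.mem_image_of_mem _ hj, sv g k,
      Finset.mem_image_of_mem _ hk, ?_⟩
    rwa [Ne, dt_sv_eq_zero])
  have h1 := S_sq_pos (fl_ne_zero f) g⁻¹
  have h2 := S_eq ((isQ_sq (fl f)).comp g⁻¹) (by
    intro x
    show (fl f ⬝ᵥ ac g⁻¹ (-x)) ^ 2 = (fl f ⬝ᵥ ac g⁻¹ x) ^ 2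
    rw [ac_neg, dotProduct_neg, neg_sq]) g
  rw [h2] at h1
  have h3 : ∑ k, al g k * (((fl f ⬝ᵥ ac g⁻¹ (sv g k)) ^ 2 : ℤ) : ℝ) ≤ 0 := by
    apply Finset.sum_nonpos
    intro k _
    have h4 : (fl f ⬝ᵥ ac g⁻¹ (sv g k)) ^ 2 = (fl f ⬝ᵥ s k) ^ 2 := by
      unfold sv pac
      rcases nrm_eq (ac g (s k)) with h | h <;> rw [h]
      · rw [ac_inv_ac]
      · rw [ac_neg, ac_inv_ac, dotProduct_neg, neg_sq]
    rw [h4]
    by_cases hk : 0 < al g k
    · rw [hf k (by simp [hN, hk])]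
      simp
    · push_cast
      have : al g k ≤ 0 := not_lt.1 hk
      nlinarith [sq_nonneg ((fl f ⬝ᵥ s k : ℤ) : ℝ)]
  exact absurd h1 (not_lt.2 h3)

/-- the removable vectors of a configuration -/
noncomputable def Dn (g : GL3) : Finset V :=
  (Finset.univ.filter (fun k => al g k < 0)).image (sv g)

lemma sv_mem_Dn {g : GL3} {k : Fin 6} : sv g k ∈ Dn g ↔ al g k < 0 := by
  unfold Dn
  rw [Finset.mem_image]
  constructor
  · rintro ⟨l, hl, h⟩
    rw [← sv_injective g h]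
    simpa using hl
  · intro h
    exact ⟨k, by simpa using h, rfl⟩

lemma Dn_subset (g : GL3) : Dn g ⊆ cfg g := by
  intro x hx
  unfold Dn at hx
  obtain ⟨k, _, rfl⟩ := Finset.mem_image.1 hx
  exact sv_mem_cfg g k

lemma spans_of_sdiff {g : GL3} {M : Finset V} (h : cfg g \ M ⊆ Dn g) :
    Spans M := by
  refine (spans_pos g).mono ?_
  intro x hx
  obtain ⟨k, hk, rfl⟩ := Finset.mem_image.1 hx
  have hk' : 0 < al g k := by simpa using hk
  by_contra hcon
  have := h (Finset.mem_sdiff.2 ⟨sv_mem_cfg g k, hcon⟩)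
  rw [sv_mem_Dn] at this
  linarith

/-- heights are at most the height of the top configuration -/
lemma ht_le_of_top {g w : GL3} {M : Finset V} (h : cfg g \ M ⊆ Dn g) (hM : M ⊆ cfg w) :
    ht w ≤ ht g ∧ (ht w = ht g → cfg g = cfg w) := by
  have h1 := ht_sub g w
  have h2 : ∀ k, al g k * ((qf w (sv g k) : ℝ) - 1) ≤ 0 := by
    intro k
    by_cases hk : sv g k ∈ M
    · rw [(mem_cfg_iff.1 (hM hk)).2]
      simp
    · have h3 := sv_mem_Dn.1 (h (Finset.mem_sdiff.2 ⟨sv_mem_cfg g k, hk⟩))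
      have h4 : (1 : ℤ) ≤ qf w (sv g k) := qf_ge_one (pos_sv g k)
      have h5 : (1 : ℝ) ≤ qf w (sv g k) := by exact_mod_cast h4
      exact mul_nonpos_of_nonpos_of_nonneg h3.le (by linarith)
  constructor
  · have := Finset.sum_nonpos (s := Finset.univ) (fun k _ => h2 k)
    linarith
  · intro heq
    rw [heq, sub_self] at h1
    have h3 := (Finset.sum_eq_zero_iff_of_nonpos (s := Finset.univ) (fun k _ => h2 k)).1 h1.symm
    apply cfg_eq_of_subset
    intro x hx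
    obtain ⟨k, rfl⟩ := mem_cfg.1 hx
    rw [mem_cfg_iff]
    refine ⟨pos_sv g k, ?_⟩
    rcases mul_eq_zero.1 (h3 k (Finset.mem_univ k)) with h4 | h4
    · exact absurd h4 (al_ne_zero g k)
    · have h5 : (qf w (sv g k) : ℝ) = 1 := by linarith
      exact_mod_cast h5

end Pool.Agent.H.MP_e5d137_al.G3
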