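import Pool.Agent.H.MP_e5d137_al.G3.SzTr
import Pool.Agent.H.MP_e5d137_al.G3.Height

/-!
# Incidences between primitive vectors and primitive covectors
-/

namespace Pool.Agent.H.MP_e5d137_al.G3

open Matrix Polynomial

lemma exists_tau : ∃ τ : ℝ, 0 < τ ∧
    ∀ (N : ℕ) (n : Fin N → ℤ), ∑ j : Fin N, τ ^ (j : ℕ) * (n j : ℝ) = 0 → n = 0 := by
  obtain ⟨σ, hσ⟩ : ∃ τ : ℝ, Transcendental ℤ τ :=
    ⟨_, transcendental_liouvilleNumber (le_refl 2)⟩
  have h0 : σ ≠ 0 := by
    rintro rfl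
    exact hσ isAlgebraic_zero
  refine ⟨σ ^ 2, by positivity, fun N n hn => ?_⟩
  have hp : (∑ j : Fin N, C (n j) * X ^ (2 * (j : ℕ)) : ℤ[X]) = 0 := by
    by_contra hne
    apply hσ
    refine ⟨_, hne, ?_⟩
    simp only [map_sum, map_mul, map_pow, aeval_X, aeval_C]
    rw [← hn]
    refine Finset.sum_congr rfl (fun j _ => ?_)
    rw [← pow_mul]
    simp [mul_comm]
  funext i
  have hc := congrArg (fun p : ℤ[X] => p.coeff (2 * (i : ℕ))) hp
  simp only [finsetSum_coeff, coeff_C_mul, coeff_X_pow, coeff_zero] at hc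
  rw [Finset.sum_eq_single i] at hc
  · simpa using hc
  · intro j _ hj
    rw [if_neg]
    · simp
    · intro h
      apply hj
      apply Fin.ext
      omega
  · intro h
    exact absurd (Finset.mem_univ i) h

/-- a positive real number algebraically independent of the integers -/
noncomputable def tau : ℝ := exists_tau.choose

lemma tau_pos : 0 < tau := exists_tau.choose_spec.1

lemma tau_indep (N : ℕ) (n : Fin N → ℤ) (h : ∑ j : Fin N, tau ^ (j : ℕ) * (n j : ℝ) = 0) : n = 0 :=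
  exists_tau.choose_spec.2 N n h

noncomputable def lam (c : V) : ℝ := c 0 + tau * c 1 + tau ^ 2 * c 2
noncomputable def mu (c : V) : ℝ := tau ^ 3 * c 1 + tau ^ 5 * c 2
noncomputable def om (v : V) : ℝ :=
  (tau ^ 6 - tau ^ 5) * v 0 - tau ^ 5 * v 1 + tau ^ 3 * v 2

lemma lam_ne {c : V} (hc : c ≠ 0) : lam c ≠ 0 := by
  intro h
  apply hc
  have := tau_indep 3 c (by
    unfold lam at h
    simp only [Fin.sum_univ_succ, Fin.sum_univ_zero]
    simpa [add_assoc] using h)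
  exact this

lemma om_ne {v : V} (hv : v ≠ 0) : om v ≠ 0 := by
  intro h
  apply hv
  have h1 := tau_indep 7 ![0, 0, 0, v 2, 0, -v 0 - v 1, v 0] (by
    unfold om at h
    simp only [Fin.sum_univ_succ, Fin.sum_univ_zero]
    simp
    linarith)
  have e0 := congrFun h1 6
  have e1 := congrFun h1 5
  have e2 := congrFun h1 3
  simp at e0 e1 e2
  apply v_ext <;> simp <;> omega

/-- cross product -/
def cr (y z : V) : V :=
  ![y 1 * z 2 - y 2 * z 1, y 2 * z 0 - y 0 * z 2, y 0 * z 1 - y 1 * z 0]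

lemma dt_eq_dot (x y z : V) : dt x y z = x ⬝ᵥ cr y z := by
  simp [dt, cr, dotProduct, Fin.sum_univ_succ]
  ring

/-- normalised primitive vectors -/
def Pr (x : V) : Prop := Pos x ∧ ∃ ξ : V, ξ ⬝ᵥ x = 1

lemma eq_smul_of_cr {x y : V} (hx : ∃ ξ : V, ξ ⬝ᵥ x = 1) (h : cr x y = 0) :
    ∃ k : ℤ, y = k • x := by
  obtain ⟨ξ, hξ⟩ := hx
  have h0 : x 1 * y 2 - x 2 * y 1 = 0 := congrFun h 0
  have h1 : x 2 * y 0 - x 0 * y 2 = 0 := congrFun h 1
  have h2 : x 0 * y 1 - x 1 * y 0 = 0 := congrFun h 2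
  have hξ' : ξ 0 * x 0 + ξ 1 * x 1 + ξ 2 * x 2 = 1 := by
    simpa [dotProduct, Fin.sum_univ_succ, add_assoc] using hξ
  refine ⟨ξ 0 * y 0 + ξ 1 * y 1 + ξ 2 * y 2, ?_⟩
  apply v_ext <;> simp only [Pi.smul_apply, smul_eq_mul]
  · have : y 0 = (ξ 0 * x 0 + ξ 1 * x 1 + ξ 2 * x 2) * y 0 := by rw [hξ']; ring
    linear_combination this - ξ 1 * h2 + ξ 2 * h1
  · have : y 1 = (ξ 0 * x 0 + ξ 1 * x 1 + ξ 2 * x 2) * y 1 := by rw [hξ']; ring
    linear_combination this + ξ 0 * h2 - ξ 2 * h0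
  · have : y 2 = (ξ 0 * x 0 + ξ 1 * x 1 + ξ 2 * x 2) * y 2 := by rw [hξ']; ring
    linear_combination this - ξ 0 * h1 + ξ 1 * h0

lemma cr_swap (x y : V) : cr y x = -cr x y := by
  apply v_ext <;> simp [cr] <;> ring

lemma eq_of_cr {x y : V} (hx : Pr x) (hy : Pr y) (h : cr x y = 0) : x = y := by
  obtain ⟨k, hk⟩ := eq_smul_of_cr hx.2 h
  obtain ⟨k', hk'⟩ := eq_smul_of_cr hy.2 (by rw [cr_swap, h, neg_zero])
  obtain ⟨ξ, hξ⟩ := hx.2
  have h1 : k' * k = 1 := by
    have : x = (k' * k) • x := by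
      conv_lhs => rw [hk', hk, smul_smul]
    have h2 : ξ ⬝ᵥ x = (k' * k) * (ξ ⬝ᵥ x) := by
      conv_lhs => rw [this, dotProduct_smul, smul_eq_mul]
    rw [hξ] at h2
    linarith
  rcases Int.eq_one_or_neg_one_of_mul_eq_one' h1 with ⟨_, h2⟩ | ⟨_, h2⟩
  · rw [hk, h2, one_smul]
  · exfalso
    rw [h2, neg_one_smul] at hk
    have := hy.1
    rw [hk] at this
    exact not_pos_neg hx.1 this

section Chart

lemma tau_ne_one : tau ^ 6 - tau ^ 5 ≠ 0 := by
  intro h
  have := om_ne (v := ![1, 0, 0]) (by decide)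
  apply this
  simp [om, h]

noncomputable def cX (c : V) : ℝ := mu c / lam c
noncomputable def cY (c : V) : ℝ := c 0 / lam c
noncomputable def cA (v : V) : ℝ := -(tau * v 2 - tau ^ 2 * v 1) / om v
noncomputable def cB (v : V) : ℝ := -(tau ^ 5 * v 1 - tau ^ 3 * v 2) / om v

lemma chart_inc {v c : V} (hv : v ≠ 0) (hc : c ≠ 0) :
    cY c = cA v * cX c + cB v ↔ v ⬝ᵥ c = 0 := by
  have h1 := om_ne hv
  have h2 := lam_ne hc
  have e : v ⬝ᵥ c = v 0 * c 0 + v 1 * c 1 + v 2 * c 2 := by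
    simp [dotProduct, Fin.sum_univ_succ, add_assoc]
  have key : (c 0 : ℝ) * om v + (tau * v 2 - tau ^ 2 * v 1) * mu c +
      (tau ^ 5 * v 1 - tau ^ 3 * v 2) * lam c =
      (tau ^ 6 - tau ^ 5) * ((v 0 * c 0 + v 1 * c 1 + v 2 * c 2 : ℤ) : ℝ) := by
    unfold om mu lam
    push_cast
    ring
  have h3 : cY c = cA v * cX c + cB v ↔ (c 0 : ℝ) * om v + (tau * v 2 - tau ^ 2 * v 1) * mu c +
      (tau ^ 5 * v 1 - tau ^ 3 * v 2) * lam c = 0 := by
    unfold cY cA cX cB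
    constructor
    · intro h
      field_simp at h
      linarith
    · intro h
      field_simp
      linarith
  rw [h3, key, e]
  constructor
  · intro h
    rcases mul_eq_zero.1 h with h4 | h4
    · exact absurd h4 tau_ne_one
    · exact_mod_cast h4
  · intro h
    rw [h]
    simp

lemma chart_inj {c c' : V} (hc : Pr c) (hc' : Pr c') (h : cX c = cX c') : c = c' := by
  have h1 := lam_ne hc.1.ne_zero
  have h2 := lam_ne hc'.1.ne_zero
  unfold cX at h
  rw [div_eq_div_iff h1 h2] at h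
  apply eq_of_cr hc hc'
  by_contra hne
  apply om_ne hne
  have : om (cr c c') = lam c * mu c' - mu c * lam c' := by
    simp only [om, cr, lam, mu]
    simp
    ring
  rw [this]
  linarith

lemma chart_line {v v' : V} (hv : Pr v) (hv' : Pr v') (h1 : cA v = cA v') (h2 : cB v = cB v') :
    v = v' := by
  have o1 := om_ne hv.1.ne_zero
  have o2 := om_ne hv'.1.ne_zero
  unfold cA at h1
  unfold cB at h2
  rw [div_eq_div_iff o1 o2] at h1 h2
  have ht := tau_pos
  have hD := tau_ne_one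
  -- the real vector om v' * v - om v * v' vanishes
  set p0 : ℝ := om v' * v 0 - om v * v' 0 with hp0
  set p1 : ℝ := om v' * v 1 - om v * v' 1 with hp1
  set p2 : ℝ := om v' * v 2 - om v * v' 2 with hp2
  have e1 : tau * p2 - tau ^ 2 * p1 = 0 := by
    rw [hp1, hp2]; linarith
  have e2 : tau ^ 5 * p1 - tau ^ 3 * p2 = 0 := by
    rw [hp1, hp2]; linarith
  have e3 : (tau ^ 6 - tau ^ 5) * p0 - tau ^ 5 * p1 + tau ^ 3 * p2 = 0 := by
    have : (tau ^ 6 - tau ^ 5) * p0 - tau ^ 5 * p1 + tau ^ 3 * p2 =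
        om v' * om v - om v * om v' := by
      rw [hp0, hp1, hp2]
      conv_rhs => rw [show om v' * om v - om v * om v' =
        om v' * ((tau ^ 6 - tau ^ 5) * v 0 - tau ^ 5 * v 1 + tau ^ 3 * v 2) -
        om v * ((tau ^ 6 - tau ^ 5) * v' 0 - tau ^ 5 * v' 1 + tau ^ 3 * v' 2) from rfl]
      ring
    rw [this]; ring
  have f1 : p1 = 0 := by
    have : (tau ^ 6 - tau ^ 5) * p1 = 0 := by
      have e4 : tau ^ 4 * (tau * p2 - tau ^ 2 * p1) + tau ^ 2 * (tau ^ 5 * p1 - tau ^ 3 * p2) = 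
        tau ^ 4 * 0 + tau ^ 2 * 0 := by rw [e1, e2]
      nlinarith [e1, e2, e4]
    exact (mul_eq_zero.1 this).resolve_left hD
  have f2 : p2 = 0 := by
    rw [f1] at e1
    have : tau * p2 = 0 := by linarith
    exact (mul_eq_zero.1 this).resolve_left ht.ne'
  have f0 : p0 = 0 := by
    rw [f1, f2] at e3
    have : (tau ^ 6 - tau ^ 5) * p0 = 0 := by linarith
    exact (mul_eq_zero.1 this).resolve_left hD
  apply eq_of_cr hv hv'
  have g : ∀ x y x' y' : ℤ, om v' * x = om v * x' → om v' * y = om v * y' →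
      x * y' - y * x' = 0 := by
    intro x y x' y' hx hy
    have h3 : om v * ((x : ℝ) * y' - y * x') = 0 := by
      calc om v * ((x : ℝ) * y' - y * x') = x * (om v * y') - y * (om v * x') := by ring
        _ = x * (om v' * y) - y * (om v' * x) := by rw [hx, hy]
        _ = 0 := by ring
    rcases mul_eq_zero.1 h3 with h4 | h4
    · exact absurd h4 o1
    · exact_mod_cast h4
  have q0 : om v' * (v 0 : ℝ) = om v * v' 0 := by linarith
  have q1 : om v' * (v 1 : ℝ) = om v * v' 1 := by linarith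
  have q2 : om v' * (v 2 : ℝ) = om v * v' 2 := by linarith
  apply v_ext
  · simpa [cr] using g _ _ _ _ q1 q2
  · simpa [cr] using g _ _ _ _ q2 q0
  · simpa [cr] using g _ _ _ _ q0 q1

end Chart

open Classical in
/-- the number of incidences -/
theorem inc_bound (L P : Finset V) (hL : ∀ v ∈ L, Pr v) (hP : ∀ c ∈ P, Pr c) (m : ℝ)
    (hLm : (L.card : ℝ) ≤ m) (hPm : (P.card : ℝ) ≤ m) :
    (((L ×ˢ P).filter (fun x => x.1 ⬝ᵥ x.2 = 0)).card : ℝ) ≤ 5 * m ^ ((4 : ℝ) / 3) := by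
  have hm0 : 0 ≤ m := le_trans (by positivity) hLm
  have hfil : (L ×ˢ P).filter (fun x => x.1 ⬝ᵥ x.2 = 0) =
      (L ×ˢ P).filter (fun x => cY x.2 = cA x.1 * cX x.2 + cB x.1) := by
    apply Finset.filter_congr
    intro x hx
    obtain ⟨h1, h2⟩ := Finset.mem_product.1 hx
    exact (chart_inc (hL _ h1).1.ne_zero (hP _ h2).1.ne_zero).symm
  rw [hfil]
  have hst := szemeredi_trotter cX cY cA cB P L
    (fun u hu v hv h => chart_inj (hP u hu) (hP v hv) h)
    (fun x hx y hy h h' => chart_line (hL x hx) (hL y hy) h h')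
  set I := (L ×ˢ P).filter (fun x => cY x.2 = cA x.1 * cX x.2 + cB x.1) with hI
  by_cases hI0 : I.card = 0
  · rw [hI0]
    have : 0 ≤ m ^ ((4 : ℝ) / 3) := Real.rpow_nonneg hm0 _
    push_cast
    linarith
  have hm1 : 1 ≤ m := by
    obtain ⟨x, hx⟩ := Finset.card_pos.1 (Nat.pos_of_ne_zero hI0)
    have h1 := (Finset.mem_product.1 (Finset.mem_filter.1 hx).1).1
    have h2 : 1 ≤ L.card := Finset.card_pos.2 ⟨_, h1⟩
    have h3 : (1 : ℝ) ≤ L.card := by exact_mod_cast h2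
    linarith
  have hmm : m ≤ m ^ ((4 : ℝ) / 3) := by
    conv_lhs => rw [← Real.rpow_one m]
    exact Real.rpow_le_rpow_of_exponent_le hm1 (by norm_num)
  rcases hst with h | h
  · have h1 : (I.card : ℝ) ≤ L.card + 4 * P.card := by exact_mod_cast h
    linarith
  · set u : ℕ := I.card - L.card with hu
    have h1 : (u : ℝ) ^ 3 ≤ 64 * P.card ^ 2 * L.card ^ 2 := by exact_mod_cast h
    have h2 : (u : ℝ) ^ 3 ≤ (4 * m ^ ((4 : ℝ) / 3)) ^ 3 := by
      calc (u : ℝ) ^ 3 ≤ 64 * P.card ^ 2 * L.card ^ 2 := h1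
        _ ≤ 64 * m ^ 2 * m ^ 2 := by gcongr
        _ = (4 * m ^ ((4 : ℝ) / 3)) ^ 3 := by
          rw [mul_pow, ← Real.rpow_natCast (m ^ ((4 : ℝ) / 3)) 3, ← Real.rpow_mul hm0]
          norm_num
          ring
    have h3 : (u : ℝ) ≤ 4 * m ^ ((4 : ℝ) / 3) :=
      le_of_pow_le_pow_left₀ (by norm_num) (by positivity) h2
    have h4 : (I.card : ℝ) ≤ u + L.card := by
      have : I.card ≤ u + L.card := by omega
      exact_mod_cast this
    linarith

end Pool.Agent.H.MP_e5d137_al.G3
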