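import Pool.Agent.H.MP_e5d137_al.Compare
import Pool.Agent.H.MP_e5d137_al.Torus

/-!
# Comparison of two complexes for the same group, restriction to finite index subgroups
-/

namespace Pool.Agent.H.MP_e5d137_al

open Finsupp
open scoped ENNReal

section Cmp

variable {Γ : Type} [Group Γ] (K L : GComplex Γ)

/-- equivariant lift along the boundary map -/
noncomputable def lf (i j : ℕ) (φ : K.cell i → (L.cell j →₀ ℤ)) :
    (K.cell i →₀ ℤ) →ₗ[ℤ] (L.cell (j + 1) →₀ ℤ) :=
  Finsupp.linearCombination ℤ (fun x =>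
    actK L (j + 1) (gam K i x) (pick L j (actK L j (gam K i x)⁻¹ (φ x))))

lemma actK_one (i : ℕ) (c : K.cell i →₀ ℤ) : actK K i 1 c = c := by
  induction c using Finsupp.induction_linear with
  | zero => simp
  | add a b ha hb => rw [map_add, ha, hb]
  | single x n => rw [actK_single, one_smul]

lemma lf_act (i j : ℕ) (φ : K.cell i → (L.cell j →₀ ℤ))
    (hφ : ∀ (g : Γ) x, φ (g • x) = actK L j g (φ x)) (g : Γ) (c : K.cell i →₀ ℤ) :
    lf K L i j φ (actK K i g c) = actK L (j + 1) g (lf K L i j φ c) := by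
  induction c using Finsupp.induction_linear with
  | zero => simp
  | add a b ha hb => simp only [map_add, ha, hb]
  | single x n =>
    rw [actK_single, lf, Finsupp.linearCombination_single, Finsupp.linearCombination_single,
      gam_smul, hφ, map_smul, actK_mul]
    congr 4
    rw [← actK_mul]
    congr 1
    group

lemma bd_lf (i j : ℕ) (φ : K.cell i → (L.cell j →₀ ℤ)) (hφ : ∀ x, ∃ b, L.bd j b = φ x)
    (c : K.cell i →₀ ℤ) : L.bd j (lf K L i j φ c) = Finsupp.linearCombination ℤ φ c := by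
  induction c using Finsupp.induction_linear with
  | zero => simp
  | add a b ha hb => simp only [map_add, ha, hb]
  | single x n =>
    rw [lf, Finsupp.linearCombination_single, Finsupp.linearCombination_single, map_zsmul,
      bd_actK, bd_pick]
    · rw [← actK_mul, mul_inv_cancel, actK_one]
    · obtain ⟨b, hb⟩ := hφ x
      exact ⟨actK L (j + 1) (gam K i x)⁻¹ b, by rw [bd_actK, hb]⟩

/-- equivariant augmentation preserving chain maps -/
structure CMap where
  f : ∀ i, (K.cell i →₀ ℤ) →ₗ[ℤ] (L.cell i →₀ ℤ)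
  eqv : ∀ (i : ℕ) (g : Γ) (c : K.cell i →₀ ℤ), f i (actK K i g c) = actK L i g (f i c)
  aug : ∀ c : K.cell 0 →₀ ℤ, (f 0 c).sum (fun _ k => k) = c.sum (fun _ k => k)
  comm : ∀ (i : ℕ) (c : K.cell (i + 1) →₀ ℤ), L.bd i (f (i + 1) c) = f i (K.bd i c)

/-- the maps -/
noncomputable def fmap : ∀ i, (K.cell i →₀ ℤ) →ₗ[ℤ] (L.cell i →₀ ℤ)
  | 0 => Finsupp.linearCombination ℤ (fun x => single (gam K 0 x • L.nonempty.some) 1)
  | (i + 1) => lf K L (i + 1) i (fun x => fmap i (K.bd i (single x 1)))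

lemma fmap_act (i : ℕ) (g : Γ) (c : K.cell i →₀ ℤ) :
    fmap K L i (actK K i g c) = actK L i g (fmap K L i c) := by
  induction i generalizing g with
  | zero =>
    induction c using Finsupp.induction_linear with
    | zero => simp
    | add a b ha hb => simp only [map_add, ha, hb]
    | single x n =>
      rw [actK_single, fmap, Finsupp.linearCombination_single, Finsupp.linearCombination_single,
        map_smul, actK_single, gam_smul, mul_smul]
  | succ i ih =>
    rw [fmap]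
    refine lf_act K L _ _ _ (fun g x => ?_) g c
    rw [← actK_single, bd_actK, ih]

lemma sum_lc {α β : Type} (f : α → β →₀ ℤ) (hf : ∀ x, (f x).sum (fun _ k => k) = 1)
    (c : α →₀ ℤ) : (Finsupp.linearCombination ℤ f c).sum (fun _ k => k) = c.sum (fun _ k => k) := by
  classical
  induction c using Finsupp.induction_linear with
  | zero => simp
  | add a b ha hb =>
    rw [map_add, Finsupp.sum_add_index (by simp) (by simp), ha, hb,
      Finsupp.sum_add_index (by simp) (by simp)]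
  | single x n =>
    rw [Finsupp.linearCombination_single, Finsupp.sum_smul_index (by simp),
      Finsupp.sum_single_index rfl, ← Finsupp.mul_sum, hf, mul_one]

lemma lc_single {α : Type} {M : Type} [AddCommGroup M] (F : (α →₀ ℤ) →ₗ[ℤ] M) (c : α →₀ ℤ) :
    Finsupp.linearCombination ℤ (fun x => F (single x 1)) c = F c := by
  induction c using Finsupp.induction_linear with
  | zero => simp
  | add a b ha hb => simp only [map_add, ha, hb]
  | single x n =>
    rw [Finsupp.linearCombination_single, ← map_smul]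
    simp

/-- boundary as a linear map -/
noncomputable def bdl' (i : ℕ) : (K.cell (i + 1) →₀ ℤ) →ₗ[ℤ] (K.cell i →₀ ℤ) :=
  (K.bd i).toIntLinearMap

lemma bdl'_apply (i : ℕ) (c : K.cell (i + 1) →₀ ℤ) : bdl' K i c = K.bd i c := rfl

lemma fmap_aug (c : K.cell 0 →₀ ℤ) :
    (fmap K L 0 c).sum (fun _ k => k) = c.sum (fun _ k => k) := by
  rw [fmap]
  exact sum_lc _ (fun x => by simp) c

lemma fmap_comm (i : ℕ) (c : K.cell (i + 1) →₀ ℤ) :
    L.bd i (fmap K L (i + 1) c) = fmap K L i (K.bd i c) := by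
  have key : ∀ i, (∀ x, ∃ b, L.bd i b = fmap K L i (K.bd i (single x 1))) →
      ∀ c, L.bd i (fmap K L (i + 1) c) = fmap K L i (K.bd i c) := by
    intro i h c
    rw [fmap, bd_lf K L (i + 1) i _ h]
    exact lc_single ((fmap K L i).comp (bdl' K i)) c
  induction i with
  | zero =>
    refine key 0 (fun x => ?_) c
    rw [← L.exact_zero, fmap_aug]
    exact sum_bd K _
  | succ i ih =>
    refine key (i + 1) (fun x => ?_) c
    rw [← L.exact_succ, ih, bd_bd, map_zero]

/-- a chain map exists -/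
noncomputable def theMap : CMap K L := ⟨fmap K L, fmap_act K L, fmap_aug K L, fmap_comm K L⟩

variable {K L}

/-- composition -/
noncomputable def CMap.comp {M : GComplex Γ} (v : CMap L M) (u : CMap K L) : CMap K M where
  f i := (v.f i).comp (u.f i)
  eqv i g c := by simp only [LinearMap.comp_apply, u.eqv, v.eqv]
  aug c := by simp only [LinearMap.comp_apply, u.aug, v.aug]
  comm i c := by simp only [LinearMap.comp_apply, u.comm, v.comm]

/-- identity -/
noncomputable def CMap.id (K : GComplex Γ) : CMap K K where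
  f _ := LinearMap.id
  eqv _ _ _ := rfl
  aug _ := rfl
  comm _ _ := rfl

/-- homotopy -/
noncomputable def hmt (u v : CMap K L) : ∀ i, (K.cell i →₀ ℤ) →ₗ[ℤ] (L.cell (i + 1) →₀ ℤ)
  | 0 => lf K L 0 0 (fun x => v.f 0 (single x 1) - u.f 0 (single x 1))
  | (i + 1) => lf K L (i + 1) (i + 1) (fun x => v.f (i + 1) (single x 1) -
      u.f (i + 1) (single x 1) - hmt u v i (K.bd i (single x 1)))

lemma hmt_act (u v : CMap K L) (i : ℕ) (g : Γ) (c : K.cell i →₀ ℤ) :
    hmt u v i (actK K i g c) = actK L (i + 1) g (hmt u v i c) := by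
  induction i generalizing g with
  | zero =>
    rw [hmt]
    refine lf_act K L _ _ _ (fun g x => ?_) g c
    rw [← actK_single, u.eqv, v.eqv, map_sub]
  | succ i ih =>
    rw [hmt]
    refine lf_act K L _ _ _ (fun g x => ?_) g c
    rw [← actK_single, u.eqv, v.eqv, bd_actK, ih, map_sub, map_sub]

lemma hmt_zero (u v : CMap K L) (c : K.cell 0 →₀ ℤ) :
    L.bd 0 (hmt u v 0 c) = v.f 0 c - u.f 0 c := by
  rw [hmt, bd_lf]
  · exact lc_single (v.f 0 - u.f 0) c
  · intro x
    rw [← L.exact_zero, Finsupp.sum_sub_index (by intros; rfl), u.aug, v.aug, sub_self]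

lemma hmt_succ (u v : CMap K L) (i : ℕ) (c : K.cell (i + 1) →₀ ℤ) :
    L.bd (i + 1) (hmt u v (i + 1) c) =
      v.f (i + 1) c - u.f (i + 1) c - hmt u v i (K.bd i c) := by
  have key : ∀ i, (∀ x, ∃ b, L.bd (i + 1) b = v.f (i + 1) (single x 1) -
      u.f (i + 1) (single x 1) - hmt u v i (K.bd i (single x 1))) →
      ∀ c, L.bd (i + 1) (hmt u v (i + 1) c) =
        v.f (i + 1) c - u.f (i + 1) c - hmt u v i (K.bd i c) := by
    intro i h c
    rw [hmt, bd_lf K L (i + 1) (i + 1) _ h]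
    exact lc_single (v.f (i + 1) - u.f (i + 1) - (hmt u v i).comp (bdl' K i)) c
  induction i with
  | zero =>
    refine key 0 (fun x => ?_) c
    rw [← L.exact_succ, map_sub, map_sub, v.comm, u.comm, hmt_zero, sub_self]
  | succ i ih =>
    refine key (i + 1) (fun x => ?_) c
    rw [← L.exact_succ, map_sub, map_sub, v.comm, u.comm, ih, bd_bd, map_zero]
    abel

/-- equivariant maps are bounded on degrees with finitely many orbits -/
lemma eqv_mass (i j : ℕ) (s : Finset (K.cell i))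
    (hs : ∀ x : K.cell i, ∃ g : Γ, ∃ y ∈ s, g • y = x)
    (F : (K.cell i →₀ ℤ) →ₗ[ℤ] (L.cell j →₀ ℤ))
    (hF : ∀ (g : Γ) c, F (actK K i g c) = actK L j g (F c)) :
    ∃ M : ℕ, ∀ c, mass (F c) ≤ M * mass c := by
  refine ⟨∑ y ∈ s, mass (F (single y 1)), fun c => ?_⟩
  rw [← lc_single F c]
  apply mass_linearCombination_le
  intro x _
  obtain ⟨g, y, hy, rfl⟩ := hs x
  rw [← actK_single, hF, actK_apply]
  refine (mass_mapDomain_le _ _).trans ?_
  exact Finset.single_le_sum (f := fun y => mass (F (single y 1))) (fun _ _ => Nat.zero_le _) hy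

end Cmp

section Iso

variable {Γ : Type} [Group Γ] (K : GComplex Γ)

lemma fillVol_le (m : ℕ) (c : K.cell (m + 1) →₀ ℤ) : K.fillVol m (K.bd m c) ≤ mass c := by
  unfold GComplex.fillVol
  exact iInf_le_of_le c (iInf_le_of_le rfl le_rfl)

lemma exists_fill (m : ℕ) (z : K.cell m →₀ ℤ) (hz : ∃ c, K.bd m c = z) :
    ∃ c, K.bd m c = z ∧ K.fillVol m z = mass c := by
  classical
  have h : ∃ n : ℕ, ∃ c, K.bd m c = z ∧ mass c = n := by
    obtain ⟨c, hc⟩ := hz
    exact ⟨mass c, c, hc, rfl⟩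
  obtain ⟨c, hc, hn⟩ := Nat.find_spec h
  refine ⟨c, hc, le_antisymm ?_ ?_⟩
  · rw [← hc]
    exact fillVol_le K m c
  · refine le_iInf₂ (fun c' hc' => ?_)
    rw [hn]
    exact_mod_cast Nat.find_min' h ⟨c', hc', rfl⟩

lemma iso_mono (m : ℕ) {a b : ℕ} (h : a ≤ b) : K.iso m a ≤ K.iso m b :=
  iSup_mono (fun _ => iSup_mono (fun _ => iSup_le (fun hz => le_iSup_of_le (hz.trans h) le_rfl)))

lemma le_iso (m : ℕ) {z : K.cell m →₀ ℤ} (hz : ∃ c, K.bd m c = z) {n : ℕ} (hn : mass z ≤ n) :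
    K.fillVol m z ≤ K.iso m n :=
  le_iSup₂_of_le z hz (le_iSup_of_le hn le_rfl)

/-- comparison of isoperimetric functions -/
theorem iso_compare (K L : GComplex Γ) (m : ℕ) (hm : 1 ≤ m) (hK : K.FiniteTo (m + 1))
    (hL : L.FiniteTo (m + 1)) :
    ∃ C : ℕ, ∀ n, K.iso m n ≤ C * L.iso m (C * n) + C * n := by
  obtain ⟨k, rfl⟩ : ∃ k, m = k + 1 := ⟨m - 1, by omega⟩
  set u := theMap K L
  set v := theMap L K
  set h := hmt (CMap.id K) (v.comp u)
  obtain ⟨s0, hs0⟩ := hK (k + 1) (by omega)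
  obtain ⟨s1, hs1⟩ := hL (k + 1 + 1) le_rfl
  obtain ⟨M1, hM1⟩ := eqv_mass (k + 1) (k + 1) s0 hs0 (u.f (k + 1)) (u.eqv _)
  obtain ⟨M2, hM2⟩ := eqv_mass (k + 1 + 1) (k + 1 + 1) s1 hs1 (v.f (k + 1 + 1)) (v.eqv _)
  obtain ⟨M3, hM3⟩ := eqv_mass (k + 1) (k + 1 + 1) s0 hs0 (h (k + 1))
    (hmt_act (CMap.id K) (v.comp u) _)
  refine ⟨M1 + M2 + M3, fun n => ?_⟩
  refine iSup₂_le (fun z hz => iSup_le (fun hzn => ?_))
  have hzc : K.bd k z = 0 := (K.exact_succ k z).2 hz
  have hfz : ∃ c, L.bd (k + 1) c = u.f (k + 1) z := by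
    obtain ⟨c, hc⟩ := hz
    exact ⟨u.f (k + 1 + 1) c, by rw [u.comm, hc]⟩
  obtain ⟨w, hw1, hw2⟩ := exists_fill L (k + 1) _ hfz
  have hmw : (mass w : ℕ∞) ≤ L.iso (k + 1) ((M1 + M2 + M3) * n) := by
    rw [← hw2]
    refine le_iso L (k + 1) hfz ?_
    calc mass (u.f (k + 1) z) ≤ M1 * mass z := hM1 z
      _ ≤ (M1 + M2 + M3) * n := Nat.mul_le_mul (by omega) hzn
  have hfill : K.bd (k + 1) (v.f (k + 1 + 1) w - h (k + 1) z) = z := by
    rw [map_sub, v.comm, hw1]
    have h1 := hmt_succ (CMap.id K) (v.comp u) k z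
    rw [hzc, map_zero, sub_zero] at h1
    have h2 : K.bd (k + 1) (h (k + 1) z) = v.f (k + 1) (u.f (k + 1) z) - z := h1
    rw [h2]
    abel
  have h1 : K.fillVol (k + 1) z ≤ (mass (v.f (k + 1 + 1) w - h (k + 1) z) : ℕ∞) := by
    conv_lhs => rw [← hfill]
    exact fillVol_le K (k + 1) _
  refine h1.trans ?_
  have h2 : mass (v.f (k + 1 + 1) w - h (k + 1) z) ≤
      (M1 + M2 + M3) * mass w + (M1 + M2 + M3) * n := by
    refine (mass_sub_le _ _).trans (Nat.add_le_add ?_ ?_)
    · exact (hM2 w).trans (Nat.mul_le_mul_right _ (by omega))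
    · exact (hM3 z).trans (Nat.mul_le_mul (by omega) hzn)
  calc (mass (v.f (k + 1 + 1) w - h (k + 1) z) : ℕ∞)
      ≤ (((M1 + M2 + M3) * mass w + (M1 + M2 + M3) * n : ℕ) : ℕ∞) := by exact_mod_cast h2
    _ = ((M1 + M2 + M3 : ℕ) : ℕ∞) * (mass w : ℕ∞) + ((M1 + M2 + M3 : ℕ) : ℕ∞) * n := by
        push_cast; ring
    _ ≤ _ := by gcongr

/-- restriction to a subgroup -/
def GComplex.res (K : GComplex Γ) (H : Subgroup Γ) : GComplex H where
  cell := K.cell
  act := fun i => inferInstanceAs (MulAction H (K.cell i))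
  free := fun i g x h => Subtype.ext (K.free i (g : Γ) x h)
  bd := K.bd
  bd_smul := fun i g c => K.bd_smul i (g : Γ) c
  nonempty := K.nonempty
  exact_zero := K.exact_zero
  exact_succ := K.exact_succ

lemma res_iso (H : Subgroup Γ) (m n : ℕ) : (K.res H).iso m n = K.iso m n := rfl

lemma res_finite_aux (H : Subgroup Γ) [H.FiniteIndex] (i : ℕ) (s : Finset (K.cell i))
    (hs : ∀ x : K.cell i, ∃ g : Γ, ∃ y ∈ s, g • y = x) :
    ∃ s' : Finset (K.cell i), ∀ x : K.cell i, ∃ g : H, ∃ y ∈ s', (g : Γ) • y = x := by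
  classical
  have : Finite (Γ ⧸ H) := inferInstance
  have := Fintype.ofFinite (Γ ⧸ H)
  refine ⟨(Finset.univ : Finset (Γ ⧸ H)).biUnion (fun q => s.image (fun y => (q.out)⁻¹ • y)),
    fun x => ?_⟩
  obtain ⟨g, y, hy, rfl⟩ := hs x
  set r : Γ := (QuotientGroup.mk (g⁻¹) : Γ ⧸ H).out with hr
  have h1 : r⁻¹ * g⁻¹ ∈ H := by
    rw [← QuotientGroup.eq]
    exact QuotientGroup.out_eq' _
  have h2 : g * r ∈ H := by
    have := H.inv_mem h1
    rwa [mul_inv_rev, inv_inv, inv_inv] at this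
  refine ⟨⟨g * r, h2⟩, r⁻¹ • y, ?_, ?_⟩
  · refine Finset.mem_biUnion.2 ⟨QuotientGroup.mk (g⁻¹), Finset.mem_univ _, ?_⟩
    exact Finset.mem_image.2 ⟨y, hy, rfl⟩
  · show (g * r) • (r⁻¹ • y) = g • y
    rw [smul_smul, mul_inv_cancel_right]

lemma res_finite (H : Subgroup Γ) [H.FiniteIndex] (N : ℕ) (hK : K.FiniteTo N) :
    (K.res H).FiniteTo N := by
  intro i hi
  obtain ⟨s, hs⟩ := hK i hi
  exact res_finite_aux K H i s hs

end Iso

end Pool.Agent.H.MP_e5d137_al
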