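import Pool.Agent.H.MP_e5d137_al.G3.Height

/-!
# Colours modulo 3 and the congruence subgroup
-/

namespace Pool.Agent.H.MP_e5d137_al.G3

open Matrix

/-- congruence modulo 3 -/
def C3 (x y : V) : Prop := ∀ i, (3 : ℤ) ∣ x i - y i

lemma C3.ac {x y : V} (h : C3 x y) (g : GL3) : C3 (ac g x) (ac g y) := by
  intro i
  have : G3.ac g x i - G3.ac g y i =
      ∑ j, (g : Matrix (Fin 3) (Fin 3) ℤ) i j * (x j - y j) := by
    simp only [G3.ac, Matrix.mulVec, dotProduct, ← Finset.sum_sub_distrib]
    exact Finset.sum_congr rfl (fun j _ => by ring)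
  rw [this]
  exact Finset.dvd_sum (fun j _ => Dvd.dvd.mul_left (h j) _)

lemma C3.symm {x y : V} (h : C3 x y) : C3 y x := fun i => by
  have := h i
  omega

lemma C3.trans {x y z : V} (h : C3 x y) (h' : C3 y z) : C3 x z := fun i => by
  have := h i
  have := h' i
  omega

lemma C3.neg {x y : V} (h : C3 x y) : C3 (-x) (-y) := fun i => by
  have := h i
  simp only [Pi.neg_apply]
  omega

/-- code of a vector modulo 3 -/
def code (x : V) : ℤ := x 0 % 3 + 3 * (x 1 % 3) + 9 * (x 2 % 3)

lemma code_eq_iff {x y : V} : code x = code y ↔ C3 x y := by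
  unfold code C3
  constructor
  · intro h i
    have h0 := Int.emod_emod_of_dvd (x 0) (dvd_refl 3)
    fin_cases i <;> simp only [Fin.zero_eta, Fin.mk_one, Fin.reduceFinMk, Fin.isValue] <;> omega
  · intro h
    have h0 := h 0
    have h1 := h 1
    have h2 := h 2
    omega

/-- colour of a vector: it does not see signs -/
def col (x : V) : ℤ := min (code x) (code (-x))

lemma col_neg (x : V) : col (-x) = col x := by
  unfold col
  rw [neg_neg, min_comm]

lemma col_nrm (x : V) : col (nrm x) = col x := by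
  rcases nrm_eq x with h | h <;> rw [h]
  exact col_neg x

lemma col_eq {x y : V} (h : col x = col y) : C3 x y ∨ C3 x (-y) := by
  unfold col at h
  have e : ∀ a b : ℤ, min a b = a ∨ min a b = b := fun a b => min_choice a b
  rcases e (code x) (code (-x)) with h1 | h1 <;> rcases e (code y) (code (-y)) with h2 | h2 <;>
    rw [h1, h2] at h
  · exact Or.inl (code_eq_iff.1 h)
  · exact Or.inr (code_eq_iff.1 h)
  · refine Or.inr ?_
    have := (code_eq_iff.1 h).neg
    rwa [neg_neg] at this
  · refine Or.inl ?_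
    have := (code_eq_iff.1 h).neg
    rwa [neg_neg, neg_neg] at this

lemma col_of_C3 {x y : V} (h : C3 x y) : col x = col y := by
  unfold col
  rw [code_eq_iff.2 h, code_eq_iff.2 h.neg]

lemma s_C3 : ∀ k l : Fin 6, code (s k) = code (s l) ∨ code (s k) = code (-s l) → k = l := by
  decide

lemma col_sv_injective (g : GL3) : Function.Injective (fun k => col (sv g k)) := by
  intro k l h
  have h1 : col (ac g (s k)) = col (ac g (s l)) := by
    simpa only [sv, pac, col_nrm] using h
  apply s_C3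
  rcases col_eq h1 with h2 | h2
  · left
    rw [code_eq_iff]
    have := h2.ac g⁻¹
    rwa [ac_inv_ac, ac_inv_ac] at this
  · right
    rw [code_eq_iff]
    have := h2.ac g⁻¹
    rwa [ac_inv_ac, ac_neg, ac_inv_ac] at this

lemma col_inj_of_mem {g : GL3} {x y : V} (hx : x ∈ cfg g) (hy : y ∈ cfg g)
    (h : col x = col y) : x = y := by
  obtain ⟨k, rfl⟩ := mem_cfg.1 hx
  obtain ⟨l, rfl⟩ := mem_cfg.1 hy
  rw [col_sv_injective g h]

/-- the congruence subgroup of level 3 -/
def G3' : Subgroup GL3 :=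
  (Matrix.GeneralLinearGroup.map (n := Fin 3) (Int.castRingHom (ZMod 3))).ker

instance : G3'.FiniteIndex := by
  unfold G3'
  infer_instance

lemma C3_of_mem {g : GL3} (hg : g ∈ G3') (x : V) : C3 (ac g x) x := by
  have h1 : ∀ i j, (3 : ℤ) ∣ (g : Matrix (Fin 3) (Fin 3) ℤ) i j -
      (1 : Matrix (Fin 3) (Fin 3) ℤ) i j := by
    intro i j
    have h2 : Matrix.GeneralLinearGroup.map (n := Fin 3) (Int.castRingHom (ZMod 3)) g = 1 :=
      MonoidHom.mem_ker.1 hg
    have h3 := congrArg (fun u : Matrix.GeneralLinearGroup (Fin 3) (ZMod 3) =>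
      (u : Matrix (Fin 3) (Fin 3) (ZMod 3)) i j) h2
    have h4 : (((g : Matrix (Fin 3) (Fin 3) ℤ) i j : ℤ) : ZMod 3) =
        ((1 : Matrix (Fin 3) (Fin 3) (ZMod 3)) i j) := by
      simpa using h3
    have h5 : ((((g : Matrix (Fin 3) (Fin 3) ℤ) i j -
        (1 : Matrix (Fin 3) (Fin 3) ℤ) i j : ℤ)) : ZMod 3) = 0 := by
      push_cast
      rw [h4]
      rw [Matrix.one_apply, Matrix.one_apply]
      split_ifs <;> simp
    exact_mod_cast (ZMod.intCast_zmod_eq_zero_iff_dvd _ 3).1 h5
  intro i
  have : ac g x i - x i = ∑ j, ((g : Matrix (Fin 3) (Fin 3) ℤ) i j -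
      (1 : Matrix (Fin 3) (Fin 3) ℤ) i j) * x j := by
    have e : x i = ∑ j, (1 : Matrix (Fin 3) (Fin 3) ℤ) i j * x j := by
      have := congrFun (Matrix.one_mulVec x) i
      simpa only [Matrix.mulVec, dotProduct] using this.symm
    conv_lhs => rw [e]
    simp only [ac, Matrix.mulVec, dotProduct, ← Finset.sum_sub_distrib]
    exact Finset.sum_congr rfl (fun j _ => by ring)
  rw [this]
  exact Finset.dvd_sum (fun j _ => Dvd.dvd.mul_right (h1 i j) _)

lemma col_pac {g : GL3} (hg : g ∈ G3') (x : V) : col (pac g x) = col x := by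
  unfold pac
  rw [col_nrm]
  exact col_of_C3 (C3_of_mem hg x)

end Pool.Agent.H.MP_e5d137_al.G3
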