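import Pool.Agent.H.MP_e5d137_al.G3.Exact
import Pool.Agent.H.MP_e5d137_al.Defs

/-!
# The complex of the well-rounded retract as a `GComplex`
-/

namespace Pool.Agent.H.MP_e5d137_al.G3

open Matrix Finsupp

lemma cyc_of_bd (i : ℕ) (c : Cell (i + 1) →₀ ℤ) (h : bdW i c = 0) : Cyc (i + 1) c := by
  refine ⟨fun M hM hc => ?_, fun hi => absurd hi (Nat.succ_ne_zero i)⟩
  have h1 : dd (fun N => tw (i + 1) N * ex c N) M = dd (ex c) M := by
    congr 1
    funext N
    simp [tw]
  rw [h1]
  by_cases hs : Spans M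
  · have h2 : bdW i c ⟨M, hs, hM, by omega⟩ = 0 := by rw [h]; rfl
    rw [bdW_apply] at h2
    rcases mul_eq_zero.1 h2 with h3 | h3
    · exfalso
      have h4 := tw_sq i M
      have h5 : tw i M = 0 := h3
      rw [h5] at h4
      norm_num at h4
    · exact h3
  · exact dd_ex_eq_zero_of_not_spans c hs

/-- the complex of the well-rounded retract for `GL(3,ℤ)` -/
noncomputable def W : GComplex G3' where
  cell := Cell
  act := actCell
  free := fun _ g x h => free_cell g x h
  bd := bdW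
  bd_smul := fun i g c => bdW_smul i g c
  nonempty := ⟨cc 1⟩
  exact_zero := fun c => by
    constructor
    · intro h
      refine exact_cyc 0 c ⟨fun M hM hc => ?_, fun _ => h⟩
      exfalso
      obtain ⟨g, hg⟩ := hM
      have := Finset.card_le_card hg
      rw [card_cfg] at this
      omega
    · rintro ⟨b, rfl⟩
      exact sum_bdW b
  exact_succ := fun i c => by
    constructor
    · intro h
      exact exact_cyc (i + 1) c (cyc_of_bd i c h)
    · rintro ⟨b, rfl⟩
      exact bdW_bdW i b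

lemma cell_finite (i : ℕ) : ∃ s : Finset (Cell i), ∀ x : Cell i, ∃ g : G3', ∃ y ∈ s, g • y = x := by
  classical
  have : Finite (GL3 ⧸ G3') := inferInstance
  have hn : G3'.Normal := by unfold G3'; infer_instance
  have hfin : (⋃ q : GL3 ⧸ G3', {N : Cell i | N.1 ⊆ cfg q.out}).Finite := by
    refine Set.finite_iUnion (fun q => ?_)
    refine Set.Finite.subset ((((cfg q.out).powerset.finite_toSet).preimage
      (f := (Subtype.val : Cell i → Finset V)) Subtype.val_injective.injOn)) (fun N hN => ?_)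
    exact Finset.mem_coe.2 (Finset.mem_powerset.2 hN)
  refine ⟨hfin.toFinset, fun x => ?_⟩
  obtain ⟨w, hw⟩ := x.2.2.1
  set r : GL3 := (QuotientGroup.mk w : GL3 ⧸ G3').out with hr
  have h1 : r⁻¹ * w ∈ G3' := by
    rw [← QuotientGroup.eq]
    exact QuotientGroup.out_eq' _
  have h2 : w * r⁻¹ ∈ G3' := hn.mem_comm h1
  refine ⟨⟨w * r⁻¹, h2⟩, (⟨w * r⁻¹, h2⟩ : G3')⁻¹ • x, ?_, ?_⟩
  · rw [Set.Finite.mem_toFinset, Set.mem_iUnion]
    refine ⟨QuotientGroup.mk w, ?_⟩
    show img (((⟨w * r⁻¹, h2⟩ : G3')⁻¹ : G3') : GL3) x.1 ⊆ cfg r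
    have h3 : cfg r = img (((⟨w * r⁻¹, h2⟩ : G3')⁻¹ : G3') : GL3) (cfg w) := by
      rw [img_cfg]
      congr 1
      show r = (w * r⁻¹)⁻¹ * w
      group
    rw [h3]
    exact img_mono _ hw
  · exact smul_inv_smul (⟨w * r⁻¹, h2⟩ : G3') x

lemma W_finite (N : ℕ) : W.FiniteTo N := fun i _ => cell_finite i

lemma spans_card {M : Finset V} (h : Spans M) : 3 ≤ M.card := by
  classical
  obtain ⟨x, hx, y, hy, z, hz, h⟩ := h
  have hxy : x ≠ y := by
    rintro rfl
    apply h
    unfold dt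
    ring
  have hxz : x ≠ z := by
    rintro rfl
    apply h
    unfold dt
    ring
  have hyz : y ≠ z := by
    rintro rfl
    apply h
    unfold dt
    ring
  have h1 : ({x, y, z} : Finset V) ⊆ M := by
    intro w hw
    simp only [Finset.mem_insert, Finset.mem_singleton] at hw
    rcases hw with rfl | rfl | rfl <;> assumption
  have h2 := Finset.card_le_card h1
  rw [Finset.card_insert_of_notMem (by simp [hxy, hxz]), Finset.card_pair hyz] at h2
  exact h2

lemma cell_high {i : ℕ} (hi : 4 ≤ i) : IsEmpty (Cell i) := ⟨fun M => by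
  have h1 := spans_card M.2.1
  have h2 := M.2.2.2
  omega⟩

lemma bdW_inj (c c' : Cell 3 →₀ ℤ) (h : bdW 2 c = bdW 2 c') : c = c' := by
  have h1 : bdW 2 (c - c') = 0 := by rw [map_sub, h, sub_self]
  obtain ⟨b, hb⟩ := (W.exact_succ 2 (c - c')).1 h1
  have := cell_high (le_refl 4)
  have hb0 : b = 0 := by
    ext x
    exact (this.false x).elim
  rw [hb0, map_zero] at hb
  exact sub_eq_zero.1 hb.symm

/-- a unimodular triple gives a matrix -/
lemma exists_frame {x y z : V} (hx : Pos x) (hy : Pos y) (hz : Pos z)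
    (h : dt x y z = 1 ∨ dt x y z = -1) :
    ∃ g : GL3, ac g (s 0) = x ∧ ac g (s 1) = y ∧ ac g (s 2) = z := by
  have hdet : IsUnit (Matrix.det (Matrix.of ![x, y, z])ᵀ) := by
    rw [Matrix.det_transpose, ← dt_eq_det]
    rcases h with h | h <;> rw [h]
    · exact isUnit_one
    · exact isUnit_one.neg
  have hg : ((Matrix.GeneralLinearGroup.mk'' (Matrix.of ![x, y, z])ᵀ hdet : GL3) :
    Matrix (Fin 3) (Fin 3) ℤ) = (Matrix.of ![x, y, z])ᵀ := rfl
  refine ⟨Matrix.GeneralLinearGroup.mk'' (Matrix.of ![x, y, z])ᵀ hdet, ?_, ?_, ?_⟩ <;>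
  · unfold ac
    rw [hg]
    funext i
    simp [s, Matrix.mulVec, dotProduct, Fin.sum_univ_succ]

end Pool.Agent.H.MP_e5d137_al.G3
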