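import Pool.Agent.H.MP_e5d137_al.G3.FrameIneq
import Pool.Agent.H.MP_e5d137_al.G3.WC

/-!
# The isoperimetric inequality in the complex of the well-rounded retract
-/

namespace Pool.Agent.H.MP_e5d137_al.G3

open Matrix Finsupp

lemma dt_mul (x y z : V) (p q p' q' : ℤ) (u : V) :
    dt x (p • y + q • z) (p' • y + q' • z) = (p * q' - q * p') * dt x y z ∧
    dt (p • y + q • z) u (p' • y + q' • z) = -((p * q' - q * p') * dt u y z) ∧
    dt (p • y + q • z) (p' • y + q' • z) u = (p * q' - q * p') * dt u y z := by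
  refine ⟨?_, ?_, ?_⟩ <;> simp only [dt, Pi.add_apply, Pi.smul_apply, smul_eq_mul] <;> ring

lemma lin_indep {x y z : V} (h : dt x y z ≠ 0) {p q p' q' : ℤ}
    (he : p • y + q • z = p' • y + q' • z) : p = p' ∧ q = q' := by
  have h1 : dt x (p • y + q • z) z = p * dt x y z := by
    simp only [dt, Pi.add_apply, Pi.smul_apply, smul_eq_mul]; ring
  have h2 : dt x (p' • y + q' • z) z = p' * dt x y z := by
    simp only [dt, Pi.add_apply, Pi.smul_apply, smul_eq_mul]; ring
  have h3 : dt x y (p • y + q • z) = q * dt x y z := by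
    simp only [dt, Pi.add_apply, Pi.smul_apply, smul_eq_mul]; ring
  have h4 : dt x y (p' • y + q' • z) = q' * dt x y z := by
    simp only [dt, Pi.add_apply, Pi.smul_apply, smul_eq_mul]; ring
  rw [he] at h1 h3
  exact ⟨mul_right_cancel₀ h (h1.symm.trans h2), mul_right_cancel₀ h (h3.symm.trans h4)⟩

/-- the cone spanned by two vectors -/
def InC (y z w : V) : Prop := ∃ p q : ℕ, w = (p : ℤ) • y + (q : ℤ) • z

lemma inC_left {y z w : V} (h : InC y (y + z) w) : InC y z w := by
  obtain ⟨p, q, rfl⟩ := h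
  refine ⟨p + q, q, ?_⟩
  push_cast
  rw [add_smul, smul_add]
  abel

lemma inC_right {y z w : V} (h : InC (y + z) z w) : InC y z w := by
  obtain ⟨p, q, rfl⟩ := h
  refine ⟨p, p + q, ?_⟩
  push_cast
  rw [add_smul, smul_add]
  abel

lemma not_inC_left {x y z : V} (h : dt x y z ≠ 0) : ¬ InC y (y + z) z := by
  rintro ⟨p, q, hpq⟩
  have : (0 : ℤ) • y + (1 : ℤ) • z = ((p : ℤ) + q) • y + (q : ℤ) • z := by
    rw [zero_smul, one_smul, zero_add]
    conv_lhs => rw [hpq]
    rw [add_smul, smul_add]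
    abel
  obtain ⟨h1, h2⟩ := lin_indep h this
  omega

lemma not_inC_right {x y z : V} (h : dt x y z ≠ 0) : ¬ InC (y + z) z y := by
  rintro ⟨p, q, hpq⟩
  have : (1 : ℤ) • y + (0 : ℤ) • z = (p : ℤ) • y + ((p : ℤ) + q) • z := by
    rw [zero_smul, one_smul, add_zero]
    conv_lhs => rw [hpq]
    rw [add_smul, smul_add]
    abel
  obtain ⟨h1, h2⟩ := lin_indep h this
  omega

lemma inC_both {x y z w : V} (h : dt x y z ≠ 0) (h1 : InC y (y + z) w) (h2 : InC (y + z) z w) :
    ∃ q : ℕ, w = (q : ℤ) • (y + z) := by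
  obtain ⟨p, q, rfl⟩ := h1
  obtain ⟨p', q', hpq⟩ := h2
  have : ((p : ℤ) + q) • y + (q : ℤ) • z = (p' : ℤ) • y + ((p' : ℤ) + q') • z := by
    calc ((p : ℤ) + q) • y + (q : ℤ) • z = (p : ℤ) • y + (q : ℤ) • (y + z) := by
          rw [add_smul, smul_add]; abel
      _ = _ := by rw [hpq, add_smul, smul_add]; abel
  obtain ⟨h3, h4⟩ := lin_indep h this
  refine ⟨q, ?_⟩
  have : (p : ℤ) = 0 := by omega
  rw [this, zero_smul, zero_add]

/-- a set consisting of one vector and vectors on a line does not span -/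
lemma not_spans_line {M : Finset V} {x u : V} (h : ∀ w ∈ M, w ≠ x → ∃ q : ℤ, w = q • u) :
    ¬ Spans M := by
  rintro ⟨a, ha, b, hb, c, hc, hd⟩
  apply hd
  have h1 := h a ha
  have h2 := h b hb
  have h3 := h c hc
  by_cases ea : a = x <;> by_cases eb : b = x <;> by_cases ec : c = x
  · subst ea; rw [eb]; unfold dt; ring
  · subst ea; rw [eb]; unfold dt; ring
  · subst ea; rw [ec]; unfold dt; ring
  · obtain ⟨q, rfl⟩ := h2 eb
    obtain ⟨q', rfl⟩ := h3 ec
    simp only [dt, Pi.smul_apply, smul_eq_mul]; ring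
  · subst eb; rw [ec]; unfold dt; ring
  · obtain ⟨q, rfl⟩ := h1 ea
    obtain ⟨q', rfl⟩ := h3 ec
    simp only [dt, Pi.smul_apply, smul_eq_mul]; ring
  · obtain ⟨q, rfl⟩ := h1 ea
    obtain ⟨q', rfl⟩ := h2 eb
    simp only [dt, Pi.smul_apply, smul_eq_mul]; ring
  · obtain ⟨q, rfl⟩ := h1 ea
    obtain ⟨q', rfl⟩ := h2 eb
    simp only [dt, Pi.smul_apply, smul_eq_mul]; ring

/-- the cells involved in a cone -/
def Q (x y z : V) (N : Finset V) : Prop := x ∈ N ∧ ∀ w ∈ N, w ≠ x → InC y z w

lemma plane_cell {x y z : V} (hx : Pos x) (hy : Pos y) (hz : Pos z)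
    (h : dt x y z = 1 ∨ dt x y z = -1) : IsCell 2 {x, y, z, y + z} := by
  classical
  have hne : dt x y z ≠ 0 := by rcases h with h | h <;> rw [h] <;> norm_num
  obtain ⟨g, h0, h1, h2⟩ := exists_frame hx hy hz h
  have e0 : sv g 0 = x := by unfold sv pac; rw [h0, nrm_of_pos hx]
  have e1 : sv g 1 = y := by unfold sv pac; rw [h1, nrm_of_pos hy]
  have e2 : sv g 2 = z := by unfold sv pac; rw [h2, nrm_of_pos hz]
  have e4 : sv g 4 = y + z := by
    unfold sv pac
    rw [s_four, ac_add, h1, h2, nrm_of_pos (hy.add hz)]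
  have i01 : x ≠ y := by rw [← e0, ← e1]; exact fun h => by simpa using sv_injective g h
  have i02 : x ≠ z := by rw [← e0, ← e2]; exact fun h => by simpa using sv_injective g h
  have i04 : x ≠ y + z := by rw [← e0, ← e4]; exact fun h => by simpa using sv_injective g h
  have i12 : y ≠ z := by rw [← e1, ← e2]; exact fun h => by simpa using sv_injective g h
  have i14 : y ≠ y + z := by
    rw [← e4]
    conv_lhs => rw [← e1]
    exact fun h => by simpa using sv_injective g h
  have i24 : z ≠ y + z := by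
    rw [← e4]
    conv_lhs => rw [← e2]
    exact fun h => by simpa using sv_injective g h
  refine ⟨⟨x, by simp, y, by simp, z, by simp, hne⟩, ⟨g, ?_⟩, ?_⟩
  · intro w hw
    simp only [Finset.mem_insert, Finset.mem_singleton] at hw
    rcases hw with h | h | h | h
    · rw [h, ← e0]; exact sv_mem_cfg g 0
    · rw [h, ← e1]; exact sv_mem_cfg g 1
    · rw [h, ← e2]; exact sv_mem_cfg g 2
    · rw [h, ← e4]; exact sv_mem_cfg g 4
  · rw [Finset.card_insert_of_notMem (by simp [i01, i02, i04]),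
      Finset.card_insert_of_notMem (by
        simp only [Finset.mem_insert, Finset.mem_singleton]
        rintro (h | h)
        · exact i12 h
        · exact i14 h), Finset.card_pair i24]

end Pool.Agent.H.MP_e5d137_al.G3
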