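import Pool.Agent.H.MP_e5d137_al.G3.Cells

/-!
# Exactness
-/

namespace Pool.Agent.H.MP_e5d137_al.G3

open Matrix Finsupp

lemma ex_single {i : ℕ} (M : Cell i) (k : ℤ) (N : Finset V) :
    ex (single M k) N = if N = M.1 then k else 0 := by
  by_cases h : N = M.1
  · subst h
    rw [ex_cell, Finsupp.single_eq_same, if_pos rfl]
  · rw [if_neg h]
    by_cases hN : IsCell i N
    · rw [ex_of_cell _ hN, Finsupp.single_apply, if_neg]
      intro h'
      exact h (congrArg Subtype.val h').symm
    · exact ex_of_not _ hN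

lemma dd_ex_single {i : ℕ} (M : Cell i) (k : ℤ) {N : Finset V} {x : V} (hx : x ∈ N)
    (h : N.erase x = M.1) : dd (ex (single M k)) N = sg x N * k := by
  unfold dd
  rw [Finset.sum_eq_single x]
  · rw [ex_single, if_pos h]
  · intro y hy hyx
    rw [ex_single, if_neg, mul_zero]
    intro h'
    have h1 : x ∈ N.erase y := Finset.mem_erase.2 ⟨hyx.symm, hx⟩
    rw [h', ← h] at h1
    exact absurd rfl (Finset.ne_of_mem_erase h1)
  · intro h'
    exact absurd hx h'

lemma dd_ex_single_zero {i : ℕ} (M : Cell i) (k : ℤ) {N : Finset V}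
    (h : ∀ x ∈ N, N.erase x ≠ M.1) : dd (ex (single M k)) N = 0 := by
  unfold dd
  refine Finset.sum_eq_zero (fun x hx => ?_)
  rw [ex_single, if_neg (h x hx), mul_zero]

lemma spans_cfg (g : GL3) : Spans (cfg g) := (spans_pos g).mono (by
  intro x hx
  obtain ⟨k, _, rfl⟩ := Finset.mem_image.1 hx
  exact sv_mem_cfg g k)

lemma isCell_cfg (g : GL3) : IsCell 0 (cfg g) := ⟨spans_cfg g, ⟨g, subset_rfl⟩, by rw [card_cfg]⟩

/-- a configuration as a cell -/
def cc (g : GL3) : Cell 0 := ⟨cfg g, isCell_cfg g⟩

lemma cell_zero (N : Cell 0) : ∃ g, N = cc g := by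
  obtain ⟨g, hg⟩ := N.2.2.1
  refine ⟨g, Subtype.ext (Finset.eq_of_subset_of_card_le hg ?_)⟩
  show (cfg g).card ≤ N.1.card
  rw [card_cfg]
  have := N.2.2.2
  omega

/-- the boundary of an edge consists of two configurations with opposite signs -/
lemma sum_bd_single (M : Cell 1) (k : ℤ) : (bdW 0 (single M k)).sum (fun _ n => n) = 0 := by
  classical
  obtain ⟨g0, hg0⟩ := M.2.2.1
  have hcard := M.2.2.2
  obtain ⟨x, hx⟩ : ∃ x, x ∈ cfg g0 \ M.1 := by
    by_contra hcon
    push Not at hcon
    have h1 : cfg g0 ⊆ M.1 := fun y hy => by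
      by_contra hy'
      exact hcon y (Finset.mem_sdiff.2 ⟨hy, hy'⟩)
    have h2 := Finset.card_le_card h1
    rw [card_cfg] at h2
    omega
  obtain ⟨hx1, hx2⟩ := Finset.mem_sdiff.1 hx
  obtain ⟨j, rfl⟩ := mem_cfg.1 hx1
  obtain ⟨g, h1, h2⟩ := exists_label g0 j
  rw [← h1] at hg0 hx1
  rw [← h2] at hx1 hx2
  have hM : M.1 = (cfg g).erase (sv g 0) := by
    apply Finset.eq_of_subset_of_card_le
    · intro y hy
      exact Finset.mem_erase.2 ⟨fun h => hx2 (h ▸ hy), hg0 hy⟩
    · rw [Finset.card_erase_of_mem hx1, card_cfg]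
      omega
  have hne : cc g ≠ cc (g * nb) := by
    intro h
    apply sv_zero_notMem_nb g
    have h' : cfg g = cfg (g * nb) := congrArg Subtype.val h
    rw [← h']
    exact hx1
  have hval1 : bdW 0 (single M k) (cc g) = (sg (sv g 0) (cfg g) * eps (cfg g)) * k := by
    rw [bdW_apply]
    show tw 0 (cfg g) * dd _ (cfg g) = _
    rw [dd_ex_single M k hx1 hM.symm, tw, if_pos rfl]
    ring
  have hval2 : bdW 0 (single M k) (cc (g * nb)) =
      (sg (sv (g * nb) 0) (cfg (g * nb)) * eps (cfg (g * nb))) * k := by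
    rw [bdW_apply]
    show tw 0 (cfg (g * nb)) * dd _ (cfg (g * nb)) = _
    rw [dd_ex_single M k (sv_mem_cfg (g * nb) 0) (by rw [hM, ← erase_eq]), tw, if_pos rfl]
    ring
  have hsub : (bdW 0 (single M k)).support ⊆ {cc g, cc (g * nb)} := by
    intro N hN
    rw [Finsupp.mem_support_iff, bdW_apply] at hN
    obtain ⟨w, rfl⟩ := cell_zero N
    by_contra hcon
    apply hN
    rw [dd_ex_single_zero, mul_zero]
    intro y _ h
    have h3 : (cfg g).erase (sv g 0) ⊆ cfg w := by
      rw [← hM, ← h]
      exact Finset.erase_subset _ _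
    apply hcon
    rw [Finset.mem_insert, Finset.mem_singleton]
    rcases two_cfg h3 with h4 | h4
    · exact Or.inl (Subtype.ext h4)
    · exact Or.inr (Subtype.ext h4)
  rw [Finsupp.sum_of_support_subset _ hsub _ (by simp), Finset.sum_pair hne, hval1, hval2,
    ← add_mul, flip_sign, zero_mul]

lemma sum_bdW (c : Cell 1 →₀ ℤ) : (bdW 0 c).sum (fun _ n => n) = 0 := by
  classical
  induction c using Finsupp.induction_linear with
  | zero => simp
  | add a b ha hb =>
    rw [map_add, Finsupp.sum_add_index (by simp) (by simp), ha, hb, add_zero]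
  | single M k => exact sum_bd_single M k

/-- the contraction -/
noncomputable def ctr (g : GL3) (d : V) (F : Finset V → ℤ) (N : Finset V) : ℤ := by
  classical
  exact if d ∉ N ∧ insert d N ⊆ cfg g ∧ cfg g \ N ⊆ Dn g then sg d (insert d N) * F (insert d N)
    else 0

lemma ctr_ne {g : GL3} {d : V} {F : Finset V → ℤ} {N : Finset V} (h : ctr g d F N ≠ 0) :
    d ∉ N ∧ insert d N ⊆ cfg g ∧ cfg g \ N ⊆ Dn g ∧ F (insert d N) ≠ 0 := by
  classical
  unfold ctr at h
  split_ifs at h with h1
  · exact ⟨h1.1, h1.2.1, h1.2.2, fun h' => h (by rw [h', mul_zero])⟩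
  · exact absurd rfl h

lemma ctr_eq {g : GL3} {d : V} {F : Finset V → ℤ} {N : Finset V}
    (h : d ∉ N ∧ insert d N ⊆ cfg g ∧ cfg g \ N ⊆ Dn g) :
    ctr g d F N = sg d (insert d N) * F (insert d N) := by
  classical
  unfold ctr
  rw [if_pos h]

lemma ctr_zero {g : GL3} {d : V} {F : Finset V → ℤ} {N : Finset V}
    (h : ¬ (d ∉ N ∧ insert d N ⊆ cfg g ∧ cfg g \ N ⊆ Dn g)) : ctr g d F N = 0 := by
  classical
  unfold ctr
  rw [if_neg h]

lemma reduce {i : ℕ} {g : GL3} {d : V} (F : Finset V → ℤ) (hd : d ∈ Dn g)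
    (hb : ∀ M, F M ≠ 0 → M ⊆ cfg g → cfg g \ M ⊆ Dn g)
    (hcyc : ∀ M, M ⊆ cfg g → M.card + i = 7 → dd F M = 0)
    {M : Finset V} (hM : M ⊆ cfg g) (hMD : cfg g \ M ⊆ Dn g) (hcard : M.card + i = 6) :
    dd (ctr g d F) M = F M := by
  classical
  have hdg : d ∈ cfg g := Dn_subset g hd
  by_cases hdM : d ∈ M
  · unfold dd
    rw [Finset.sum_eq_single d]
    · rw [ctr_eq, Finset.insert_erase hdM, ← mul_assoc, sg_sq, one_mul]
      refine ⟨Finset.notMem_erase d M, ?_, ?_⟩
      · rw [Finset.insert_erase hdM]; exact hM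
      · intro y hy
        obtain ⟨hy1, hy2⟩ := Finset.mem_sdiff.1 hy
        by_cases hyd : y = d
        · rw [hyd]; exact hd
        · exact hMD (Finset.mem_sdiff.2 ⟨hy1, fun h => hy2 (Finset.mem_erase.2 ⟨hyd, h⟩)⟩)
    · intro x hx hxd
      rw [ctr_zero, mul_zero]
      rintro ⟨h1, _⟩
      exact h1 (Finset.mem_erase.2 ⟨hxd.symm, hdM⟩)
    · intro h; exact absurd hdM h
  · set M' := insert d M with hM'
    have hM'g : M' ⊆ cfg g := Finset.insert_subset hdg hM
    have hdM' : d ∈ M' := Finset.mem_insert_self d M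
    have herase : M'.erase d = M := Finset.erase_insert hdM
    have hcardM' : M'.card + i = 7 := by
      rw [hM', Finset.card_insert_of_notMem hdM]
      omega
    have h0 := hcyc M' hM'g hcardM'
    unfold dd at h0
    rw [hM', Finset.sum_insert hdM, ← hM', herase] at h0
    have hterm : ∀ x ∈ M, sg x M * ctr g d F (M.erase x) =
        -(sg d M') * (sg x M' * F (M'.erase x)) := by
      intro x hx
      have hxd : x ≠ d := fun h => hdM (h ▸ hx)
      have hxM' : x ∈ M' := Finset.mem_insert_of_mem hx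
      have hins : insert d (M.erase x) = M'.erase x := by
        rw [hM', Finset.erase_insert_of_ne hxd.symm]
      by_cases hxD : x ∈ Dn g
      · rw [ctr_eq, hins]
        · have h1 := sg_anti hxM' hdM' (fun h => hxd (col_inj_of_mem (hM'g hxM') (hM'g hdM') h))
          rw [herase] at h1
          have h2 := sg_sq x M'
          have h3 := sg_sq x M
          have h4 : sg x M * sg d (M'.erase x) = -(sg d M' * sg x M') := by
            calc sg x M * sg d (M'.erase x)
                = (sg x M' * sg x M') * (sg x M * sg d (M'.erase x)) := by rw [h2, one_mul]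
              _ = sg x M' * sg x M * (sg x M' * sg d (M'.erase x)) := by ring
              _ = -(sg d M' * sg x M') * (sg x M * sg x M) := by rw [h1]; ring
              _ = -(sg d M' * sg x M') := by rw [h3, mul_one]
          calc sg x M * (sg d (M'.erase x) * F (M'.erase x))
              = (sg x M * sg d (M'.erase x)) * F (M'.erase x) := by ring
            _ = _ := by rw [h4]; ring
        · refine ⟨fun h => hdM (Finset.mem_of_mem_erase h), ?_, ?_⟩
          · rw [hins]; exact (Finset.erase_subset _ _).trans hM'g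
          · intro y hy
            obtain ⟨hy1, hy2⟩ := Finset.mem_sdiff.1 hy
            by_cases hyx : y = x
            · rw [hyx]; exact hxD
            · exact hMD (Finset.mem_sdiff.2 ⟨hy1, fun h => hy2 (Finset.mem_erase.2 ⟨hyx, h⟩)⟩)
      · rw [ctr_zero, mul_zero]
        · have : F (M'.erase x) = 0 := by
            by_contra hne
            apply hxD
            exact hb _ hne ((Finset.erase_subset _ _).trans hM'g)
              (Finset.mem_sdiff.2 ⟨hM hx, Finset.notMem_erase x M'⟩)
          rw [this]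
          ring
        · rintro ⟨_, _, h3⟩
          exact hxD (h3 (Finset.mem_sdiff.2 ⟨hM hx, Finset.notMem_erase x M⟩))
    unfold dd
    rw [Finset.sum_congr rfl hterm, ← Finset.mul_sum]
    have h1 : ∑ x ∈ M, sg x M' * F (M'.erase x) = -(sg d M' * F M) := by linarith
    rw [h1]
    have h2 := sg_sq d M'
    calc -(sg d M') * -(sg d M' * F M) = (sg d M' * sg d M') * F M := by ring
      _ = F M := by rw [h2, one_mul]

/-- typed chain from a function -/
noncomputable def mkc (i : ℕ) (b : Finset V → ℤ) (h : (Function.support b).Finite) :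
    Cell i →₀ ℤ :=
  Finsupp.ofSupportFinite (fun N => b N.1)
    (h.preimage (f := (Subtype.val : Cell i → Finset V)) Subtype.val_injective.injOn)

lemma ex_mkc (i : ℕ) (b : Finset V → ℤ) (h : (Function.support b).Finite)
    (hb : ∀ M, b M ≠ 0 → IsCell i M) : ex (mkc i b h) = b := by
  funext M
  by_cases hM : IsCell i M
  · rw [ex_of_cell _ hM]
    rfl
  · rw [ex_of_not _ hM]
    by_contra hne
    exact hM (hb M (Ne.symm hne))

/-- the cycle condition -/
def Cyc (i : ℕ) (c : Cell i →₀ ℤ) : Prop :=
  (∀ M : Finset V, (∃ g, M ⊆ cfg g) → M.card + i = 7 →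
    dd (fun N => tw i N * ex c N) M = 0) ∧ (i = 0 → c.sum (fun _ k => k) = 0)

lemma Cyc.sub {i : ℕ} {c c' : Cell i →₀ ℤ} (h : Cyc i c) (h' : Cyc i c') : Cyc i (c - c') := by
  refine ⟨fun M hM hc => ?_, fun hi => ?_⟩
  · have h1 := h.1 M hM hc
    have h2 := h'.1 M hM hc
    have h3 : dd (fun N => tw i N * ex (c - c') N) M =
        dd (fun N => tw i N * ex c N) M - dd (fun N => tw i N * ex c' N) M := by
      unfold dd
      rw [← Finset.sum_sub_distrib]
      refine Finset.sum_congr rfl (fun x _ => ?_)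
      have h4 := ex_add (c - c') c' (M.erase x)
      rw [sub_add_cancel] at h4
      simp only [h4]
      ring
    rw [h3, h1, h2, sub_zero]
  · rw [Finsupp.sum_sub_index (by intros; rfl), h.2 hi, h'.2 hi, sub_zero]

lemma cyc_bdW (i : ℕ) (b : Cell (i + 1) →₀ ℤ) : Cyc i (bdW i b) := by
  refine ⟨fun M hM hc => ?_, fun hi => ?_⟩
  · rcases i with _ | j
    · exfalso
      obtain ⟨g, hg⟩ := hM
      have := Finset.card_le_card hg
      rw [card_cfg] at this
      omega
    · obtain ⟨g, hg⟩ := hM
      have h1 : dd (fun N => tw (j + 1) N * ex (bdW (j + 1) b) N) M = dd (dd (ex b)) M := by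
        unfold dd
        refine Finset.sum_congr rfl (fun x hx => ?_)
        congr 1
        have h2 := Finset.card_erase_of_mem hx
        have h3 : 0 < M.card := Finset.card_pos.2 ⟨x, hx⟩
        show tw (j + 1) (M.erase x) * ex (bdW (j + 1) b) (M.erase x) = dd (ex b) (M.erase x)
        rw [ex_bdW j b ⟨g, (Finset.erase_subset _ _).trans hg⟩ (by omega)]
        simp [tw]
      rw [h1]
      exact dd_dd _ (fun x hx y hy h => col_inj_of_mem (hg hx) (hg hy) h)
  · subst hi
    exact sum_bdW b

theorem exact_ind (i : ℕ) : ∀ (n : ℕ) (T : ℝ), (Low T).ncard ≤ n → ∀ c : Cell i →₀ ℤ,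
    (∀ N ∈ c.support, ∀ w, IsTop N.1 w → ht w < T) → Cyc i c → ∃ b, bdW i b = c := by
  classical
  intro n
  induction n with
  | zero =>
    intro T hT c hc _
    have h1 : Low T = ∅ := (Set.ncard_eq_zero (low_finite T)).1 (Nat.le_zero.1 hT)
    have h2 : c = 0 := by
      rw [← Finsupp.support_eq_empty, Finset.eq_empty_iff_forall_notMem]
      intro N hN
      obtain ⟨g, hg⟩ := N.2.2.1
      obtain ⟨w, hw⟩ := exists_top N.2.1 hg
      have h3 : cfg w ∈ Low T := ⟨w, rfl, hc N hN w hw⟩
      rw [h1] at h3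
      exact h3
    exact ⟨0, by rw [h2, map_zero]⟩
  | succ n ih =>
    intro T hT c hc hcyc
    by_cases hne : (Low T).Nonempty
    swap
    · exact ih T (by rw [Set.not_nonempty_iff_eq_empty.1 hne, Set.ncard_empty]; omega) c hc hcyc
    obtain ⟨v, ⟨g, rfl, hgT⟩, hmax⟩ := Set.exists_max_image (Low T) hts (low_finite T) hne
    have hmax' : ∀ w, ht w < T → ht w ≤ ht g := by
      intro w hw
      have := hmax (cfg w) ⟨w, rfl, hw⟩
      rwa [hts_cfg, hts_cfg] at this
    have htop : ∀ N ∈ c.support, ∀ w, IsTop N.1 w → ht w ≤ ht g :=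
      fun N hN w hw => hmax' w (hc N hN w hw)
    set F : Finset V → ℤ := fun M => tw i M * ex c M with hF
    have hFne : ∀ M, F M ≠ 0 → ∃ h : IsCell i M, (⟨M, h⟩ : Cell i) ∈ c.support := by
      intro M hM
      have h1 : ex c M ≠ 0 := fun h => hM (by simp only [hF, h, mul_zero])
      have h2 := isCell_of_ex h1
      refine ⟨h2, ?_⟩
      rw [Finsupp.mem_support_iff, ← ex_of_cell c h2]
      exact h1
    have hb : ∀ M, F M ≠ 0 → M ⊆ cfg g → cfg g \ M ⊆ Dn g := by
      intro M hM hMg
      obtain ⟨h1, h2⟩ := hFne M hM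
      obtain ⟨w, hw⟩ := exists_top h1.1 hMg
      have h3 := htop _ h2 w hw
      have h4 : IsTop M g := ⟨hMg, fun w' hw' => (hw.2 w' hw').trans h3⟩
      exact h4.sdiff
    rcases (Dn g).eq_empty_or_nonempty with hD | ⟨d, hd⟩
    · have hsup : ∀ N ∈ c.support, N.1 = cfg g := by
        intro N hN
        obtain ⟨w0, hw0⟩ := N.2.2.1
        obtain ⟨w, hw⟩ := exists_top N.2.1 hw0
        have h1 : cfg w = cfg g := cfg_eq_of_ht (le_antisymm (htop N hN w hw) (min_of_empty hD w))
        have h2 : IsTop N.1 g := by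
          refine ⟨h1 ▸ hw.1, fun w' hw' => ?_⟩
          rw [← ht_congr h1]
          exact hw.2 w' hw'
        have h3 := h2.sdiff
        rw [hD] at h3
        apply Finset.Subset.antisymm h2.1
        intro y hy
        by_contra hy'
        have := h3 (Finset.mem_sdiff.2 ⟨hy, hy'⟩)
        simp at this
      have hc0 : c = 0 := by
        by_cases hi : i = 0
        · subst hi
          have h1 : c.support ⊆ {cc g} := by
            intro N hN
            rw [Finset.mem_singleton]
            exact Subtype.ext (hsup N hN)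
          have h2 := hcyc.2 rfl
          rw [Finsupp.sum_of_support_subset _ h1 _ (by simp), Finset.sum_singleton] at h2
          ext N
          by_cases hN : N ∈ c.support
          · have := Finset.mem_singleton.1 (h1 hN)
            rw [this, h2]
            rfl
          · rw [Finsupp.notMem_support_iff.1 hN]
            rfl
        · rw [← Finsupp.support_eq_empty, Finset.eq_empty_iff_forall_notMem]
          intro N hN
          have h1 := N.2.2.2
          rw [hsup N hN, card_cfg] at h1
          omega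
      exact ⟨0, by rw [hc0, map_zero]⟩
    · set β : Finset V → ℤ := ctr g d F with hβ
      have hβfin : (Function.support β).Finite := by
        refine ((cfg g).powerset.finite_toSet).subset (fun N hN => ?_)
        rw [Finset.mem_coe, Finset.mem_powerset]
        have h1 := ctr_ne (F := F) hN
        exact (Finset.subset_insert _ _).trans h1.2.1
      have hβcell : ∀ N, β N ≠ 0 → IsCell (i + 1) N := by
        intro N hN
        obtain ⟨h1, h2, h3, h4⟩ := ctr_ne (F := F) hN
        obtain ⟨h5, _⟩ := hFne _ h4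
        refine ⟨spans_of_sdiff h3, ⟨g, (Finset.subset_insert _ _).trans h2⟩, ?_⟩
        have h6 := h5.2.2
        rw [Finset.card_insert_of_notMem h1] at h6
        omega
      set b := mkc (i + 1) β hβfin with hbdef
      have hexb : ex b = β := ex_mkc (i + 1) β hβfin hβcell
      have hlow : (Low (ht g)).ncard ≤ n := by
        have h1 : Low (ht g) ⊂ Low T := by
          refine ⟨?_, ?_⟩
          · rintro v ⟨w, rfl, hw⟩
            exact ⟨w, rfl, hw.trans hgT⟩
          · intro h
            obtain ⟨w, hw1, hw2⟩ := h ⟨g, rfl, hgT⟩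
            rw [ht_congr hw1] at hw2
            exact lt_irrefl _ hw2
        have h2 := Set.ncard_lt_ncard h1 (low_finite T)
        omega
      obtain ⟨b', hb'⟩ := ih (ht g) hlow (c - bdW i b) (by
        intro N hN w hw
        rw [Finsupp.mem_support_iff, Finsupp.sub_apply, bdW_apply, hexb] at hN
        have hle : ht w ≤ ht g := by
          by_cases hcN : c N = 0
          · rw [hcN, zero_sub] at hN
            have h1 : dd β N.1 ≠ 0 := fun h => hN (by rw [h, mul_zero, neg_zero])
            obtain ⟨x, hx, h2⟩ := Finset.exists_ne_zero_of_sum_ne_zero h1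
            have h3 : β (N.1.erase x) ≠ 0 := fun h => h2 (by rw [h, mul_zero])
            obtain ⟨_, h4, h5, _⟩ := ctr_ne (F := F) h3
            exact (ht_le_of_top h5 ((Finset.erase_subset _ _).trans hw.1)).1
          · exact htop N (Finsupp.mem_support_iff.2 hcN) w hw
        rcases hle.lt_or_eq with h | h
        · exact h
        · exfalso
          apply hN
          have h1 : cfg w = cfg g := cfg_eq_of_ht h
          have h2 : IsTop N.1 g := by
            refine ⟨h1 ▸ hw.1, fun w' hw' => ?_⟩
            rw [← h]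
            exact hw.2 w' hw'
          rw [hβ, reduce F hd hb (fun M hM hMc => hcyc.1 M ⟨g, hM⟩ hMc) h2.1 h2.sdiff N.2.2.2]
          simp only [hF]
          rw [ex_cell, ← mul_assoc, tw_sq, one_mul, sub_self]) (hcyc.sub (cyc_bdW i b))
      exact ⟨b + b', by rw [map_add, hb', add_sub_cancel]⟩

theorem exact_cyc (i : ℕ) (c : Cell i →₀ ℤ) (h : Cyc i c) : ∃ b, bdW i b = c := by
  classical
  have h1 : ∀ N : Cell i, ∃ B : ℝ, ∀ g, N.1 ⊆ cfg g → ht g < B := fun N => ht_bound N.2.1
  choose B hB using h1
  obtain ⟨T, hT⟩ : ∃ T : ℝ, ∀ N ∈ c.support, B N ≤ T := by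
    refine ⟨∑ N ∈ c.support, |B N|, fun N hN => ?_⟩
    exact (le_abs_self _).trans (Finset.single_le_sum (f := fun N => |B N|)
      (fun _ _ => abs_nonneg _) hN)
  exact exact_ind i _ T le_rfl c (fun N hN w hw => (hB N w hw.1).trans_le (hT N hN)) h

end Pool.Agent.H.MP_e5d137_al.G3
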