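import Pool.Agent.H.MP_e5d137_al.G3.MassIneq
import Pool.Agent.H.MP_e5d137_al.G3.CmpK

/-!
# Upper bounds for the isoperimetric functions of `GL(3,ℤ)`
-/

namespace Pool.Agent.H.MP_e5d137_al

open G3
open scoped ENNReal

/-- The function `L ↦ L^{4/3}`. -/
noncomputable def pow43 (L : ℕ) : ℝ≥0∞ := ENNReal.ofReal ((L : ℝ) ^ ((4 : ℝ) / 3))

lemma pow43_mono {a b : ℕ} (h : a ≤ b) : pow43 a ≤ pow43 b := by
  unfold pow43
  apply ENNReal.ofReal_le_ofReal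
  exact Real.rpow_le_rpow (Nat.cast_nonneg _) (by exact_mod_cast h) (by norm_num)

lemma W_iso_le : ∃ C : ℕ, ∀ n : ℕ, ((W.iso 2 n : ℕ∞) : ℝ≥0∞) ≤ C * pow43 n := by
  obtain ⟨C, hC⟩ := exists_nat_ge (20 * Z * Z)
  refine ⟨C, fun n => ?_⟩
  set m : ℕ := ⌊(C : ℝ) * (n : ℝ) ^ ((4 : ℝ) / 3)⌋₊ with hm
  have h1 : W.iso 2 n ≤ (m : ℕ∞) := by
    refine iSup₂_le (fun z hz => iSup_le (fun hzn => ?_))
    obtain ⟨c, rfl⟩ := hz
    refine (fillVol_le W 2 c).trans ?_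
    have h2 : mass c ≤ m := by
      rw [hm, Nat.le_floor_iff (by positivity)]
      have h3 := mass_ineq c
      have h4 : (mass (bdW 2 c) : ℝ) ≤ n := by exact_mod_cast hzn
      refine h3.trans ?_
      have h5 : (mass (bdW 2 c) : ℝ) ^ ((4 : ℝ) / 3) ≤ (n : ℝ) ^ ((4 : ℝ) / 3) :=
        Real.rpow_le_rpow (Nat.cast_nonneg _) h4 (by norm_num)
      exact mul_le_mul hC h5 (by positivity) (Nat.cast_nonneg _)
    exact_mod_cast h2
  calc ((W.iso 2 n : ℕ∞) : ℝ≥0∞) ≤ ((m : ℕ∞) : ℝ≥0∞) := ENat.toENNReal_le.2 h1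
    _ = (m : ℝ≥0∞) := by simp
    _ ≤ C * pow43 n := by
      unfold pow43
      rw [← ENNReal.ofReal_natCast C, ← ENNReal.ofReal_mul (Nat.cast_nonneg _),
        ← ENNReal.ofReal_natCast m]
      exact ENNReal.ofReal_le_ofReal (Nat.floor_le (by positivity))

lemma W_iso_high {m : ℕ} (hm : 3 ≤ m) (n : ℕ) : W.iso m n = 0 := by
  have h1 : W.iso m n ≤ 0 := by
    refine iSup₂_le (fun z hz => iSup_le (fun _ => ?_))
    obtain ⟨c, rfl⟩ := hz
    refine (fillVol_le W m c).trans ?_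
    have hc : c = 0 := by
      ext x
      exact ((cell_high (by omega : 4 ≤ m + 1)).false x).elim
    rw [hc]
    simp
  exact le_antisymm h1 zero_le

lemma cast_bound {a b : ℕ∞} {C n : ℕ} (h : a ≤ C * b + C * n) :
    (a : ℝ≥0∞) ≤ C * (b : ℝ≥0∞) + C * n := by
  have h1 := ENat.toENNReal_le.2 h
  simpa using h1

/-- upper bound, `m = 2` -/
theorem upper_two (K : GComplex GL3) (hK : K.FiniteTo 3) :
    Dominated (fun L => (K.iso 2 L : ℝ≥0∞)) pow43 := by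
  obtain ⟨C, hC⟩ := iso_compare (K.res G3') W 2 (by norm_num) (res_finite K G3' 3 hK) (W_finite 3)
  obtain ⟨C', hC'⟩ := W_iso_le
  refine ⟨C * C' + C + 1, by positivity, fun n => ?_⟩
  have h1 : (K.iso 2 n : ℝ≥0∞) ≤ C * ((W.iso 2 (C * n) : ℕ∞) : ℝ≥0∞) + C * n :=
    cast_bound (hC n)
  refine h1.trans ?_
  set D : ℕ := C * C' + C + 1 with hD
  have h2 : (C : ℝ≥0∞) * ((W.iso 2 (C * n) : ℕ∞) : ℝ≥0∞) ≤ D * pow43 (D * n + D) := by
    calc (C : ℝ≥0∞) * ((W.iso 2 (C * n) : ℕ∞) : ℝ≥0∞) ≤ C * (C' * pow43 (C * n)) := by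
          gcongr
          exact hC' _
      _ = ((C * C' : ℕ) : ℝ≥0∞) * pow43 (C * n) := by push_cast; ring
      _ ≤ D * pow43 (D * n + D) := by
          gcongr
          · omega
          · exact pow43_mono ((Nat.mul_le_mul_right n (show C ≤ D by omega)).trans
              (Nat.le_add_right _ _))
  have h3 : (C : ℝ≥0∞) * n ≤ D * n := by
    gcongr
    omega
  calc (C : ℝ≥0∞) * ((W.iso 2 (C * n) : ℕ∞) : ℝ≥0∞) + C * n
      ≤ D * pow43 (D * n + D) + D * n := add_le_add h2 h3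
    _ ≤ D * pow43 (D * n + D) + D * n + D := le_self_add

/-- linear fillings above the dimension of the retract -/
theorem upper_high (K : GComplex GL3) (m : ℕ) (hm : 3 ≤ m) (hK : K.FiniteTo (m + 1)) :
    Dominated (fun L => (K.iso m L : ℝ≥0∞)) (fun _ => 0) := by
  obtain ⟨C, hC⟩ := iso_compare (K.res G3') W m (by omega) (res_finite K G3' (m + 1) hK)
    (W_finite (m + 1))
  refine ⟨C + 1, by positivity, fun n => ?_⟩
  have h1 : (K.iso m n : ℝ≥0∞) ≤ C * ((W.iso m (C * n) : ℕ∞) : ℝ≥0∞) + C * n :=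
    cast_bound (hC n)
  rw [W_iso_high hm] at h1
  refine h1.trans ?_
  simp only [ENat.toENNReal_zero, mul_zero, zero_add]
  calc (C : ℝ≥0∞) * n ≤ ((C + 1 : ℕ) : ℝ≥0∞) * n := by
        gcongr
        omega
    _ ≤ ((C + 1 : ℕ) : ℝ≥0∞) * n + ((C + 1 : ℕ) : ℝ≥0∞) := le_self_add

end Pool.Agent.H.MP_e5d137_al
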