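import Pool.Agent.H.MP_e5d137_al.G3.Low2

/-!
# The mass of the boundary of a box
-/

namespace Pool.Agent.H.MP_e5d137_al.G3

open Matrix Finsupp

/-- the possible fourth vectors -/
def wv (q : (ℤ × ℤ × ℤ) × (ℤ × ℤ × ℤ)) : V :=
  q.2.1 • va + q.2.2.1 • vb q.1.1 + q.2.2.2 • vc q.1.2.1 q.1.2.2

lemma unit_of {g : GL3} {x y z : V} (hx : x ∈ cfg g) (hy : y ∈ cfg g) (hz : z ∈ cfg g) :
    dt x y z = 0 ∨ dt x y z = 1 ∨ dt x y z = -1 := by
  by_cases h : dt x y z = 0
  · exact Or.inl h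
  · exact Or.inr (dt_cfg hx hy hz h)

lemma mem_tri {n : ℤ} (h : n = 0 ∨ n = 1 ∨ n = -1) : -n ∈ ({-1, 0, 1} : Finset ℤ) := by
  rcases h with h | h | h <;> subst h <;> decide

lemma mem_DD {r : ℕ} {s u t : ℤ} (hp : (s, u, t) ∈ Bx r)
    (hd : s = 0 ∨ s = r - 1 ∨ u = 0 ∨ u = r - 1 ∨ t < r ∨ (r : ℤ) ^ 2 - r ≤ t) :
    (s, u, t) ∈ DD r := by
  obtain ⟨⟨s0, s1⟩, ⟨u0, u1⟩, ⟨t0, t1⟩⟩ := mem_Bx.1 hp
  simp only at s0 s1 u0 u1 t0 t1
  simp only [DD, Finset.mem_union, Finset.mem_product, Finset.mem_Ico, Finset.mem_insert,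
    Finset.mem_singleton]
  generalize (r : ℤ) ^ 2 = RR at *
  omega

set_option maxHeartbeats 1000000 in
/-- vectors completing an adapted frame to a cell with a coefficient -/
lemma supp_aux (r : ℕ) (N : Cell 2) (h : dd (phi r) N.1 ≠ 0) :
    ∃ q ∈ DD r ×ˢ (({-1, 0, 1} : Finset ℤ) ×ˢ (({-1, 0, 1} : Finset ℤ) ×ˢ
      ({-1, 0, 1} : Finset ℤ))), N.1 = insert (wv q) (Fr q.1) := by
  classical
  obtain ⟨x, hx, h1⟩ := Finset.exists_ne_zero_of_sum_ne_zero h
  have h2 : phi r (N.1.erase x) ≠ 0 := fun h' => h1 (by rw [h', mul_zero])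
  obtain ⟨⟨s, u, t⟩, hp, hFr⟩ := phi_ne h2
  have hNins : N.1 = insert x (Fr (s, u, t)) := by rw [hFr, Finset.insert_erase hx]
  have hxF : x ∉ Fr (s, u, t) := by rw [hFr]; exact Finset.notMem_erase x N.1
  obtain ⟨g, hg⟩ := N.2.2.1
  have ma : va ∈ N.1 := by rw [hNins]; simp [Fr]
  have mb : vb s ∈ N.1 := by rw [hNins]; simp [Fr]
  have mc : vc u t ∈ N.1 := by rw [hNins]; simp [Fr]
  have hα := unit_of (hg hx) (hg mb) (hg mc)
  have hβ := unit_of (hg ma) (hg hx) (hg mc)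
  have hγ := unit_of (hg ma) (hg mb) (hg hx)
  obtain ⟨α, hαe⟩ : ∃ α, α = -dt x (vb s) (vc u t) := ⟨_, rfl⟩
  obtain ⟨β, hβe⟩ : ∃ β, β = -dt va x (vc u t) := ⟨_, rfl⟩
  obtain ⟨γ, hγe⟩ : ∃ γ, γ = -dt va (vb s) x := ⟨_, rfl⟩
  have hw : x = α • va + β • vb s + γ • vc u t := by
    have h3 := cramer va (vb s) (vc u t) x
    rw [dt_frame, neg_one_smul] at h3
    rw [hαe, hβe, hγe, neg_smul, neg_smul, neg_smul, ← neg_add, ← neg_add, ← h3, neg_neg]
  have mα : α ∈ ({-1, 0, 1} : Finset ℤ) := by rw [hαe]; exact mem_tri hα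
  have mβ : β ∈ ({-1, 0, 1} : Finset ℤ) := by rw [hβe]; exact mem_tri hβ
  have mγ : γ ∈ ({-1, 0, 1} : Finset ℤ) := by rw [hγe]; exact mem_tri hγ
  refine ⟨((s, u, t), (α, β, γ)), ?_, ?_⟩
  swap
  · rw [hNins, hw]
    rfl
  refine Finset.mem_product.2 ⟨?_, Finset.mem_product.2 ⟨mα, Finset.mem_product.2 ⟨mβ, mγ⟩⟩⟩
  show (s, u, t) ∈ DD r
  have hpos : Pos x := N.2.pos hx
  have x0 : x 0 = γ := by rw [hw]; simp [va, vb, vc]
  have x1 : x 1 = β + γ * u := by rw [hw]; simp [va, vb, vc]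
  have x2 : x 2 = α + β * s + γ * t := by rw [hw]; simp [va, vb, vc]
  obtain ⟨⟨s0, s1⟩, ⟨u0, u1⟩, ⟨t0, t1⟩⟩ := mem_Bx.1 hp
  simp only at s0 s1 u0 u1 t0 t1
  have hα' : α = -1 ∨ α = 0 ∨ α = 1 := by simpa using mα
  have hβ' : β = -1 ∨ β = 0 ∨ β = 1 := by simpa using mβ
  have hγ' : γ = -1 ∨ γ = 0 ∨ γ = 1 := by simpa using mγ
  unfold Pos at hpos
  rw [x0, x1, x2] at hpos
  have hDD : (s = 0 ∨ s = r - 1 ∨ u = 0 ∨ u = r - 1 ∨ t < r ∨ (r : ℤ) ^ 2 - r ≤ t) →
      (s, u, t) ∈ DD r := mem_DD hp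
  rcases hγ' with hγ1 | hγ1 | hγ1
  · exfalso
    rw [hγ1] at hpos
    omega
  · -- the fourth vector lies in the plane
    rw [hγ1] at hpos x0 x1 x2
    simp only [zero_mul, add_zero] at hpos x1 x2
    rcases hβ' with hβ1 | hβ1 | hβ1
    · exfalso
      rw [hβ1] at hpos
      omega
    · exfalso
      rw [hβ1] at hpos x1 x2
      have hα1 : α = 1 := by
        simp only [zero_mul, add_zero] at hpos
        omega
      apply hxF
      have : x = va := by
        apply v_ext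
        · rw [x0]; simp [va]
        · rw [x1]; simp [va]
        · rw [x2, hα1]; simp [va]
      rw [this]
      simp [Fr]
    · have hxb : x = vb (s + α) := by
        apply v_ext
        · rw [x0]; simp [vb]
        · rw [x1, hβ1]; simp [vb]
        · rw [x2, hβ1]; simp [vb]; ring
      have hα0 : α ≠ 0 := by
        intro h0
        rw [h0, add_zero] at hxb
        apply hxF
        rw [hxb]
        simp [Fr]
      have hset : N.1 = {va, vb s, vb (s + α), vc u t} := by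
        rw [hNins, hxb]
        unfold Fr
        rw [← q13]
      by_contra hcon
      apply h
      rw [hset]
      refine cancel1 (by omega) (by rw [← hset]; exact N.2) hp ?_
      rw [mem_Bx]
      have h5 : ¬ (s = 0 ∨ s = r - 1) := fun h6 => hcon (hDD (by omega))
      refine ⟨⟨?_, ?_⟩, ⟨u0, u1⟩, ⟨t0, t1⟩⟩
      · show 0 ≤ s + α
        omega
      · show s + α < r
        omega
  · -- the fourth vector has first coordinate one
    rw [hγ1] at x0 x1 x2
    simp only [one_mul] at x1 x2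
    have hxc : x = vc (u + β) (t + α + β * s) := by
      apply v_ext
      · rw [x0]; simp [vc]
      · rw [x1]; simp [vc]; ring
      · rw [x2]; simp [vc]; ring
    have hne : (u, t) ≠ (u + β, t + α + β * s) := by
      intro h0
      obtain ⟨e1, e2⟩ := Prod.ext_iff.1 h0
      simp only at e1 e2
      rw [← e1, ← e2] at hxc
      apply hxF
      rw [hxc]
      simp [Fr]
    have hset : N.1 = {va, vb s, vc u t, vc (u + β) (t + α + β * s)} := by
      rw [hNins, hxc]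
      unfold Fr
      rw [← q14]
    by_contra hcon
    apply h
    rw [hset]
    refine cancel2 hne (by rw [← hset]; exact N.2) hp ?_
    rw [mem_Bx]
    have h5 : ¬ (u = 0 ∨ u = r - 1) := fun h6 => hcon (hDD (by omega))
    have h6 : ¬ (t < r ∨ (r : ℤ) ^ 2 - r ≤ t) := fun h6 => hcon (hDD
      (Or.inr (Or.inr (Or.inr (Or.inr h6)))))
    push Not at h6
    obtain ⟨h7, h8⟩ := h6
    generalize (r : ℤ) ^ 2 = RR at t1 h8 ⊢
    refine ⟨⟨s0, s1⟩, ⟨?_, ?_⟩, ⟨?_, ?_⟩⟩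
    · show 0 ≤ u + β
      omega
    · show u + β < r
      omega
    · show 0 ≤ t + α + β * s
      rcases hβ' with hb | hb | hb <;> rw [hb] <;> omega
    · show t + α + β * s < RR
      rcases hβ' with hb | hb | hb <;> rw [hb] <;> omega

lemma dd_phi_abs (r : ℕ) (N : Cell 2) : (dd (phi r) N.1).natAbs ≤ 4 := by
  have hc : N.1.card = 4 := by
    have := N.2.2.2
    omega
  unfold dd
  calc (∑ x ∈ N.1, sg x N.1 * phi r (N.1.erase x)).natAbs
      ≤ ∑ x ∈ N.1, (sg x N.1 * phi r (N.1.erase x)).natAbs := Int.natAbs_sum_le _ _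
    _ ≤ ∑ x ∈ N.1, 1 := by
        apply Finset.sum_le_sum
        intro x _
        rw [Int.natAbs_mul, sg_abs, one_mul]
        exact phi_abs r _
    _ = 4 := by rw [Finset.sum_const, smul_eq_mul, mul_one, hc]

theorem mass_bd_ch (r : ℕ) : mass (bdW 2 (ch r)) ≤ 648 * r ^ 3 := by
  classical
  set T3 : Finset ℤ := {-1, 0, 1} with hT3
  have hT3c : T3.card = 3 := by rw [hT3]; decide
  have hval : ∀ N : Cell 2, (bdW 2 (ch r) N).natAbs = (dd (phi r) N.1).natAbs := by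
    intro N
    rw [bdW_apply, ex_ch, Int.natAbs_mul, tw_abs, one_mul]
  have hsupp : (bdW 2 (ch r)).support.image Subtype.val ⊆
      (DD r ×ˢ (T3 ×ˢ (T3 ×ˢ T3))).image (fun q => insert (wv q) (Fr q.1)) := by
    intro M hM
    obtain ⟨N, hN, rfl⟩ := Finset.mem_image.1 hM
    have h1 : dd (phi r) N.1 ≠ 0 := by
      intro h
      have h2 := hval N
      rw [h] at h2
      exact Finsupp.mem_support_iff.1 hN (Int.natAbs_eq_zero.1 h2)
    obtain ⟨q, hq, h2⟩ := supp_aux r N h1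
    exact Finset.mem_image.2 ⟨q, hq, h2.symm⟩
  have hcard : (bdW 2 (ch r)).support.card ≤ 162 * r ^ 3 := by
    calc (bdW 2 (ch r)).support.card = ((bdW 2 (ch r)).support.image Subtype.val).card :=
          (Finset.card_image_of_injective _ Subtype.val_injective).symm
      _ ≤ ((DD r ×ˢ (T3 ×ˢ (T3 ×ˢ T3))).image (fun q => insert (wv q) (Fr q.1))).card :=
          Finset.card_le_card hsupp
      _ ≤ (DD r ×ˢ (T3 ×ˢ (T3 ×ˢ T3))).card := Finset.card_image_le
      _ = (DD r).card * 27 := by simp only [Finset.card_product, hT3c]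
      _ ≤ (6 * r ^ 3) * 27 := Nat.mul_le_mul_right _ (card_DD r)
      _ = 162 * r ^ 3 := by ring
  calc mass (bdW 2 (ch r)) = ∑ N ∈ (bdW 2 (ch r)).support, (bdW 2 (ch r) N).natAbs := rfl
    _ ≤ ∑ N ∈ (bdW 2 (ch r)).support, 4 := by
        apply Finset.sum_le_sum
        intro N _
        rw [hval]
        exact dd_phi_abs r N
    _ = (bdW 2 (ch r)).support.card * 4 := by rw [Finset.sum_const, smul_eq_mul]
    _ ≤ (162 * r ^ 3) * 4 := Nat.mul_le_mul_right _ hcard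
    _ = 648 * r ^ 3 := by ring

end Pool.Agent.H.MP_e5d137_al.G3
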