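import Pool.Agent.H.MP_e5d137_al.G3.Fin1
import Pool.Agent.H.MP_e5d137_al.G3.Low3

/-!
# The lower bound
-/

namespace Pool.Agent.H.MP_e5d137_al

open G3
open scoped ENNReal

lemma fill_ch (r : ℕ) : (r ^ 4 : ℕ) ≤ W.fillVol 2 (bdW 2 (ch r)) := by
  refine le_iInf₂ (fun c hc => ?_)
  have h1 : c = ch r := bdW_inj c (ch r) hc
  rw [h1]
  exact_mod_cast mass_ch r

lemma iso_ch (r : ℕ) : ((r ^ 4 : ℕ) : ℕ∞) ≤ W.iso 2 (648 * r ^ 3) :=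
  (fill_ch r).trans (le_iso W 2 ⟨ch r, rfl⟩ (mass_bd_ch r))

lemma W_low (n : ℕ) : pow43 n ≤ ((W.iso 2 (5184 * n) : ℕ∞) : ℝ≥0∞) := by
  rcases Nat.eq_zero_or_pos n with rfl | hn
  · unfold pow43
    simp
  set x : ℝ := (n : ℝ) ^ ((1 : ℝ) / 3) with hx
  have hn1 : (1 : ℝ) ≤ n := by exact_mod_cast hn
  have hx1 : 1 ≤ x := Real.one_le_rpow hn1 (by norm_num)
  set r : ℕ := ⌈x⌉₊ with hr
  have hr1 : x ≤ r := Nat.le_ceil x
  have hr2 : (r : ℝ) < x + 1 := Nat.ceil_lt_add_one (by linarith)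
  have hx3 : x ^ 3 = n := by
    rw [hx, ← Real.rpow_natCast, ← Real.rpow_mul (by positivity)]
    norm_num
  have hx4 : (n : ℝ) ^ ((4 : ℝ) / 3) = x ^ 4 := by
    rw [hx, ← Real.rpow_natCast, ← Real.rpow_mul (by positivity)]
    norm_num
  have h3 : 648 * r ^ 3 ≤ 5184 * n := by
    have h0 : (r : ℝ) ^ 3 ≤ (2 * x) ^ 3 := pow_le_pow_left₀ (Nat.cast_nonneg _) (by linarith) 3
    have h00 : (2 * x) ^ 3 = 8 * (n : ℝ) := by rw [mul_pow, hx3]; norm_num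
    have h000 : (r : ℝ) ^ 3 ≤ 8 * (n : ℝ) := by rw [← h00]; exact h0
    have h0000 : r ^ 3 ≤ 8 * n := by exact_mod_cast h000
    omega
  have h4 : ((r ^ 4 : ℕ) : ℕ∞) ≤ W.iso 2 (5184 * n) := (iso_ch r).trans (iso_mono W 2 h3)
  have h5 := ENat.toENNReal_le.2 h4
  refine le_trans ?_ h5
  unfold pow43
  rw [hx4]
  have h6 : x ^ 4 ≤ ((r ^ 4 : ℕ) : ℝ) := by
    push_cast
    gcongr
  calc ENNReal.ofReal (x ^ 4) ≤ ENNReal.ofReal ((r ^ 4 : ℕ) : ℝ) := ENNReal.ofReal_le_ofReal h6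
    _ = ((r ^ 4 : ℕ) : ℝ≥0∞) := ENNReal.ofReal_natCast _
    _ = (((r ^ 4 : ℕ) : ℕ∞) : ℝ≥0∞) := by simp
    _ ≤ _ := le_rfl

/-- lower bound, `m = 2` -/
theorem lower_two (K : GComplex GL3) (hK : K.FiniteTo 3) :
    Dominated pow43 (fun L => (K.iso 2 L : ℝ≥0∞)) := by
  obtain ⟨C, hC⟩ := iso_compare W (K.res G3') 2 (by norm_num) (W_finite 3) (res_finite K G3' 3 hK)
  refine ⟨C * 5184 + C + 1, by positivity, fun n => ?_⟩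
  have h1 : ((W.iso 2 (5184 * n) : ℕ∞) : ℝ≥0∞) ≤
      C * ((K.iso 2 (C * (5184 * n)) : ℕ∞) : ℝ≥0∞) + C * ((5184 * n : ℕ) : ℝ≥0∞) :=
    cast_bound (hC (5184 * n))
  refine (W_low n).trans (h1.trans ?_)
  set D : ℕ := C * 5184 + C + 1 with hD
  have hle : C * (5184 * n) ≤ D * n + D := by
    rw [← mul_assoc]
    exact (Nat.mul_le_mul_right n (show C * 5184 ≤ D by omega)).trans (Nat.le_add_right _ _)
  have h2 : (C : ℝ≥0∞) * ((K.iso 2 (C * (5184 * n)) : ℕ∞) : ℝ≥0∞) ≤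
      D * ((K.iso 2 (D * n + D) : ℕ∞) : ℝ≥0∞) := by
    gcongr
    · omega
    · exact iso_mono K 2 hle
  have h3 : (C : ℝ≥0∞) * ((5184 * n : ℕ) : ℝ≥0∞) ≤ D * n := by
    have : C * (5184 * n) ≤ D * n := by
      rw [← mul_assoc]
      exact Nat.mul_le_mul_right n (show C * 5184 ≤ D by omega)
    exact_mod_cast this
  calc (C : ℝ≥0∞) * ((K.iso 2 (C * (5184 * n)) : ℕ∞) : ℝ≥0∞) + C * ((5184 * n : ℕ) : ℝ≥0∞)
      ≤ D * ((K.iso 2 (D * n + D) : ℕ∞) : ℝ≥0∞) + D * n := add_le_add h2 h3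
    _ ≤ D * ((K.iso 2 (D * n + D) : ℕ∞) : ℝ≥0∞) + D * n + D := le_self_add

end Pool.Agent.H.MP_e5d137_al
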