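import Pool.Agent.H.MP_e5d137_al.G3.Color

/-!
# Signs, labellings, neighbours
-/

namespace Pool.Agent.H.MP_e5d137_al.G3

open Matrix

section Signs

/-- the sign of the sorting permutation of a tuple -/
def evf {n : ℕ} (f : Fin n → ℤ) : ℤ := Int.sign (Matrix.det (Matrix.vandermonde f))

lemma evf_perm {n : ℕ} (f : Fin n → ℤ) (σ : Equiv.Perm (Fin n)) :
    evf (fun k => f (σ k)) = (Equiv.Perm.sign σ : ℤ) * evf f := by
  have h : Matrix.vandermonde (fun k => f (σ k)) = (Matrix.vandermonde f).submatrix σ id := rfl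
  unfold evf
  rw [h, Matrix.det_permute, Int.sign_mul]
  congr 1
  rcases Int.units_eq_one_or (Equiv.Perm.sign σ) with h1 | h1 <;> rw [h1] <;> rfl

lemma sign_prod {ι : Type*} (t : Finset ι) (f : ι → ℤ) :
    Int.sign (∏ i ∈ t, f i) = ∏ i ∈ t, Int.sign (f i) := by
  classical
  induction t using Finset.induction_on with
  | empty => simp
  | insert a t ha ih => rw [Finset.prod_insert ha, Finset.prod_insert ha, Int.sign_mul, ih]

lemma evf_succ {n : ℕ} (f : Fin (n + 1) → ℤ) :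
    evf f = (∏ j : Fin n, Int.sign (f j.succ - f 0)) * evf (fun j => f j.succ) := by
  unfold evf
  rw [Matrix.det_vandermonde, Matrix.det_vandermonde, Fin.prod_univ_succ, Int.sign_mul,
    Fin.prod_Ioi_zero, sign_prod]
  congr 2
  refine Finset.prod_congr rfl (fun i _ => ?_)
  rw [Fin.prod_Ioi_succ]

lemma evf_zero (f : Fin 0 → ℤ) : evf f = 1 := by
  unfold evf
  simp

lemma evf_sq {n : ℕ} {f : Fin n → ℤ} (hf : Function.Injective f) : evf f * evf f = 1 := by
  have h : Matrix.det (Matrix.vandermonde f) ≠ 0 := Matrix.det_vandermonde_ne_zero_iff.2 hf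
  unfold evf
  rcases lt_or_gt_of_ne h with h1 | h1
  · rw [Int.sign_eq_neg_one_of_neg h1]; rfl
  · rw [Int.sign_eq_one_of_pos h1]; rfl

/-- incidence sign -/
def sg (x : V) (M : Finset V) : ℤ := ∏ y ∈ M, if col y < col x then -1 else 1

lemma sg_sq (x : V) (M : Finset V) : sg x M * sg x M = 1 := by
  unfold sg
  rw [← Finset.prod_mul_distrib]
  refine Finset.prod_eq_one (fun y _ => ?_)
  split_ifs <;> rfl

lemma sg_insert {x d : V} {M : Finset V} (hd : d ∉ M) :
    sg x (insert d M) = (if col d < col x then -1 else 1) * sg x M := by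
  unfold sg
  rw [Finset.prod_insert hd]

lemma sg_abs (x : V) (M : Finset V) : (sg x M).natAbs = 1 := by
  have h := sg_sq x M
  have h2 := congrArg Int.natAbs h
  rw [Int.natAbs_mul] at h2
  simpa using h2

lemma sg_mul_evf {n : ℕ} (X : Fin (n + 1) → V) (hX : Function.Injective (fun j => col (X j))) :
    sg (X 0) (Finset.univ.image X) * evf (fun j => col (X j)) =
      evf (fun j : Fin n => col (X j.succ)) := by
  have hXi : Function.Injective X := fun i j h => hX (congrArg col h)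
  rw [evf_succ]
  have h1 : sg (X 0) (Finset.univ.image X) =
      ∏ j : Fin n, Int.sign (col (X j.succ) - col (X 0)) := by
    unfold sg
    rw [Finset.prod_image (fun i _ j _ h => hXi h), Fin.prod_univ_succ]
    rw [if_neg (lt_irrefl _), one_mul]
    refine Finset.prod_congr rfl (fun j _ => ?_)
    have hne : col (X j.succ) ≠ col (X 0) := fun h => by
      have := hX h
      exact absurd this (Fin.succ_ne_zero j)
    split_ifs with h
    · rw [Int.sign_eq_neg_one_of_neg (by linarith)]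
    · rw [Int.sign_eq_one_of_pos]
      have := lt_of_le_of_ne (not_lt.1 h) hne.symm
      linarith
  rw [h1, ← mul_assoc, ← Finset.prod_mul_distrib]
  have h2 : ∏ j : Fin n, Int.sign (col (X j.succ) - col (X 0)) *
      Int.sign (col (X j.succ) - col (X 0)) = 1 := by
    refine Finset.prod_eq_one (fun j _ => ?_)
    have hne : col (X j.succ) - col (X 0) ≠ 0 := fun h => by
      have := hX (sub_eq_zero.1 h)
      exact absurd this (Fin.succ_ne_zero j)
    rcases lt_or_gt_of_ne hne with h | h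
    · rw [Int.sign_eq_neg_one_of_neg h]; rfl
    · rw [Int.sign_eq_one_of_pos h]; rfl
  rw [h2, one_mul]

end Signs

section Labels

/-- index of a minimal vector -/
def idx (x : V) : Fin 6 :=
  if x = s 0 ∨ x = -s 0 then 0 else if x = s 1 ∨ x = -s 1 then 1 else
  if x = s 2 ∨ x = -s 2 then 2 else if x = s 3 ∨ x = -s 3 then 3 else
  if x = s 4 ∨ x = -s 4 then 4 else 5

lemma idx_s (k : Fin 6) : idx (s k) = k ∧ idx (-s k) = k := by
  revert k; decide

/-- comparison sign -/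
def cm (i j : Fin 6) : ℤ := if i < j then 1 else -1

def inv6 (a b c d e f : Fin 6) : ℤ :=
  cm a b * cm a c * cm a d * cm a e * cm a f * cm b c * cm b d * cm b e * cm b f * cm c d *
    cm c e * cm c f * cm d e * cm d f * cm e f

def ism (x : V) : Bool := q0 x == 1

def good (a b c : Fin 6) (β γ : Bool) : Bool :=
  let u := s a
  let v := if β then s b else -s b
  let w := if γ then s c else -s c
  let d := idx (u + v)
  let e := idx (v + w)
  let f := idx (u + v + w)
  !(ism (u + v) && ism (v + w) && ism (u + v + w)) ||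
    (inv6 a b c d e f == 1)

set_option maxRecDepth 100000 in
lemma even_aux : ∀ a b c : Fin 6, ∀ β γ : Bool, good a b c β γ = true := by decide

lemma cm_eq {i j : Fin 6} (h : i ≠ j) : Int.sign (((j : ℕ) : ℤ) - ((i : ℕ) : ℤ)) = cm i j := by
  unfold cm
  split_ifs with h1
  · rw [Int.sign_eq_one_of_pos]
    have : (i : ℕ) < (j : ℕ) := h1
    omega
  · rw [Int.sign_eq_neg_one_of_neg]
    have h2 : (j : ℕ) < (i : ℕ) := lt_of_le_of_ne (not_lt.1 h1) (fun h3 => h (Fin.ext h3.symm))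
    omega

lemma evf_six {σ : Fin 6 → Fin 6} (hσ : Function.Injective σ) :
    evf (fun k => (((σ k : Fin 6) : ℕ) : ℤ)) = inv6 (σ 0) (σ 1) (σ 2) (σ 3) (σ 4) (σ 5) := by
  simp only [evf_succ, evf_zero, Fin.prod_univ_succ, Fin.prod_univ_zero]
  have hne : ∀ i j : Fin 6, i ≠ j → σ i ≠ σ j := fun i j h h' => h (hσ h')
  have e := fun (i j : Fin 6) (h : i ≠ j) => cm_eq (hne i j h)
  simp only [Fin.succ_zero_eq_one, Fin.succ_one_eq_two, mul_one]
  have r : ∀ (i : Fin 6), ∃ j, j = i := fun i => ⟨i, rfl⟩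
  change (Int.sign (((σ 1 : ℕ) : ℤ) - ((σ 0 : ℕ) : ℤ)) * (Int.sign (((σ 2 : ℕ) : ℤ) - ((σ 0 : ℕ) : ℤ)) *
    (Int.sign (((σ 3 : ℕ) : ℤ) - ((σ 0 : ℕ) : ℤ)) * (Int.sign (((σ 4 : ℕ) : ℤ) - ((σ 0 : ℕ) : ℤ)) *
    Int.sign (((σ 5 : ℕ) : ℤ) - ((σ 0 : ℕ) : ℤ)))))) *
    ((Int.sign (((σ 2 : ℕ) : ℤ) - ((σ 1 : ℕ) : ℤ)) * (Int.sign (((σ 3 : ℕ) : ℤ) - ((σ 1 : ℕ) : ℤ)) *
    (Int.sign (((σ 4 : ℕ) : ℤ) - ((σ 1 : ℕ) : ℤ)) * Int.sign (((σ 5 : ℕ) : ℤ) - ((σ 1 : ℕ) : ℤ))))) *
    ((Int.sign (((σ 3 : ℕ) : ℤ) - ((σ 2 : ℕ) : ℤ)) * (Int.sign (((σ 4 : ℕ) : ℤ) - ((σ 2 : ℕ) : ℤ)) *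
    Int.sign (((σ 5 : ℕ) : ℤ) - ((σ 2 : ℕ) : ℤ)))) *
    ((Int.sign (((σ 4 : ℕ) : ℤ) - ((σ 3 : ℕ) : ℤ)) * Int.sign (((σ 5 : ℕ) : ℤ) - ((σ 3 : ℕ) : ℤ))) *
    Int.sign (((σ 5 : ℕ) : ℤ) - ((σ 4 : ℕ) : ℤ))))) = _
  rw [e 0 1 (by decide), e 0 2 (by decide), e 0 3 (by decide), e 0 4 (by decide),
    e 0 5 (by decide), e 1 2 (by decide), e 1 3 (by decide), e 1 4 (by decide),
    e 1 5 (by decide), e 2 3 (by decide), e 2 4 (by decide), e 2 5 (by decide),
    e 3 4 (by decide), e 3 5 (by decide), e 4 5 (by decide)]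
  unfold inv6
  ring

lemma sv_label {g h : GL3} {k l : Fin 6} (hk : ac h (s k) = s l ∨ ac h (s k) = -s l) :
    sv (g * h) k = sv g l := by
  unfold sv pac
  rw [ac_mul]
  rcases hk with hk | hk <;> rw [hk]
  rw [ac_neg, nrm_neg]

/-- an invertible matrix -/
def mkG (M N : Matrix (Fin 3) (Fin 3) ℤ) (h1 : M * N = 1) (h2 : N * M = 1) : GL3 := ⟨M, N, h1, h2⟩

/-- matrices moving the first vector to the other ones -/
def hm : Fin 6 → GL3 :=
  ![1,
    mkG !![0, -1, 1; 1, -1, 1; 0, 0, 1] !![-1, 1, 0; -1, 0, 1; 0, 0, 1] (by decide) (by decide),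
    mkG !![0, -1, 1; 0, -1, 0; 1, -1, 0] !![0, -1, 1; 0, -1, 0; 1, -1, 0] (by decide) (by decide),
    mkG !![1, 0, 0; 1, -1, 1; 0, 0, 1] !![1, 0, 0; 1, -1, 1; 0, 0, 1] (by decide) (by decide),
    mkG !![0, 0, -1; 1, 0, -1; 1, -1, 0] !![-1, 1, 0; -1, 1, -1; -1, 0, 0] (by decide) (by decide),
    mkG !![1, 0, 0; 1, 0, -1; 1, -1, 0] !![1, 0, 0; 1, 0, -1; 1, -1, 0] (by decide) (by decide)]

/-- the neighbour matrix -/
def nb : GL3 :=
  mkG !![1, -1, 0; 2, -1, 0; 1, 0, -1] !![-1, 1, 0; -2, 1, 0; -1, 1, -1] (by decide) (by decide)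

lemma hm_stab : ∀ j k : Fin 6, ∃ l, ac (hm j) (s k) = s l ∨ ac (hm j) (s k) = -s l := by decide

lemma hm_zero : ∀ j : Fin 6, ac (hm j) (s 0) = s j ∨ ac (hm j) (s 0) = -s j := by decide

lemma exists_label (g : GL3) (k : Fin 6) : ∃ g', cfg g' = cfg g ∧ sv g' 0 = sv g k := by
  refine ⟨g * hm k, ?_, sv_label (hm_zero k)⟩
  apply cfg_eq_of_subset
  intro x hx
  obtain ⟨l, rfl⟩ := mem_cfg.1 hx
  obtain ⟨l', hl'⟩ := hm_stab k l
  rw [sv_label hl']
  exact sv_mem_cfg g l'

/-- the permutation of the common vectors of two neighbours -/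
def pnb : Equiv.Perm (Fin 5) where
  toFun := ![2, 1, 3, 4, 0]
  invFun := ![4, 1, 0, 2, 3]
  left_inv := by decide
  right_inv := by decide

lemma sign_pnb : Equiv.Perm.sign pnb = -1 := by decide

lemma nb_aux : ∀ k : Fin 5, ac nb (s k.succ) = s (pnb k).succ ∨
    ac nb (s k.succ) = -s (pnb k).succ := by decide

lemma sv_nb (g : GL3) (k : Fin 5) : sv (g * nb) k.succ = sv g (pnb k).succ :=
  sv_label (nb_aux k)

lemma q0_nb : q0 (ac nb⁻¹ (s 0)) = 2 := by decide

lemma q0_nb' : q0 (ac nb (s 0)) = 2 := by decide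

lemma A_nb : A 0 (ac nb (s 0)) = -1 := by decide

lemma qf_nb (g : GL3) : qf (g * nb) (sv g 0) = 2 := by
  unfold sv pac
  rw [qf_nrm]
  unfold qf
  rw [_root_.mul_inv_rev, ac_mul, ac_inv_ac, q0_nb]

lemma qf_nb' (g : GL3) : qf g (sv (g * nb) 0) = 2 := by
  unfold sv pac
  rw [qf_nrm]
  unfold qf
  rw [ac_mul, ac_inv_ac, q0_nb']

lemma sv_zero_notMem_nb (g : GL3) : sv g 0 ∉ cfg (g * nb) := by
  rw [mem_cfg_iff, qf_nb]
  norm_num

lemma sv_nb_notMem (g : GL3) : sv (g * nb) 0 ∉ cfg g := by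
  rw [mem_cfg_iff, qf_nb']
  norm_num

/-- the common vectors of two neighbours -/
lemma erase_eq (g : GL3) : (cfg g).erase (sv g 0) = (cfg (g * nb)).erase (sv (g * nb) 0) := by
  have e : ∀ w : GL3, (cfg w).erase (sv w 0) =
      Finset.univ.image (fun k : Fin 5 => sv w k.succ) := by
    intro w
    ext x
    rw [Finset.mem_erase, mem_cfg, Finset.mem_image]
    constructor
    · rintro ⟨h1, k, rfl⟩
      rcases Fin.eq_zero_or_eq_succ k with rfl | ⟨j, rfl⟩
      · exact absurd rfl h1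
      · exact ⟨j, Finset.mem_univ j, rfl⟩
    · rintro ⟨j, _, rfl⟩
      exact ⟨fun h => Fin.succ_ne_zero j (sv_injective w h), j.succ, rfl⟩
  rw [e, e]
  ext x
  simp only [Finset.mem_image, Finset.mem_univ, true_and]
  constructor
  · rintro ⟨j, rfl⟩
    exact ⟨pnb.symm j, by rw [sv_nb, Equiv.apply_symm_apply]⟩
  · rintro ⟨j, rfl⟩
    exact ⟨pnb j, by rw [sv_nb]⟩

lemma erase_subset_nb (g : GL3) : (cfg g).erase (sv g 0) ⊆ cfg (g * nb) := by
  rw [erase_eq]
  exact Finset.erase_subset _ _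

/-- a set of five vectors of a configuration lies in exactly two configurations -/
lemma two_cfg {g w : GL3} (h : (cfg g).erase (sv g 0) ⊆ cfg w) :
    cfg w = cfg g ∨ cfg w = cfg (g * nb) := by
  have h1 : ∀ x, qf w x = qf g x + A 0 (ac g⁻¹ x) * (qf w (sv g 0) - 1) := by
    intro x
    have e : ∀ k : Fin 5, qf w (sv g k.succ) = 1 := fun k =>
      (mem_cfg_iff.1 (h (Finset.mem_erase.2
        ⟨fun h' => Fin.succ_ne_zero k (sv_injective g h'), sv_mem_cfg g _⟩))).2
    have a := (isQ_qf w).eq_sum_sv (qf_neg w) g x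
    have b := (isQ_qf g).eq_sum_sv (qf_neg g) g x
    rw [Fin.sum_univ_succ] at a b
    simp only [qf_sv, e, mul_one] at a b
    rw [a, b]
    ring
  have h2 : 1 ≤ qf w (sv g 0) := qf_ge_one (pos_sv g 0)
  have h3 : 1 ≤ qf w (sv (g * nb) 0) := qf_ge_one (pos_sv _ 0)
  have h4 : A 0 (ac g⁻¹ (sv (g * nb) 0)) = -1 := by
    unfold sv pac
    have e : ∀ x : V, A 0 (-x) = A 0 x := by
      intro x
      simp [A]
    rcases nrm_eq (ac (g * nb) (s 0)) with h | h <;> rw [h]
    · rw [ac_mul, ac_inv_ac, A_nb]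
    · rw [ac_neg, e, ac_mul, ac_inv_ac, A_nb]
  have h5 := h1 (sv (g * nb) 0)
  rw [h4, qf_nb'] at h5
  rcases (by omega : qf w (sv g 0) = 1 ∨ qf w (sv g 0) = 2) with h6 | h6
  · left
    apply (cfg_eq_of_subset _).symm
    intro x hx
    by_cases hx0 : x = sv g 0
    · subst hx0
      exact mem_cfg_iff.2 ⟨pos_sv g 0, h6⟩
    · exact h (Finset.mem_erase.2 ⟨hx0, hx⟩)
  · right
    apply (cfg_eq_of_subset _).symm
    intro x hx
    by_cases hx0 : x = sv (g * nb) 0
    · subst hx0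
      exact mem_cfg_iff.2 ⟨pos_sv _ 0, by omega⟩
    · apply h
      rw [erase_eq]
      exact Finset.mem_erase.2 ⟨hx0, hx⟩

lemma idx_of {x : V} {k : Fin 6} (h : x = s k ∨ x = -s k) : idx x = k ∧ ism x = true := by
  rcases h with rfl | rfl
  · exact ⟨(idx_s k).1, by revert k; decide⟩
  · exact ⟨(idx_s k).2, by revert k; decide⟩

lemma s_three : s 3 = s 0 + s 1 := by decide
lemma s_four : s 4 = s 1 + s 2 := by decide
lemma s_five : s 5 = s 3 + s 2 := by decide

/-- two labellings of a configuration differ by an even permutation -/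
lemma evf_cfg {g g' : GL3} (h : cfg g = cfg g') :
    evf (fun k => col (sv g k)) = evf (fun k => col (sv g' k)) := by
  have h1 : ∀ k, ∃ l, sv g l = sv g' k := fun k => by
    have := sv_mem_cfg g' k
    rw [← h] at this
    exact mem_cfg.1 this
  choose σ hσ using h1
  have hinj : Function.Injective σ := fun k l hkl => by
    apply sv_injective g'
    rw [← hσ, ← hσ, hkl]
  set H0 : V → V := fun x => ac g⁻¹ (ac g' x) with hH0
  have hadd : ∀ x y, H0 (x + y) = H0 x + H0 y := fun x y => by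
    simp only [hH0, ac_add]
  have hs : ∀ k, H0 (s k) = s (σ k) ∨ H0 (s k) = -s (σ k) := by
    intro k
    have h2 := hσ k
    unfold sv pac at h2
    rcases nrm_eq_nrm h2 with h3 | h3
    · left
      simp only [hH0]
      rw [← h3, ac_inv_ac]
    · right
      simp only [hH0]
      rw [← neg_neg (ac g' (s k)), ← h3, ac_neg, ac_inv_ac]
  obtain ⟨H, hHadd, hHs, hH0'⟩ : ∃ H : V → V, (∀ x y, H (x + y) = H x + H y) ∧
      (∀ k, H (s k) = s (σ k) ∨ H (s k) = -s (σ k)) ∧ H (s 0) = s (σ 0) := by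
    rcases hs 0 with h0 | h0
    · exact ⟨H0, hadd, hs, h0⟩
    · refine ⟨fun x => -H0 x, fun x y => ?_, fun k => ?_, ?_⟩
      · show -H0 (x + y) = -H0 x + -H0 y
        rw [hadd, neg_add]
      · show -H0 (s k) = s (σ k) ∨ -H0 (s k) = -s (σ k)
        rcases hs k with h1 | h1 <;> rw [h1]
        · exact Or.inr rfl
        · exact Or.inl (neg_neg _)
      · show -H0 (s 0) = s (σ 0)
        rw [h0, neg_neg]
  have hgood : inv6 (σ 0) (σ 1) (σ 2) (σ 3) (σ 4) (σ 5) = 1 := by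
    obtain ⟨β, hβ⟩ : ∃ β : Bool, H (s 1) = if β then s (σ 1) else -s (σ 1) := by
      rcases hHs 1 with h1 | h1
      · exact ⟨true, by simpa using h1⟩
      · exact ⟨false, by simpa using h1⟩
    obtain ⟨γ, hγ⟩ : ∃ γ : Bool, H (s 2) = if γ then s (σ 2) else -s (σ 2) := by
      rcases hHs 2 with h1 | h1
      · exact ⟨true, by simpa using h1⟩
      · exact ⟨false, by simpa using h1⟩
    have hg := even_aux (σ 0) (σ 1) (σ 2) β γ
    unfold good at hg
    simp only [← hβ, ← hγ, ← hH0', ← hHadd, ← s_three, ← s_four, ← s_five] at hg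
    rw [(idx_of (hHs 3)).1, (idx_of (hHs 4)).1, (idx_of (hHs 5)).1, (idx_of (hHs 3)).2,
      (idx_of (hHs 4)).2, (idx_of (hHs 5)).2] at hg
    simpa using hg
  set π : Equiv.Perm (Fin 6) := Equiv.ofBijective σ (Finite.injective_iff_bijective.1 hinj)
  have hπ : ∀ k, π k = σ k := fun k => rfl
  have h2 : (Equiv.Perm.sign π : ℤ) = 1 := by
    have h3 := evf_perm (fun k : Fin 6 => ((k : ℕ) : ℤ)) π
    have h4 : evf (fun k => (((π k : Fin 6) : ℕ) : ℤ)) = 1 := by
      have := evf_six hinj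
      simp only [hπ]
      rw [this, hgood]
    have h5 : evf (fun k : Fin 6 => ((k : ℕ) : ℤ)) = 1 := by
      have := evf_six (σ := fun k => k) (fun _ _ h => h)
      rw [this]
      decide
    rw [h4, h5, mul_one] at h3
    exact h3.symm
  have h3 := evf_perm (fun k => col (sv g k)) π
  rw [h2, one_mul] at h3
  rw [← h3]
  congr 1
  funext k
  rw [hπ, hσ]

/-- orientation of a configuration -/
noncomputable def eps (v : Finset V) : ℤ := by
  classical
  exact if h : ∃ g, cfg g = v then evf (fun k => col (sv h.choose k)) else 1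

lemma eps_cfg (g : GL3) : eps (cfg g) = evf (fun k => col (sv g k)) := by
  classical
  unfold eps
  have h : ∃ g', cfg g' = cfg g := ⟨g, rfl⟩
  rw [dif_pos h]
  exact evf_cfg h.choose_spec

lemma eps_sq (v : Finset V) : eps v * eps v = 1 := by
  classical
  unfold eps
  split_ifs with h
  · exact evf_sq (col_sv_injective _)
  · rfl

lemma eps_abs (v : Finset V) : (eps v).natAbs = 1 := by
  have h := eps_sq v
  have h2 := congrArg Int.natAbs h
  rw [Int.natAbs_mul] at h2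
  simpa using h2

lemma sg_mul_eps (g : GL3) :
    sg (sv g 0) (cfg g) * eps (cfg g) = evf (fun k : Fin 5 => col (sv g k.succ)) := by
  rw [eps_cfg]
  exact sg_mul_evf (sv g) (col_sv_injective g)

/-- the orientations of two neighbours are opposite -/
lemma flip_sign (g : GL3) : sg (sv g 0) (cfg g) * eps (cfg g) +
    sg (sv (g * nb) 0) (cfg (g * nb)) * eps (cfg (g * nb)) = 0 := by
  rw [sg_mul_eps, sg_mul_eps]
  simp only [sv_nb]
  have := evf_perm (fun k : Fin 5 => col (sv g k.succ)) pnb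
  rw [this, sign_pnb]
  simp

end Labels

end Pool.Agent.H.MP_e5d137_al.G3
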