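import Pool.Agent.H.MP_e5d137_al.G3.Vec

/-!
# Quadratic forms, configurations
-/

namespace Pool.Agent.H.MP_e5d137_al.G3

open Matrix

/-- integral quadratic forms -/
def IsQ (Q : V → ℤ) : Prop := ∃ M : Matrix (Fin 3) (Fin 3) ℤ, ∀ x, Q x = x ⬝ᵥ (M *ᵥ x)

lemma IsQ.comp {Q : V → ℤ} (hQ : IsQ Q) (g : GL3) : IsQ (fun x => Q (ac g x)) := by
  obtain ⟨M, hM⟩ := hQ
  refine ⟨(g : Matrix (Fin 3) (Fin 3) ℤ)ᵀ * M * (g : Matrix (Fin 3) (Fin 3) ℤ), fun x => ?_⟩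
  show Q (ac g x) = _
  rw [hM]
  unfold ac
  rw [← Matrix.mulVec_mulVec, ← Matrix.mulVec_mulVec, Matrix.dotProduct_mulVec x,
    Matrix.vecMul_transpose]

lemma isQ_q0 : IsQ q0 := by
  refine ⟨!![1, -1, 0; 0, 1, -1; 0, 0, 1], fun x => ?_⟩
  simp [Matrix.mulVec, dotProduct, Fin.sum_univ_succ, q0]
  ring

/-- coordinates with respect to the six minimal vectors -/
def A (k : Fin 6) (u : V) : ℤ :=
  (![u 0 ^ 2 - u 0 * u 1, u 1 ^ 2 - u 0 * u 1 - u 1 * u 2 + u 0 * u 2, u 2 ^ 2 - u 1 * u 2,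
    u 0 * u 1 - u 0 * u 2, u 1 * u 2 - u 0 * u 2, u 0 * u 2] : Fin 6 → ℤ) k

lemma IsQ.eq_sum {Q : V → ℤ} (hQ : IsQ Q) (u : V) : Q u = ∑ k, A k u * Q (s k) := by
  obtain ⟨M, hM⟩ := hQ
  simp only [hM]
  simp [Matrix.mulVec, dotProduct, Fin.sum_univ_succ, A, s]
  ring

lemma isQ_A (k : Fin 6) : IsQ (A k) := by
  fin_cases k
  · refine ⟨!![1, -1, 0; 0, 0, 0; 0, 0, 0], fun x => ?_⟩
    simp [Matrix.mulVec, dotProduct, Fin.sum_univ_succ, A]; ring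
  · refine ⟨!![0, -1, 1; 0, 1, -1; 0, 0, 0], fun x => ?_⟩
    simp [Matrix.mulVec, dotProduct, Fin.sum_univ_succ, A]; ring
  · refine ⟨!![0, 0, 0; 0, 0, -1; 0, 0, 1], fun x => ?_⟩
    simp [Matrix.mulVec, dotProduct, Fin.sum_univ_succ, A]; ring
  · refine ⟨!![0, 1, -1; 0, 0, 0; 0, 0, 0], fun x => ?_⟩
    simp [Matrix.mulVec, dotProduct, Fin.sum_univ_succ, A]; ring
  · refine ⟨!![0, 0, -1; 0, 0, 1; 0, 0, 0], fun x => ?_⟩
    simp [Matrix.mulVec, dotProduct, Fin.sum_univ_succ, A]; ring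
  · refine ⟨!![0, 0, 1; 0, 0, 0; 0, 0, 0], fun x => ?_⟩
    simp [Matrix.mulVec, dotProduct, Fin.sum_univ_succ, A]

lemma A_s (k l : Fin 6) : A k (s l) = if k = l then 1 else 0 := by
  revert k l; decide

/-- a second basis -/
def yv : Fin 6 → V :=
  ![![1, 0, 0], ![0, 1, 0], ![0, 0, 1], ![1, 1, 0], ![1, 0, 1], ![0, 1, 1]]

def B (k : Fin 6) (u : V) : ℤ :=
  (![u 0 ^ 2 - u 0 * u 1 - u 0 * u 2, u 1 ^ 2 - u 0 * u 1 - u 1 * u 2,
    u 2 ^ 2 - u 0 * u 2 - u 1 * u 2, u 0 * u 1, u 0 * u 2, u 1 * u 2] : Fin 6 → ℤ) k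

lemma IsQ.eq_sum_yv {Q : V → ℤ} (hQ : IsQ Q) (u : V) : Q u = ∑ k, B k u * Q (yv k) := by
  obtain ⟨M, hM⟩ := hQ
  simp only [hM]
  simp [Matrix.mulVec, dotProduct, Fin.sum_univ_succ, B, yv]
  ring

lemma isQ_sq (l : V) : IsQ (fun x => (l ⬝ᵥ x) ^ 2) := by
  refine ⟨Matrix.vecMulVec l l, fun x => ?_⟩
  simp [Matrix.mulVec, dotProduct, Fin.sum_univ_succ, Matrix.vecMulVec]
  ring

/-- the form attached to a matrix -/
def qf (g : GL3) (x : V) : ℤ := q0 (ac g⁻¹ x)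

lemma isQ_qf (g : GL3) : IsQ (qf g) := isQ_q0.comp g⁻¹

lemma qf_neg (g : GL3) (x : V) : qf g (-x) = qf g x := by
  unfold qf; rw [ac_neg, q0_neg]

lemma qf_nrm (g : GL3) (x : V) : qf g (nrm x) = qf g x := by
  rcases nrm_eq x with h | h <;> rw [h]
  exact qf_neg g x

lemma qf_nonneg (g : GL3) (x : V) : 0 ≤ qf g x := q0_nonneg _

lemma qf_pos (g : GL3) {x : V} (hx : x ≠ 0) : 1 ≤ qf g x :=
  q0_pos (fun h => hx ((ac_eq_zero _ _).1 h))

/-- the `k`-th vector of the configuration attached to `g` -/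
def sv (g : GL3) (k : Fin 6) : V := pac g (s k)

lemma s_ne_zero (k : Fin 6) : s k ≠ 0 := by revert k; decide

lemma pos_sv (g : GL3) (k : Fin 6) : Pos (sv g k) := pos_pac g (s_ne_zero k)

lemma pos_s (k : Fin 6) : Pos (s k) := by revert k; decide

lemma s_injective : Function.Injective s := by
  intro k l
  revert k l
  decide

lemma sv_injective (g : GL3) : Function.Injective (sv g) := fun k l h =>
  s_injective (pac_inj g (pos_s k) (pos_s l) h)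

/-- the configuration attached to a matrix -/
def cfg (g : GL3) : Finset V := Finset.univ.image (sv g)

lemma mem_cfg {g : GL3} {x : V} : x ∈ cfg g ↔ ∃ k, sv g k = x := by
  simp [cfg]

lemma sv_mem_cfg (g : GL3) (k : Fin 6) : sv g k ∈ cfg g := mem_cfg.2 ⟨k, rfl⟩

lemma card_cfg (g : GL3) : (cfg g).card = 6 := by
  unfold cfg
  rw [Finset.card_image_of_injective _ (sv_injective g)]
  simp

lemma qf_sv (g : GL3) (k : Fin 6) : qf g (sv g k) = 1 := by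
  unfold sv pac
  rw [qf_nrm]
  unfold qf
  rw [ac_inv_ac, q0_s]

lemma mem_cfg_iff {g : GL3} {x : V} : x ∈ cfg g ↔ Pos x ∧ qf g x = 1 := by
  constructor
  · intro h
    obtain ⟨k, rfl⟩ := mem_cfg.1 h
    exact ⟨pos_sv g k, qf_sv g k⟩
  · rintro ⟨hx, h1⟩
    obtain ⟨k, hk⟩ := q0_eq_one h1
    refine mem_cfg.2 ⟨k, ?_⟩
    unfold sv pac
    rcases hk with hk | hk
    · rw [← hk, ac_ac_inv, nrm_of_pos hx]
    · have : s k = -(ac g⁻¹ x) := by rw [hk, neg_neg]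
      rw [this, ac_neg, nrm_neg, ac_ac_inv, nrm_of_pos hx]

lemma cfg_pos {g : GL3} {x : V} (h : x ∈ cfg g) : Pos x := (mem_cfg_iff.1 h).1

lemma qf_ge_one {g : GL3} {x : V} (hx : Pos x) : 1 ≤ qf g x := qf_pos g hx.ne_zero

/-- expansion with respect to a configuration -/
lemma IsQ.eq_sum_sv {Q : V → ℤ} (hQ : IsQ Q) (hQn : ∀ x, Q (-x) = Q x) (g : GL3) (x : V) :
    Q x = ∑ k, A k (ac g⁻¹ x) * Q (sv g k) := by
  have h := (hQ.comp g).eq_sum (ac g⁻¹ x)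
  simp only [ac_ac_inv] at h
  rw [h]
  refine Finset.sum_congr rfl (fun k _ => ?_)
  congr 1
  unfold sv pac
  rcases nrm_eq (ac g (s k)) with h | h <;> rw [h]
  rw [hQn]

lemma qf_eq_of_subset {g g' : GL3} (h : cfg g ⊆ cfg g') : qf g = qf g' := by
  funext x
  rw [(isQ_qf g').eq_sum_sv (qf_neg g') g x, (isQ_qf g).eq_sum_sv (qf_neg g) g x]
  refine Finset.sum_congr rfl (fun k _ => ?_)
  rw [qf_sv, (mem_cfg_iff.1 (h (sv_mem_cfg g k))).2]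

lemma cfg_eq_of_qf {g g' : GL3} (h : qf g = qf g') : cfg g = cfg g' := by
  ext x
  rw [mem_cfg_iff, mem_cfg_iff, h]

lemma cfg_eq_of_subset {g g' : GL3} (h : cfg g ⊆ cfg g') : cfg g = cfg g' :=
  cfg_eq_of_qf (qf_eq_of_subset h)

end Pool.Agent.H.MP_e5d137_al.G3
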