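import Pool.Agent.H.MP_e5d137_al.G3.Chart

/-!
# The combinatorial inequality for sets of frames
-/

namespace Pool.Agent.H.MP_e5d137_al.G3

open Matrix

lemma Pos.addk {x y : V} (hx : Pos x) (hy : Pos y) (k : ℕ) : Pos (x + (k : ℤ) • y) := by
  induction k with
  | zero => simpa using hx
  | succ k ih =>
    have : x + ((k + 1 : ℕ) : ℤ) • y = (x + (k : ℤ) • y) + y := by
      push_cast
      rw [add_smul, one_smul, add_assoc]
    rw [this]
    exact ih.add hy

lemma cr_add_left (x y z : V) : cr (x + y) z = cr x z + cr y z := by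
  apply v_ext <;> simp [cr] <;> ring

lemma cr_neg_left (x z : V) : cr (-x) z = -cr x z := by
  apply v_ext <;> simp [cr] <;> ring

/-- given the plane and the largest vector of a reduced basis, the other one has at most two
values -/
lemma two_sol {b b' c : V} (hc : ∃ ξ : V, ξ ⬝ᵥ c = 1) (hc0 : Pos c) (h1 : Pos b)
    (h2 : Pos (c - b)) (h3 : Pos b') (h4 : Pos (c - b')) (h : nrm (cr b c) = nrm (cr b' c)) :
    b' = b ∨ b' = c - b := by
  rcases nrm_eq_nrm h with h | h
  · left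
    have h5 : cr c (b - b') = 0 := by
      rw [cr_swap, sub_eq_add_neg, cr_add_left, cr_neg_left, h]
      simp
    obtain ⟨k, hk⟩ := eq_smul_of_cr hc h5
    rcases lt_trichotomy k 0 with hk0 | hk0 | hk0
    · exfalso
      obtain ⟨j, rfl⟩ : ∃ j : ℕ, k = -(j : ℤ) - 1 := ⟨(-k - 1).toNat, by omega⟩
      have h6 : c - b' = -(b + (j : ℤ) • c) - 2 • b + 2 • b := by
        have : b' = b - ((-(j : ℤ) - 1) • c) := by rw [← hk]; abel
        rw [this, sub_smul, neg_smul, one_smul]
        abel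
      rw [sub_add_cancel] at h6
      rw [h6] at h4
      exact not_pos_neg (h1.addk hc0 j) h4
    · rw [hk0, zero_smul] at hk
      exact (sub_eq_zero.1 hk).symm
    · exfalso
      obtain ⟨j, rfl⟩ : ∃ j : ℕ, k = (j : ℤ) + 1 := ⟨(k - 1).toNat, by omega⟩
      have h6 : c - b = -(b' + (j : ℤ) • c) := by
        have : b = b' + (((j : ℤ) + 1) • c) := by rw [← hk]; abel
        rw [this, add_smul, one_smul]
        abel
      rw [h6] at h2
      exact not_pos_neg (h3.addk hc0 j) h2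
  · right
    have h5 : cr c (b + b') = 0 := by
      rw [cr_swap, cr_add_left, h]
      simp
    obtain ⟨k, hk⟩ := eq_smul_of_cr hc h5
    rcases lt_trichotomy k 1 with hk0 | hk0 | hk0
    · exfalso
      obtain ⟨j, rfl⟩ : ∃ j : ℕ, k = -(j : ℤ) := ⟨(-k).toNat, by omega⟩
      have h6 := (h1.add h3).addk hc0 j
      rw [hk, ← add_smul, neg_add_cancel, zero_smul] at h6
      exact h6.ne_zero rfl
    · rw [hk0, one_smul] at hk
      rw [← hk]
      abel
    · exfalso
      obtain ⟨j, rfl⟩ : ∃ j : ℕ, k = (j : ℤ) + 2 := ⟨(k - 2).toNat, by omega⟩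
      have h6 := (h2.add h4).addk hc0 j
      have h7 : c - b + (c - b') + (j : ℤ) • c = 0 := by
        have : c - b + (c - b') + (j : ℤ) • c = (2 : ℤ) • c + (j : ℤ) • c - (b + b') := by
          rw [two_smul]
          abel
        rw [this, hk, ← add_smul, ← sub_smul]
        rw [show (2 : ℤ) + j - (j + 2) = 0 by ring, zero_smul]
      exact h6.ne_zero h7

lemma level_sum {α : Type} (s : Finset α) (v : α → ℕ) (n : ℕ) (hv : ∀ x ∈ s, v x ≤ n) :
    ∑ x ∈ s, v x = ∑ t ∈ Finset.Icc 1 n, (s.filter (fun x => t ≤ v x)).card := by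
  simp only [Finset.card_filter]
  rw [Finset.sum_comm]
  refine Finset.sum_congr rfl (fun x hx => ?_)
  rw [← Finset.card_filter]
  have : (Finset.Icc 1 n).filter (fun t => t ≤ v x) = Finset.Icc 1 (v x) := by
    ext t
    have := hv x hx
    simp only [Finset.mem_filter, Finset.mem_Icc]
    omega
  rw [this]
  simp

/-- the constant -/
noncomputable def Z : ℝ := ∑' k : ℕ, ((k : ℝ) ^ ((4 : ℝ) / 3))⁻¹

lemma Z_nonneg : 0 ≤ Z := tsum_nonneg (fun k => by positivity)

lemma zeta_sum {A : ℝ} (hA : 0 ≤ A) (n : ℕ) :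
    ∑ t ∈ Finset.Icc 1 n, (A / (t : ℝ)) ^ ((4 : ℝ) / 3) ≤ A ^ ((4 : ℝ) / 3) * Z := by
  have h1 : ∀ t ∈ Finset.Icc 1 n, (A / (t : ℝ)) ^ ((4 : ℝ) / 3) =
      A ^ ((4 : ℝ) / 3) * ((t : ℝ) ^ ((4 : ℝ) / 3))⁻¹ := by
    intro t _
    rw [Real.div_rpow hA (by positivity), div_eq_mul_inv]
  rw [Finset.sum_congr rfl h1, ← Finset.mul_sum]
  apply mul_le_mul_of_nonneg_left _ (by positivity)
  exact Summable.sum_le_tsum _ (fun k _ => by positivity)
    (Real.summable_nat_rpow_inv.2 (by norm_num))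

/-- conditions on a frame -/
structure Frm (E : Finset (V × V)) (t : V × V × V) : Prop where
  p1 : Pos t.1
  p2 : Pos (t.2.1 - t.1)
  p3 : Pos (t.2.2 - t.2.1)
  d : dt t.1 t.2.1 t.2.2 = 1 ∨ dt t.1 t.2.1 t.2.2 = -1
  e1 : (t.1, nrm (cr t.2.1 t.2.2)) ∈ E
  e2 : (t.2.2, nrm (cr t.1 t.2.1)) ∈ E

lemma Frm.pb {E : Finset (V × V)} {t : V × V × V} (h : Frm E t) : Pos t.2.1 := by
  have := h.p1.add h.p2
  rwa [add_sub_cancel] at this

lemma Frm.pc {E : Finset (V × V)} {t : V × V × V} (h : Frm E t) : Pos t.2.2 := by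
  have := h.pb.add h.p3
  rwa [add_sub_cancel] at this

lemma cr_self (x : V) : cr x x = 0 := by
  apply v_ext <;> simp [cr] <;> ring

lemma dot_cr_left (x y : V) : x ⬝ᵥ cr x y = 0 := by
  simp [cr, dotProduct, Fin.sum_univ_succ]; ring

lemma dot_cr_right (x y : V) : y ⬝ᵥ cr x y = 0 := by
  simp [cr, dotProduct, Fin.sum_univ_succ]; ring

lemma nrm_dot (x y : V) : (nrm x ⬝ᵥ y = x ⬝ᵥ y) ∨ (nrm x ⬝ᵥ y = -(x ⬝ᵥ y)) := by
  rcases nrm_eq x with h | h <;> rw [h]
  · exact Or.inl rfl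
  · right; rw [neg_dotProduct]

lemma prim_of_dot {x y : V} (h : x ⬝ᵥ y = 1 ∨ x ⬝ᵥ y = -1) : ∃ ξ : V, ξ ⬝ᵥ y = 1 := by
  rcases h with h | h
  · exact ⟨x, h⟩
  · exact ⟨-x, by rw [neg_dotProduct, h]; rfl⟩

lemma pr_nrm {x y : V} (h : x ⬝ᵥ y = 1 ∨ x ⬝ᵥ y = -1) : Pr (nrm y) := by
  have hy : y ≠ 0 := by
    rintro rfl
    simp at h
  refine ⟨pos_nrm hy, prim_of_dot (x := x) ?_⟩
  rw [dotProduct_comm x y] at h
  rw [dotProduct_comm]
  rcases nrm_dot y x with h1 | h1 <;> rw [h1]
  · exact h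
  · rcases h with h | h <;> rw [h]
    · exact Or.inr rfl
    · exact Or.inl rfl

lemma dt_cyc (x y z : V) : dt x y z = dt z x y := by unfold dt; ring

lemma Frm.pi_pr {E : Finset (V × V)} {t : V × V × V} (h : Frm E t) :
    Pr (nrm (cr t.2.1 t.2.2)) := by
  apply pr_nrm (x := t.1)
  rw [← dt_eq_dot]
  exact h.d

lemma Frm.c_pr {E : Finset (V × V)} {t : V × V × V} (h : Frm E t) : Pr t.2.2 := by
  refine ⟨h.pc, prim_of_dot (x := cr t.1 t.2.1) ?_⟩
  rw [dotProduct_comm, ← dt_eq_dot, ← dt_cyc]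
  exact h.d

lemma Frm.b_prim {E : Finset (V × V)} {t : V × V × V} (h : Frm E t) :
    ∃ ξ : V, ξ ⬝ᵥ t.2.1 = 1 := by
  apply prim_of_dot (x := cr t.2.2 t.1)
  rw [dotProduct_comm, ← dt_eq_dot, dt_cyc]
  exact h.d

lemma Frm.inc {E : Finset (V × V)} {t : V × V × V} (_ : Frm E t) :
    nrm (cr t.2.1 t.2.2) ⬝ᵥ t.2.2 = 0 := by
  have h1 : cr t.2.1 t.2.2 ⬝ᵥ t.2.2 = 0 := by
    rw [dotProduct_comm]
    exact dot_cr_right _ _
  rcases nrm_dot (cr t.2.1 t.2.2) t.2.2 with h2 | h2 <;> rw [h2, h1]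
  rfl

open Classical in
lemma fiber_bound (T : Finset (V × V × V)) (E : Finset (V × V)) (hT : ∀ t ∈ T, Frm E t)
    (v c : V) :
    (T.filter (fun t => (nrm (cr t.2.1 t.2.2), t.2.2) = (v, c))).card ≤
      4 * min (E.filter (fun x => x.2 = v)).card (E.filter (fun x => x.1 = c)).card := by
  set Tj := T.filter (fun t => (nrm (cr t.2.1 t.2.2), t.2.2) = (v, c)) with hTj
  have hmem : ∀ t ∈ Tj, Frm E t ∧ nrm (cr t.2.1 t.2.2) = v ∧ t.2.2 = c := by
    intro t ht
    obtain ⟨h1, h2⟩ := Finset.mem_filter.1 ht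
    exact ⟨hT t h1, (Prod.ext_iff.1 h2).1, (Prod.ext_iff.1 h2).2⟩
  have hb : ∀ t ∈ Tj, ∀ t' ∈ Tj, t'.2.1 = t.2.1 ∨ t'.2.1 = c - t.2.1 := by
    intro t ht t' ht'
    obtain ⟨h1, h2, h3⟩ := hmem t ht
    obtain ⟨h1', h2', h3'⟩ := hmem t' ht'
    have hc := h1.c_pr
    rw [h3] at hc h2
    rw [h3'] at h2'
    have p := h1.p3
    have p' := h1'.p3
    rw [h3] at p
    rw [h3'] at p'
    exact two_sol hc.2 hc.1 h1.pb p h1'.pb p' (by rw [h2, h2'])
  have b1 : Tj.card ≤ 2 * (E.filter (fun x => x.2 = v)).card := by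
    apply Finset.card_le_mul_card_image_of_maps_to (f := fun t => (t.1, v))
    · intro t ht
      obtain ⟨h1, h2, _⟩ := hmem t ht
      refine Finset.mem_filter.2 ⟨?_, rfl⟩
      rw [← h2]
      exact h1.e1
    · rintro ⟨a, w⟩ _
      rcases (Tj.filter (fun t => (t.1, v) = (a, w))).eq_empty_or_nonempty with h | ⟨t, ht⟩
      · rw [h]; simp
      · obtain ⟨ht1, ht2⟩ := Finset.mem_filter.1 ht
        have hsub : Tj.filter (fun t => (t.1, v) = (a, w)) ⊆ {t, (t.1, c - t.2.1, t.2.2)} := by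
          intro t' ht'
          obtain ⟨ht1', ht2'⟩ := Finset.mem_filter.1 ht'
          have e1 : t'.1 = t.1 := by
            rw [(Prod.ext_iff.1 ht2').1, (Prod.ext_iff.1 ht2).1]
          have e3 : t'.2.2 = t.2.2 := by rw [(hmem t' ht1').2.2, (hmem t ht1).2.2]
          rw [Finset.mem_insert, Finset.mem_singleton]
          rcases hb t ht1 t' ht1' with h | h
          · left
            exact Prod.ext e1 (Prod.ext h e3)
          · right
            exact Prod.ext e1 (Prod.ext h e3)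
        exact (Finset.card_le_card hsub).trans Finset.card_le_two
  have b2 : Tj.card ≤ 4 * (E.filter (fun x => x.1 = c)).card := by
    rcases Tj.eq_empty_or_nonempty with h | ⟨t0, ht0⟩
    · rw [h]; simp
    · have b3 : Tj.card ≤ 2 * ((({t0.2.1, c - t0.2.1} : Finset V) ×ˢ
          (E.filter (fun x => x.1 = c))).card) := by
        apply Finset.card_le_mul_card_image_of_maps_to
          (f := fun t : V × V × V => (t.2.1, (c, nrm (cr t.1 t.2.1))))
        · intro t ht
          obtain ⟨h1, _, h3⟩ := hmem t ht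
          refine Finset.mem_product.2 ⟨?_, Finset.mem_filter.2 ⟨?_, rfl⟩⟩
          · rw [Finset.mem_insert, Finset.mem_singleton]
            exact hb t0 ht0 t ht
          · show (c, nrm (cr t.1 t.2.1)) ∈ E
            rw [← h3]
            exact h1.e2
        · rintro ⟨b, w⟩ _
          rcases (Tj.filter (fun t => (t.2.1, (c, nrm (cr t.1 t.2.1))) = (b, w))
            ).eq_empty_or_nonempty with h | ⟨t, ht⟩
          · rw [h]; simp
          · obtain ⟨ht1, ht2⟩ := Finset.mem_filter.1 ht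
            have hsub : Tj.filter (fun t => (t.2.1, (c, nrm (cr t.1 t.2.1))) = (b, w)) ⊆
                {t, (t.2.1 - t.1, t.2.1, t.2.2)} := by
              intro t' ht'
              obtain ⟨ht1', ht2'⟩ := Finset.mem_filter.1 ht'
              have e2 : t'.2.1 = t.2.1 := by
                rw [(Prod.ext_iff.1 ht2').1, (Prod.ext_iff.1 ht2).1]
              have e4 : nrm (cr t'.1 t'.2.1) = nrm (cr t.1 t.2.1) := by
                have u1 := (Prod.ext_iff.1 ht2').2
                have u2 := (Prod.ext_iff.1 ht2).2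
                exact (Prod.ext_iff.1 (u1.trans u2.symm)).2
              have e3 : t'.2.2 = t.2.2 := by rw [(hmem t' ht1').2.2, (hmem t ht1).2.2]
              have hF := (hmem t ht1).1
              have hF' := (hmem t' ht1').1
              have p' := hF'.p2
              rw [e2] at p' e4
              rw [Finset.mem_insert, Finset.mem_singleton]
              rcases two_sol hF.b_prim hF.pb hF.p1 hF.p2 hF'.p1 p' e4.symm with h | h
              · left
                exact Prod.ext h (Prod.ext e2 e3)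
              · right
                exact Prod.ext h (Prod.ext e2 e3)
            exact (Finset.card_le_card hsub).trans Finset.card_le_two
      rw [Finset.card_product] at b3
      have b4 : ({t0.2.1, c - t0.2.1} : Finset V).card ≤ 2 := Finset.card_le_two
      calc Tj.card ≤ 2 * (({t0.2.1, c - t0.2.1} : Finset V).card *
            (E.filter (fun x => x.1 = c)).card) := b3
        _ ≤ 2 * (2 * (E.filter (fun x => x.1 = c)).card) := by gcongr
        _ = _ := by ring
  rcases min_choice (E.filter (fun x => x.2 = v)).card (E.filter (fun x => x.1 = c)).card with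
    h | h <;> rw [h] <;> omega

open Classical in
theorem frame_ineq (T : Finset (V × V × V)) (E : Finset (V × V)) (hT : ∀ t ∈ T, Frm E t) :
    (T.card : ℝ) ≤ 20 * Z * (E.card : ℝ) ^ ((4 : ℝ) / 3) := by
  set n := E.card with hn
  set nP : V → ℕ := fun v => (E.filter (fun x => x.2 = v)).card with hnP
  set nV : V → ℕ := fun c => (E.filter (fun x => x.1 = c)).card with hnV
  set f : V × V × V → V × V := fun t => (nrm (cr t.2.1 t.2.2), t.2.2) with hf
  set J := T.image f with hJ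
  have h1 : T.card ≤ 4 * ∑ j ∈ J, min (nP j.1) (nV j.2) := by
    rw [Finset.card_eq_sum_card_image f T, Finset.mul_sum]
    exact Finset.sum_le_sum (fun j _ => fiber_bound T E hT j.1 j.2)
  have h2 := level_sum J (fun j => min (nP j.1) (nV j.2)) n
    (fun j _ => (min_le_left _ _).trans (Finset.card_filter_le _ _))
  rw [h2] at h1
  have h3 : ∀ t ∈ Finset.Icc 1 n,
      ((J.filter (fun j => t ≤ min (nP j.1) (nV j.2))).card : ℝ) ≤
        5 * ((n : ℝ) / t) ^ ((4 : ℝ) / 3) := by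
    intro t ht
    have ht1 : 1 ≤ t := (Finset.mem_Icc.1 ht).1
    have htr : (0 : ℝ) < t := by exact_mod_cast ht1
    set Lt := (E.image Prod.snd).filter (fun v => t ≤ nP v ∧ Pr v) with hLt
    set Pt := (E.image Prod.fst).filter (fun c => t ≤ nV c ∧ Pr c) with hPt
    have hLc : (Lt.card : ℝ) ≤ (n : ℝ) / t := by
      rw [le_div_iff₀ htr]
      have : Lt.card * t ≤ n := by
        calc Lt.card * t = ∑ v ∈ Lt, t := by rw [Finset.sum_const, smul_eq_mul]
          _ ≤ ∑ v ∈ Lt, nP v := Finset.sum_le_sum (fun v hv => (Finset.mem_filter.1 hv).2.1)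
          _ ≤ ∑ v ∈ E.image Prod.snd, nP v :=
            Finset.sum_le_sum_of_subset (Finset.filter_subset _ _)
          _ = n := (Finset.card_eq_sum_card_image Prod.snd E).symm
      exact_mod_cast this
    have hPc : (Pt.card : ℝ) ≤ (n : ℝ) / t := by
      rw [le_div_iff₀ htr]
      have : Pt.card * t ≤ n := by
        calc Pt.card * t = ∑ v ∈ Pt, t := by rw [Finset.sum_const, smul_eq_mul]
          _ ≤ ∑ v ∈ Pt, nV v := Finset.sum_le_sum (fun v hv => (Finset.mem_filter.1 hv).2.1)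
          _ ≤ ∑ v ∈ E.image Prod.fst, nV v :=
            Finset.sum_le_sum_of_subset (Finset.filter_subset _ _)
          _ = n := (Finset.card_eq_sum_card_image Prod.fst E).symm
      exact_mod_cast this
    refine le_trans ?_ (inc_bound Lt Pt (fun v hv => (Finset.mem_filter.1 hv).2.2)
      (fun c hc => (Finset.mem_filter.1 hc).2.2) _ hLc hPc)
    have hsub : J.filter (fun j => t ≤ min (nP j.1) (nV j.2)) ⊆
        (Lt ×ˢ Pt).filter (fun x => x.1 ⬝ᵥ x.2 = 0) := by
      intro j hj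
      obtain ⟨hj1, hj2⟩ := Finset.mem_filter.1 hj
      obtain ⟨u, hu, rfl⟩ := Finset.mem_image.1 hj1
      have hF := hT u hu
      have hj3 := le_min_iff.1 hj2
      refine Finset.mem_filter.2 ⟨Finset.mem_product.2 ⟨?_, ?_⟩, hF.inc⟩
      · exact Finset.mem_filter.2 ⟨Finset.mem_image.2 ⟨_, hF.e1, rfl⟩, hj3.1, hF.pi_pr⟩
      · exact Finset.mem_filter.2 ⟨Finset.mem_image.2 ⟨_, hF.e2, rfl⟩, hj3.2, hF.c_pr⟩
    exact_mod_cast Finset.card_le_card hsub
  calc (T.card : ℝ) ≤ 4 * ∑ t ∈ Finset.Icc 1 n,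
        ((J.filter (fun j => t ≤ min (nP j.1) (nV j.2))).card : ℝ) := by exact_mod_cast h1
    _ ≤ 4 * ∑ t ∈ Finset.Icc 1 n, 5 * ((n : ℝ) / t) ^ ((4 : ℝ) / 3) := by
        gcongr with t ht
        exact h3 t ht
    _ = 20 * ∑ t ∈ Finset.Icc 1 n, ((n : ℝ) / t) ^ ((4 : ℝ) / 3) := by
        rw [← Finset.mul_sum]; ring
    _ ≤ 20 * ((n : ℝ) ^ ((4 : ℝ) / 3) * Z) := by
        gcongr
        exact zeta_sum (by positivity) n
    _ = _ := by ring

end Pool.Agent.H.MP_e5d137_al.G3
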