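import Pool.Agent.H.MP_e5d137_al.G3.Cone
import Pool.Agent.H.MP_e5d137_al.Torus

/-!
# The isoperimetric inequality in the complex of the well-rounded retract: conclusion
-/

namespace Pool.Agent.H.MP_e5d137_al.G3

open Matrix Finsupp

/-- mass of the boundary on the cells of a cone -/
noncomputable def AA (c : Cell 3 →₀ ℤ) (x y z : V) : ℕ := by
  classical
  exact ∑ N ∈ (bdW 2 c).support.filter (fun N => Q x y z N.1), (bdW 2 c N).natAbs

/-- number of frames of the chain in a cone -/
noncomputable def NN (c : Cell 3 →₀ ℤ) (x y z : V) : ℕ := by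
  classical
  exact (c.support.filter (fun F => Q x y z F.1)).card

lemma Q.left {x y z : V} {N : Finset V} (h : Q x y (y + z) N) : Q x y z N :=
  ⟨h.1, fun w hw hwx => inC_left (h.2 w hw hwx)⟩

lemma Q.right {x y z : V} {N : Finset V} (h : Q x (y + z) z N) : Q x y z N :=
  ⟨h.1, fun w hw hwx => inC_right (h.2 w hw hwx)⟩

lemma Q_disj {x y z : V} {N : Finset V} (hd : dt x y z ≠ 0) (h1 : Q x y (y + z) N)
    (h2 : Q x (y + z) z N) : ¬ Spans N := by
  apply not_spans_line (x := x) (u := y + z)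
  intro w hw hwx
  obtain ⟨q, hq⟩ := inC_both hd (h1.2 w hw hwx) (h2.2 w hw hwx)
  exact ⟨q, hq⟩

lemma AA_split {c : Cell 3 →₀ ℤ} {x y z : V} (hd : dt x y z ≠ 0) (hzx : z ≠ x) (hyx : y ≠ x)
    {N0 : Cell 2} (h0 : N0.1 = {x, y, z, y + z}) :
    (bdW 2 c N0).natAbs + AA c x y (y + z) + AA c x (y + z) z ≤ AA c x y z := by
  classical
  unfold AA
  set S := (bdW 2 c).support
  set f : Cell 2 → ℕ := fun N => (bdW 2 c N).natAbs
  have d1 : Disjoint (S.filter (fun N : Cell 2 => Q x y (y + z) N.1))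
      (S.filter (fun N : Cell 2 => Q x (y + z) z N.1)) := by
    rw [Finset.disjoint_left]
    intro N h1 h2
    exact Q_disj hd (Finset.mem_filter.1 h1).2 (Finset.mem_filter.1 h2).2 N.2.1
  have n1 : ¬ Q x y (y + z) N0.1 := fun h =>
    not_inC_left hd (h.2 z (by rw [h0]; simp) hzx)
  have n2 : ¬ Q x (y + z) z N0.1 := fun h =>
    not_inC_right hd (h.2 y (by rw [h0]; simp) hyx)
  have q0 : Q x y z N0.1 := by
    refine ⟨by rw [h0]; simp, ?_⟩
    intro w hw hwx
    rw [h0] at hw
    simp only [Finset.mem_insert, Finset.mem_singleton] at hw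
    rcases hw with h | h | h | h
    · exact absurd h hwx
    · exact ⟨1, 0, by rw [h]; simp⟩
    · exact ⟨0, 1, by rw [h]; simp⟩
    · exact ⟨1, 1, by rw [h]; simp⟩
  have hsub : (S.filter (fun N : Cell 2 => Q x y (y + z) N.1)) ∪
      (S.filter (fun N : Cell 2 => Q x (y + z) z N.1)) ⊆
      (S.filter (fun N : Cell 2 => Q x y z N.1)) \ {N0} := by
    intro N hN
    rw [Finset.mem_sdiff, Finset.mem_singleton]
    rcases Finset.mem_union.1 hN with h | h
    · obtain ⟨h1, h2⟩ := Finset.mem_filter.1 h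
      exact ⟨Finset.mem_filter.2 ⟨h1, h2.left⟩, fun h3 => n1 (h3 ▸ h2)⟩
    · obtain ⟨h1, h2⟩ := Finset.mem_filter.1 h
      exact ⟨Finset.mem_filter.2 ⟨h1, h2.right⟩, fun h3 => n2 (h3 ▸ h2)⟩
  have h1 : ∑ N ∈ S.filter (fun N : Cell 2 => Q x y (y + z) N.1), f N +
      ∑ N ∈ S.filter (fun N : Cell 2 => Q x (y + z) z N.1), f N ≤
      ∑ N ∈ (S.filter (fun N : Cell 2 => Q x y z N.1)) \ {N0}, f N := by
    rw [← Finset.sum_union d1]
    exact Finset.sum_le_sum_of_subset hsub
  show f N0 + ∑ N ∈ S.filter (fun N : Cell 2 => Q x y (y + z) N.1), f N +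
      ∑ N ∈ S.filter (fun N : Cell 2 => Q x (y + z) z N.1), f N ≤
      ∑ N ∈ S.filter (fun N : Cell 2 => Q x y z N.1), f N
  by_cases hN0 : N0 ∈ S
  · have h2 : ({N0} : Finset (Cell 2)) ⊆ S.filter (fun N : Cell 2 => Q x y z N.1) := by
      rw [Finset.singleton_subset_iff]
      exact Finset.mem_filter.2 ⟨hN0, q0⟩
    have h3 := Finset.sum_sdiff (f := f) h2
    rw [Finset.sum_singleton] at h3
    omega
  · have h2 : f N0 = 0 := by
      show (bdW 2 c N0).natAbs = 0
      rw [Finsupp.notMem_support_iff.1 hN0]; rfl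
    have h3 : ∑ N ∈ (S.filter (fun N : Cell 2 => Q x y z N.1)) \ {N0}, f N ≤
        ∑ N ∈ S.filter (fun N : Cell 2 => Q x y z N.1), f N :=
      Finset.sum_le_sum_of_subset Finset.sdiff_subset
    omega

lemma ne_of_dt {x y z : V} (hd : dt x y z ≠ 0) : x ≠ y ∧ x ≠ z ∧ y ≠ z := by
  refine ⟨?_, ?_, ?_⟩
  · rintro rfl; apply hd; unfold dt; ring
  · rintro rfl; apply hd; unfold dt; ring
  · rintro rfl; apply hd; unfold dt; ring

/-- the cone induction -/
lemma cone_bound (c : Cell 3 →₀ ℤ) : ∀ (n : ℕ) (x y z : V), NN c x y z ≤ n → Pos x → Pos y →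
    Pos z → (dt x y z = 1 ∨ dt x y z = -1) → (ex c {x, y, z}).natAbs ≤ AA c x y z := by
  classical
  intro n
  induction n with
  | zero =>
    intro x y z hn hx hy hz hd
    by_cases h0 : ex c {x, y, z} = 0
    · rw [h0]; simp
    · exfalso
      have hcell := isCell_of_ex h0
      have hmem : (⟨{x, y, z}, hcell⟩ : Cell 3) ∈ c.support.filter (fun F => Q x y z F.1) := by
        refine Finset.mem_filter.2 ⟨?_, by simp, ?_⟩
        · rw [Finsupp.mem_support_iff, ← ex_of_cell c hcell]
          exact h0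
        · intro w hw hwx
          simp only [Finset.mem_insert, Finset.mem_singleton] at hw
          rcases hw with h | h | h
          · exact absurd h hwx
          · exact ⟨1, 0, by rw [h]; simp⟩
          · exact ⟨0, 1, by rw [h]; simp⟩
      have : 0 < NN c x y z := by
        unfold NN
        exact Finset.card_pos.2 ⟨_, hmem⟩
      omega
  | succ n ih =>
    intro x y z hn hx hy hz hd
    have hne : dt x y z ≠ 0 := by rcases hd with h | h <;> rw [h] <;> norm_num
    obtain ⟨hxy, hxz, hyz⟩ := ne_of_dt hne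
    by_cases h0 : ex c {x, y, z} = 0
    · rw [h0]; simp
    have hcell := isCell_of_ex h0
    set F0 : Cell 3 := ⟨{x, y, z}, hcell⟩ with hF0
    have hF0s : F0 ∈ c.support := by
      rw [Finsupp.mem_support_iff, ← ex_of_cell c hcell]
      exact h0
    have hF0m : F0 ∈ c.support.filter (fun F => Q x y z F.1) := by
      refine Finset.mem_filter.2 ⟨hF0s, by simp [hF0], ?_⟩
      intro w hw hwx
      simp only [hF0, Finset.mem_insert, Finset.mem_singleton] at hw
      rcases hw with h | h | h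
      · exact absurd h hwx
      · exact ⟨1, 0, by rw [h]; simp⟩
      · exact ⟨0, 1, by rw [h]; simp⟩
    have m1 : NN c x y (y + z) ≤ n := by
      have : NN c x y (y + z) < NN c x y z := by
        unfold NN
        apply Finset.card_lt_card
        refine ⟨fun F hF => ?_, fun h => ?_⟩
        · obtain ⟨h1, h2⟩ := Finset.mem_filter.1 hF
          exact Finset.mem_filter.2 ⟨h1, h2.left⟩
        · have h1 := (Finset.mem_filter.1 (h hF0m)).2
          exact not_inC_left hne (h1.2 z (by simp [hF0]) hxz.symm)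
      omega
    have m2 : NN c x (y + z) z ≤ n := by
      have : NN c x (y + z) z < NN c x y z := by
        unfold NN
        apply Finset.card_lt_card
        refine ⟨fun F hF => ?_, fun h => ?_⟩
        · obtain ⟨h1, h2⟩ := Finset.mem_filter.1 hF
          exact Finset.mem_filter.2 ⟨h1, h2.right⟩
        · have h1 := (Finset.mem_filter.1 (h hF0m)).2
          exact not_inC_right hne (h1.2 y (by simp [hF0]) hxy.symm)
      omega
    have d1 : dt x y (y + z) = dt x y z := by
      simp only [dt, Pi.add_apply]; ring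
    have d2 : dt x (y + z) z = dt x y z := by
      simp only [dt, Pi.add_apply]; ring
    have i1 := ih x y (y + z) m1 hx hy (hy.add hz) (by rw [d1]; exact hd)
    have i2 := ih x (y + z) z m2 hx (hy.add hz) hz (by rw [d2]; exact hd)
    have hpc := plane_cell hx hy hz hd
    have hsplit := AA_split (c := c) hne hxz.symm hxy.symm (N0 := ⟨_, hpc⟩) rfl
    -- the four coefficients
    have hyz' : y ≠ y + z := fun h => by
      have : z = 0 := by
        have h' : y + 0 = y + z := by rw [add_zero]; exact h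
        exact (add_left_cancel h').symm
      exact hz.ne_zero this
    have hzz' : z ≠ y + z := fun h => by
      have : y = 0 := by
        have h' : 0 + z = y + z := by rw [zero_add]; exact h
        exact (add_right_cancel h').symm
      exact hy.ne_zero this
    have hxx' : x ≠ y + z := fun h => by
      apply hne
      rw [h]
      simp only [dt, Pi.add_apply]; ring
    have hz1 : (bdW 2 c ⟨_, hpc⟩) = sg x {x, y, z, y + z} * ex c {y, z, y + z} +
        (sg y {x, y, z, y + z} * ex c {x, z, y + z} +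
        (sg z {x, y, z, y + z} * ex c {x, y, y + z} +
        sg (y + z) {x, y, z, y + z} * ex c {x, y, z})) := by
      rw [bdW_apply]
      show tw 2 _ * dd (ex c) {x, y, z, y + z} = _
      have ht : tw 2 ({x, y, z, y + z} : Finset V) = 1 := by simp [tw]
      rw [ht, one_mul]
      unfold dd
      rw [Finset.sum_insert (by simp [hxy, hxz, hxx']), Finset.sum_insert (by
        simp only [Finset.mem_insert, Finset.mem_singleton]
        rintro (h | h)
        · exact hyz h
        · exact hyz' h), Finset.sum_insert (by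
        rw [Finset.mem_singleton]; exact hzz'), Finset.sum_singleton]
      have e1 : ({x, y, z, y + z} : Finset V).erase x = {y, z, y + z} := by
        ext w
        simp only [Finset.mem_erase, Finset.mem_insert, Finset.mem_singleton]
        constructor
        · rintro ⟨h1, h2⟩
          exact h2.resolve_left h1
        · intro h
          refine ⟨?_, Or.inr h⟩
          rintro rfl
          rcases h with h | h | h
          · exact hxy h
          · exact hxz h
          · exact hxx' h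
      have e2 : ({x, y, z, y + z} : Finset V).erase y = {x, z, y + z} := by
        ext w
        simp only [Finset.mem_erase, Finset.mem_insert, Finset.mem_singleton]
        constructor
        · rintro ⟨h1, h2 | h2 | h2⟩
          · exact Or.inl h2
          · exact absurd h2 h1
          · exact Or.inr h2
        · intro h
          refine ⟨?_, by tauto⟩
          rintro rfl
          rcases h with h | h | h
          · exact hxy h.symm
          · exact hyz h
          · exact hyz' h
      have e3 : ({x, y, z, y + z} : Finset V).erase z = {x, y, y + z} := by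
        ext w
        simp only [Finset.mem_erase, Finset.mem_insert, Finset.mem_singleton]
        constructor
        · rintro ⟨h1, h2 | h2 | h2 | h2⟩
          · exact Or.inl h2
          · exact Or.inr (Or.inl h2)
          · exact absurd h2 h1
          · exact Or.inr (Or.inr h2)
        · intro h
          refine ⟨?_, by tauto⟩
          rintro rfl
          rcases h with h | h | h
          · exact hxz h.symm
          · exact hyz h.symm
          · exact hzz' h
      have e4 : ({x, y, z, y + z} : Finset V).erase (y + z) = {x, y, z} := by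
        ext w
        simp only [Finset.mem_erase, Finset.mem_insert, Finset.mem_singleton]
        constructor
        · rintro ⟨h1, h2 | h2 | h2 | h2⟩
          · exact Or.inl h2
          · exact Or.inr (Or.inl h2)
          · exact Or.inr (Or.inr h2)
          · exact absurd h2 h1
        · intro h
          refine ⟨?_, by tauto⟩
          intro hw
          rw [hw] at h
          rcases h with h | h | h
          · exact hxx' h.symm
          · exact hyz' h.symm
          · exact hzz' h.symm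
      rw [e1, e2, e3, e4]
    have hns : ex c {y, z, y + z} = 0 := by
      apply ex_eq_zero_of_not_spans
      rintro ⟨u1, h1, u2, h2, u3, h3, hh⟩
      apply hh
      simp only [Finset.mem_insert, Finset.mem_singleton] at h1 h2 h3
      rcases h1 with rfl | rfl | rfl <;> rcases h2 with rfl | rfl | rfl <;>
        rcases h3 with rfl | rfl | rfl <;> simp only [dt, Pi.add_apply] <;> ring
    rw [hns, mul_zero, zero_add] at hz1
    have hcomm : ({x, z, y + z} : Finset V) = {x, y + z, z} := by
      rw [Finset.pair_comm z (y + z)]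
    rw [hcomm] at hz1
    have s1 := sg_abs y ({x, y, z, y + z} : Finset V)
    have s2 := sg_abs z ({x, y, z, y + z} : Finset V)
    have s3 := sg_abs (y + z) ({x, y, z, y + z} : Finset V)
    have key : (ex c {x, y, z}).natAbs ≤ (bdW 2 c ⟨_, hpc⟩).natAbs +
        (ex c {x, y, y + z}).natAbs + (ex c {x, y + z, z}).natAbs := by
      have h1 : sg (y + z) {x, y, z, y + z} * ex c {x, y, z} =
          bdW 2 c ⟨_, hpc⟩ - sg y {x, y, z, y + z} * ex c {x, y + z, z} -
          sg z {x, y, z, y + z} * ex c {x, y, y + z} := by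
        rw [hz1]; ring
      have h2 : (ex c {x, y, z}).natAbs =
          (sg (y + z) {x, y, z, y + z} * ex c {x, y, z}).natAbs := by
        rw [Int.natAbs_mul, s3, one_mul]
      have h3 : (sg y {x, y, z, y + z} * ex c {x, y + z, z}).natAbs =
          (ex c {x, y + z, z}).natAbs := by
        rw [Int.natAbs_mul, s1, one_mul]
      have h4 : (sg z {x, y, z, y + z} * ex c {x, y, y + z}).natAbs =
          (ex c {x, y, y + z}).natAbs := by
        rw [Int.natAbs_mul, s2, one_mul]
      rw [h2, h1, ← h3, ← h4]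
      omega
    omega

lemma dt_zero_all {a b c u v w : V} (h : dt a b c = 0) (hu : u = a ∨ u = b ∨ u = c)
    (hv : v = a ∨ v = b ∨ v = c) (hw : w = a ∨ w = b ∨ w = c) : dt u v w = 0 := by
  rcases hu with rfl | rfl | rfl <;> rcases hv with rfl | rfl | rfl <;>
    rcases hw with rfl | rfl | rfl <;> unfold dt at * <;> linarith

lemma dt_s_bound : ∀ i j k : Fin 6, dt (s i) (s j) (s k) = 0 ∨ dt (s i) (s j) (s k) = 1 ∨
    dt (s i) (s j) (s k) = -1 := by decide

lemma det_unit (g : GL3) : (g : Matrix (Fin 3) (Fin 3) ℤ).det = 1 ∨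
    (g : Matrix (Fin 3) (Fin 3) ℤ).det = -1 :=
  Int.isUnit_iff.1 ((Matrix.isUnit_iff_isUnit_det _).1 g.isUnit)

lemma dt_cfg {g : GL3} {x y z : V} (hx : x ∈ cfg g) (hy : y ∈ cfg g) (hz : z ∈ cfg g)
    (h : dt x y z ≠ 0) : dt x y z = 1 ∨ dt x y z = -1 := by
  obtain ⟨i, rfl⟩ := mem_cfg.1 hx
  obtain ⟨j, rfl⟩ := mem_cfg.1 hy
  obtain ⟨k, rfl⟩ := mem_cfg.1 hz
  have h1 : dt (sv g i) (sv g j) (sv g k) = dt (ac g (s i)) (ac g (s j)) (ac g (s k)) ∨
      dt (sv g i) (sv g j) (sv g k) = -dt (ac g (s i)) (ac g (s j)) (ac g (s k)) := by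
    unfold sv pac
    rcases nrm_eq (ac g (s i)) with h1 | h1 <;> rcases nrm_eq (ac g (s j)) with h2 | h2 <;>
      rcases nrm_eq (ac g (s k)) with h3 | h3 <;> rw [h1, h2, h3] <;>
      simp only [dt_neg₁, dt_neg₂, dt_neg₃, neg_neg] <;> tauto
  rw [dt_ac] at h1
  rcases det_unit g with h2 | h2 <;> rcases dt_s_bound i j k with h3 | h3 | h3 <;>
    rw [h2, h3] at h1 <;> omega

/-- sorted triple of a frame -/
lemma exists_sorted (M : Cell 3) : ∃ t : V × V × V, M.1 = {t.1, t.2.1, t.2.2} ∧ Pos t.1 ∧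
    Pos (t.2.1 - t.1) ∧ Pos (t.2.2 - t.2.1) ∧
    (dt t.1 t.2.1 t.2.2 = 1 ∨ dt t.1 t.2.1 t.2.2 = -1) := by
  classical
  have hc : M.1.card = 3 := by
    have := M.2.2.2
    omega
  obtain ⟨x, y, z, hxy, hxz, hyz, hM⟩ := Finset.card_eq_three.1 hc
  have hpos : ∀ w ∈ M.1, Pos w := fun w hw => M.2.pos hw
  have hx : Pos x := hpos x (by rw [hM]; simp)
  have hy : Pos y := hpos y (by rw [hM]; simp)
  have hz : Pos z := hpos z (by rw [hM]; simp)
  have hcmp : ∀ u v : V, u ≠ v → Pos (v - u) ∨ Pos (u - v) := by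
    intro u v huv
    rcases pos_or_neg (sub_ne_zero.2 huv.symm) with h | h
    · exact Or.inl h
    · right
      rwa [neg_sub] at h
  -- any enumeration is unimodular
  have hdt : ∀ a b c : V, M.1 = {a, b, c} → (dt a b c = 1 ∨ dt a b c = -1) := by
    intro a b c hM'
    obtain ⟨g, hg⟩ := M.2.2.1
    have h0 : dt a b c ≠ 0 := by
      intro h0
      obtain ⟨u, hu, v, hv, w, hw, h⟩ := M.2.1
      rw [hM'] at hu hv hw
      simp only [Finset.mem_insert, Finset.mem_singleton] at hu hv hw
      exact h (dt_zero_all h0 hu hv hw)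
    exact dt_cfg (hg (by rw [hM']; simp)) (hg (by rw [hM']; simp)) (hg (by rw [hM']; simp)) h0
  have key : ∀ a b c : V, M.1 = {a, b, c} → Pos a → Pos (b - a) → Pos (c - b) →
      ∃ t : V × V × V, M.1 = {t.1, t.2.1, t.2.2} ∧ Pos t.1 ∧ Pos (t.2.1 - t.1) ∧
      Pos (t.2.2 - t.2.1) ∧ (dt t.1 t.2.1 t.2.2 = 1 ∨ dt t.1 t.2.1 t.2.2 = -1) :=
    fun a b c h h1 h2 h3 => ⟨(a, b, c), h, h1, h2, h3, hdt a b c h⟩
  have tr : ∀ {u v w : V}, Pos (v - u) → Pos (w - v) → Pos (w - u) := by
    intro u v w h1 h2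
    have := h2.add h1
    rwa [sub_add_sub_cancel] at this
  rcases hcmp x y hxy with h1 | h1 <;> rcases hcmp y z hyz with h2 | h2 <;>
    rcases hcmp x z hxz with h3 | h3
  · exact key x y z hM hx h1 h2
  · exact key x y z hM hx h1 h2
  · exact key x z y (by rw [hM, Finset.pair_comm]) hx h3 h2
  · exact key z x y (by rw [hM]; ext w; simp only [Finset.mem_insert, Finset.mem_singleton]; tauto)
      hz h3 h1
  · exact key y x z (by rw [hM]; ext w; simp only [Finset.mem_insert, Finset.mem_singleton]; tauto)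
      hy h1 h3
  · exact key y z x (by rw [hM]; ext w; simp only [Finset.mem_insert, Finset.mem_singleton]; tauto)
      hy h2 h3
  · exact key z y x (by rw [hM]; ext w; simp only [Finset.mem_insert, Finset.mem_singleton]; tauto)
      hz h2 h1
  · exact key z y x (by rw [hM]; ext w; simp only [Finset.mem_insert, Finset.mem_singleton]; tauto)
      hz h2 h1

noncomputable def srt (M : Cell 3) : V × V × V := (exists_sorted M).choose

lemma srt_spec (M : Cell 3) : M.1 = {(srt M).1, (srt M).2.1, (srt M).2.2} ∧ Pos (srt M).1 ∧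
    Pos ((srt M).2.1 - (srt M).1) ∧ Pos ((srt M).2.2 - (srt M).2.1) ∧
    (dt (srt M).1 (srt M).2.1 (srt M).2.2 = 1 ∨ dt (srt M).1 (srt M).2.1 (srt M).2.2 = -1) :=
  (exists_sorted M).choose_spec

lemma srt_inj : Function.Injective srt := fun M N h => by
  apply Subtype.ext
  rw [(srt_spec M).1, (srt_spec N).1, h]

/-- the flag of a pair in a cell -/
def R (p : V × V) (N : Finset V) : Prop := p.1 ∈ N ∧ ∀ w ∈ N, w ≠ p.1 → p.2 ⬝ᵥ w = 0

lemma cr_cr (v v' w : V) (h : v ⬝ᵥ w = 0) (h' : v' ⬝ᵥ w = 0) : cr w (cr v v') = 0 := by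
  have e : v 0 * w 0 + v 1 * w 1 + v 2 * w 2 = 0 := by
    simpa [dotProduct, Fin.sum_univ_succ, add_assoc] using h
  have e' : v' 0 * w 0 + v' 1 * w 1 + v' 2 * w 2 = 0 := by
    simpa [dotProduct, Fin.sum_univ_succ, add_assoc] using h'
  apply v_ext
  · simp [cr]
    linear_combination v 0 * e' - v' 0 * e
  · simp [cr]
    linear_combination v 1 * e' - v' 1 * e
  · simp [cr]
    linear_combination v 2 * e' - v' 2 * e

lemma eq_of_two_perp {v v' w1 w2 : V} (hv : Pr v) (hv' : Pr v') (h1 : Pr w1) (h2 : Pr w2)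
    (hne : w1 ≠ w2) (a1 : v ⬝ᵥ w1 = 0) (a2 : v ⬝ᵥ w2 = 0) (b1 : v' ⬝ᵥ w1 = 0)
    (b2 : v' ⬝ᵥ w2 = 0) : v = v' := by
  apply eq_of_cr hv hv'
  obtain ⟨k1, e1⟩ := eq_smul_of_cr h1.2 (cr_cr v v' w1 a1 b1)
  obtain ⟨k2, e2⟩ := eq_smul_of_cr h2.2 (cr_cr v v' w2 a2 b2)
  have hcr : cr w1 w2 ≠ 0 := fun h => hne (eq_of_cr h1 h2 h)
  have e3 : cr (k1 • w1) (k2 • w2) = (k1 * k2) • cr w1 w2 := by
    apply v_ext <;> simp [cr] <;> ring
  rw [← e1, ← e2, cr_self] at e3
  have h3 : k1 * k2 = 0 := by
    by_contra h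
    apply hcr
    funext i
    have := congrFun e3 i
    simp only [Pi.zero_apply, Pi.smul_apply, smul_eq_mul] at this
    exact (mul_eq_zero.1 this.symm).resolve_left h
  rcases mul_eq_zero.1 h3 with h | h
  · rw [e1, h, zero_smul]
  · rw [e2, h, zero_smul]

lemma s_frame : ∀ k : Fin 6, ∃ a b : Fin 6, dt (s a) (s b) (s k) ≠ 0 := by decide

lemma pr_of_mem_cfg {g : GL3} {x : V} (hx : x ∈ cfg g) : Pr x := by
  refine ⟨cfg_pos hx, ?_⟩
  obtain ⟨k, rfl⟩ := mem_cfg.1 hx
  obtain ⟨a, b, hab⟩ := s_frame k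
  have h1 : dt (sv g a) (sv g b) (sv g k) ≠ 0 := fun h => hab ((dt_sv_eq_zero g a b k).1 h)
  have h2 := dt_cfg (sv_mem_cfg g a) (sv_mem_cfg g b) (sv_mem_cfg g k) h1
  apply prim_of_dot (x := cr (sv g a) (sv g b))
  rw [dotProduct_comm, ← dt_eq_dot, ← dt_cyc]
  exact h2

lemma R_unique {p p' : V × V} {N : Cell 2} (hp : Pr p.2) (hp' : Pr p'.2)
    (h0 : p.2 ⬝ᵥ p.1 ≠ 0) (h : R p N.1) (h' : R p' N.1) : p = p' := by
  classical
  have hc : N.1.card = 4 := by
    have := N.2.2.2
    omega
  obtain ⟨g, hg⟩ := N.2.2.1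
  have hpr : ∀ w ∈ N.1, Pr w := fun w hw => pr_of_mem_cfg (hg hw)
  have h3 : 2 ≤ ((N.1.erase p.1).erase p'.1).card := by
    have h1 := Finset.card_erase_of_mem h.1
    have h2 := Finset.pred_card_le_card_erase (s := N.1.erase p.1) (a := p'.1)
    omega
  obtain ⟨w1, hw1, w2, hw2, hne⟩ := Finset.one_lt_card.1 h3
  have g1 : ∀ w ∈ (N.1.erase p.1).erase p'.1, Pr w ∧ p.2 ⬝ᵥ w = 0 ∧ p'.2 ⬝ᵥ w = 0 := by
    intro w hw
    obtain ⟨e1, e2⟩ := Finset.mem_erase.1 hw
    obtain ⟨e3, e4⟩ := Finset.mem_erase.1 e2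
    exact ⟨hpr w e4, h.2 w e4 e3, h'.2 w e4 e1⟩
  have e : p.2 = p'.2 := eq_of_two_perp hp hp' (g1 w1 hw1).1 (g1 w2 hw2).1 hne (g1 w1 hw1).2.1
    (g1 w2 hw2).2.1 (g1 w1 hw1).2.2 (g1 w2 hw2).2.2
  by_cases hx : p.1 = p'.1
  · exact Prod.ext hx e
  · exfalso
    apply h0
    rw [e]
    exact h'.2 p.1 h.1 hx

end Pool.Agent.H.MP_e5d137_al.G3
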