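import Pool.Agent.H.MP_e5d137_al.G3.IsoIneq

/-!
# Chains with small boundary: boxes in the Heisenberg group
-/

namespace Pool.Agent.H.MP_e5d137_al.G3

open Matrix Finsupp

def va : V := ![0, 0, 1]
def vb (s : ℤ) : V := ![0, 1, s]
def vc (u t : ℤ) : V := ![1, u, t]

lemma pos_va : Pos va := by unfold Pos va; simp
lemma pos_vb (s : ℤ) : Pos (vb s) := by unfold Pos vb; simp
lemma pos_vc (u t : ℤ) : Pos (vc u t) := by unfold Pos vc; simp

lemma va_ne_vb (s : ℤ) : va ≠ vb s := fun h => by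
  have := congrFun h 1
  simp [va, vb] at this

lemma va_ne_vc (u t : ℤ) : va ≠ vc u t := fun h => by
  have := congrFun h 0
  simp [va, vc] at this

lemma vb_ne_vc (s u t : ℤ) : vb s ≠ vc u t := fun h => by
  have := congrFun h 0
  simp [vb, vc] at this

lemma vb_inj {s s' : ℤ} (h : vb s = vb s') : s = s' := by
  have := congrFun h 2
  simpa [vb] using this

lemma vc_inj {u t u' t' : ℤ} (h : vc u t = vc u' t') : u = u' ∧ t = t' := by
  have h1 := congrFun h 1
  have h2 := congrFun h 2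
  exact ⟨by simpa [vc] using h1, by simpa [vc] using h2⟩

lemma dt_frame (s u t : ℤ) : dt va (vb s) (vc u t) = -1 := by
  simp [dt, va, vb, vc]

/-- the frames adapted to the standard flag -/
def Fr (p : ℤ × ℤ × ℤ) : Finset V := {va, vb p.1, vc p.2.1 p.2.2}

lemma Fr_inj : Function.Injective Fr := by
  rintro ⟨s, u, t⟩ ⟨s', u', t'⟩ h
  have h1 : vb s ∈ Fr (s', u', t') := by rw [← h]; simp [Fr]
  have h2 : vc u t ∈ Fr (s', u', t') := by rw [← h]; simp [Fr]
  simp only [Fr, Finset.mem_insert, Finset.mem_singleton] at h1 h2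
  have e1 : s = s' := by
    rcases h1 with h | h | h
    · exact absurd h.symm (va_ne_vb s)
    · exact vb_inj h
    · exact absurd h (vb_ne_vc _ _ _)
  have e2 : u = u' ∧ t = t' := by
    rcases h2 with h | h | h
    · exact absurd h.symm (va_ne_vc _ _)
    · exact absurd h.symm (vb_ne_vc _ _ _)
    · exact vc_inj h
  rw [e1, e2.1, e2.2]

lemma Fr_cell (p : ℤ × ℤ × ℤ) : IsCell 3 (Fr p) := by
  classical
  have hd := dt_frame p.1 p.2.1 p.2.2
  obtain ⟨g, h0, h1, h2⟩ := exists_frame pos_va (pos_vb p.1) (pos_vc p.2.1 p.2.2) (Or.inr hd)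
  have e0 : sv g 0 = va := by unfold sv pac; rw [h0, nrm_of_pos pos_va]
  have e1 : sv g 1 = vb p.1 := by unfold sv pac; rw [h1, nrm_of_pos (pos_vb _)]
  have e2 : sv g 2 = vc p.2.1 p.2.2 := by unfold sv pac; rw [h2, nrm_of_pos (pos_vc _ _)]
  refine ⟨⟨va, by simp [Fr], vb p.1, by simp [Fr], vc p.2.1 p.2.2, by simp [Fr], by
    rw [hd]; norm_num⟩, ⟨g, ?_⟩, ?_⟩
  · intro w hw
    simp only [Fr, Finset.mem_insert, Finset.mem_singleton] at hw
    rcases hw with h | h | h
    · rw [h, ← e0]; exact sv_mem_cfg g 0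
    · rw [h, ← e1]; exact sv_mem_cfg g 1
    · rw [h, ← e2]; exact sv_mem_cfg g 2
  · unfold Fr
    rw [Finset.card_insert_of_notMem (by
      simp only [Finset.mem_insert, Finset.mem_singleton]
      rintro (h | h)
      · exact va_ne_vb _ h
      · exact va_ne_vc _ _ h), Finset.card_pair (vb_ne_vc _ _ _)]

/-- sign of an adapted frame -/
def sgm (p : ℤ × ℤ × ℤ) : ℤ := evf ![col va, col (vb p.1), col (vc p.2.1 p.2.2)]

/-- the box -/
noncomputable def Bx (r : ℕ) : Finset (ℤ × ℤ × ℤ) :=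
  (Finset.Ico 0 (r : ℤ)) ×ˢ ((Finset.Ico 0 (r : ℤ)) ×ˢ (Finset.Ico 0 ((r : ℤ) ^ 2)))

lemma mem_Bx {r : ℕ} {p : ℤ × ℤ × ℤ} : p ∈ Bx r ↔ (0 ≤ p.1 ∧ p.1 < r) ∧ (0 ≤ p.2.1 ∧ p.2.1 < r) ∧
    (0 ≤ p.2.2 ∧ p.2.2 < (r : ℤ) ^ 2) := by
  simp [Bx]

lemma card_Bx (r : ℕ) : (Bx r).card = r ^ 4 := by
  have h1 : ((r : ℤ) ^ 2).toNat = r ^ 2 := by
    rw [← Nat.cast_pow, Int.toNat_natCast]
  simp only [Bx, Finset.card_product, Int.card_Ico, sub_zero, Int.toNat_natCast, h1]
  ring

/-- the chain as a function -/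
noncomputable def phi (r : ℕ) (M : Finset V) : ℤ := by
  classical
  exact if h : ∃ p ∈ Bx r, Fr p = M then sgm h.choose else 0

lemma phi_Fr (r : ℕ) (p : ℤ × ℤ × ℤ) : phi r (Fr p) = if p ∈ Bx r then sgm p else 0 := by
  classical
  unfold phi
  split_ifs with h1 h2 h2
  · obtain ⟨h3, h4⟩ := h1.choose_spec
    rw [Fr_inj h4]
  · obtain ⟨h3, h4⟩ := h1.choose_spec
    exact absurd (Fr_inj h4 ▸ h3) h2
  · exact absurd ⟨p, h2, rfl⟩ h1
  · rfl

lemma phi_ne {r : ℕ} {M : Finset V} (h : phi r M ≠ 0) : ∃ p ∈ Bx r, Fr p = M := by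
  classical
  unfold phi at h
  split_ifs at h with h1
  · exact h1
  · exact absurd rfl h

lemma phi_finite (r : ℕ) : (Function.support (phi r)).Finite := by
  classical
  refine ((Bx r).image Fr).finite_toSet.subset (fun M hM => ?_)
  obtain ⟨p, hp, rfl⟩ := phi_ne hM
  exact Finset.mem_coe.2 (Finset.mem_image_of_mem _ hp)

/-- the chain -/
noncomputable def ch (r : ℕ) : Cell 3 →₀ ℤ := mkc 3 (phi r) (phi_finite r)

lemma ex_ch (r : ℕ) : ex (ch r) = phi r := ex_mkc 3 (phi r) (phi_finite r) (fun M hM => by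
  obtain ⟨p, _, rfl⟩ := phi_ne hM
  exact Fr_cell p)

lemma Fr_cols (p : ℤ × ℤ × ℤ) : Function.Injective ![col va, col (vb p.1), col (vc p.2.1 p.2.2)] := by
  have h := (Fr_cell p).col_inj
  have m1 : va ∈ Fr p := by simp [Fr]
  have m2 : vb p.1 ∈ Fr p := by simp [Fr]
  have m3 : vc p.2.1 p.2.2 ∈ Fr p := by simp [Fr]
  have n1 : col va ≠ col (vb p.1) := fun e => va_ne_vb _ (h _ m1 _ m2 e)
  have n2 : col va ≠ col (vc p.2.1 p.2.2) := fun e => va_ne_vc _ _ (h _ m1 _ m3 e)
  have n3 : col (vb p.1) ≠ col (vc p.2.1 p.2.2) := fun e => vb_ne_vc _ _ _ (h _ m2 _ m3 e)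
  intro i j hij
  fin_cases i <;> fin_cases j <;> simp at hij ⊢ <;> first
    | exact absurd hij n1
    | exact absurd hij n2
    | exact absurd hij n3
    | exact absurd hij.symm n1
    | exact absurd hij.symm n2
    | exact absurd hij.symm n3

lemma sgm_sq (p : ℤ × ℤ × ℤ) : sgm p * sgm p = 1 := evf_sq (Fr_cols p)

lemma sgm_abs (p : ℤ × ℤ × ℤ) : (sgm p).natAbs = 1 := by
  have h2 := congrArg Int.natAbs (sgm_sq p)
  rw [Int.natAbs_mul] at h2
  simpa using h2

lemma phi_abs (r : ℕ) (M : Finset V) : (phi r M).natAbs ≤ 1 := by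
  by_cases h : phi r M = 0
  · rw [h]; simp
  · obtain ⟨p, hp, rfl⟩ := phi_ne h
    rw [phi_Fr, if_pos hp, sgm_abs]

lemma mass_ch (r : ℕ) : r ^ 4 ≤ mass (ch r) := by
  classical
  have h1 : ((Bx r).image (fun p => (⟨Fr p, Fr_cell p⟩ : Cell 3))) ⊆ (ch r).support := by
    intro M hM
    obtain ⟨p, hp, rfl⟩ := Finset.mem_image.1 hM
    rw [Finsupp.mem_support_iff, ← ex_of_cell (ch r) (Fr_cell p), ex_ch, phi_Fr, if_pos hp]
    intro h
    have := sgm_abs p
    rw [h] at this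
    simp at this
  have h2 : ((Bx r).image (fun p => (⟨Fr p, Fr_cell p⟩ : Cell 3))).card = r ^ 4 := by
    rw [Finset.card_image_of_injective, card_Bx]
    intro p q h
    exact Fr_inj (congrArg Subtype.val h)
  rw [← h2]
  refine (Finset.card_le_card h1).trans ?_
  unfold mass
  rw [Finsupp.sum, Finset.card_eq_sum_ones]
  apply Finset.sum_le_sum
  intro M hM
  have : ch r M ≠ 0 := Finsupp.mem_support_iff.1 hM
  exact Nat.one_le_iff_ne_zero.2 (fun h => this (Int.natAbs_eq_zero.1 h))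

/-- an adapted frame contained in a set with two candidates -/
lemma Fr_subset {p : ℤ × ℤ × ℤ} {M : Finset V} (h : Fr p = M) :
    va ∈ M ∧ vb p.1 ∈ M ∧ vc p.2.1 p.2.2 ∈ M := by
  rw [← h]
  simp [Fr]

lemma sg_evf4 {N : Finset V} (x y z w : V) (hN : N = {x, y, z, w})
    (hinj : Function.Injective ![col x, col y, col z, col w]) :
    sg x N * evf ![col y, col z, col w] = evf ![col x, col y, col z, col w] := by
  have h1 := sg_mul_evf ![x, y, z, w] (by
    have : (fun j => col ((![x, y, z, w] : Fin 4 → V) j)) = ![col x, col y, col z, col w] := by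
      funext j; fin_cases j <;> rfl
    rw [this]
    exact hinj)
  have h2 : (Finset.univ.image (![x, y, z, w] : Fin 4 → V)) = N := by
    rw [hN]
    ext v
    simp [Fin.exists_fin_succ]
    tauto
  rw [h2] at h1
  have h3 : (fun j => col ((![x, y, z, w] : Fin 4 → V) j)) = ![col x, col y, col z, col w] := by
    funext j; fin_cases j <;> rfl
  have h4 : (fun j : Fin 3 => col ((![x, y, z, w] : Fin 4 → V) j.succ)) =
      ![col y, col z, col w] := by
    funext j; fin_cases j <;> rfl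
  rw [h3, h4] at h1
  have h5 : sg x N * sg x N = 1 := sg_sq x N
  have h6 : (![x, y, z, w] : Fin 4 → V) 0 = x := rfl
  rw [h6] at h1
  calc sg x N * evf ![col y, col z, col w]
      = sg x N * (sg x N * evf ![col x, col y, col z, col w]) := by rw [h1]
    _ = (sg x N * sg x N) * evf ![col x, col y, col z, col w] := by ring
    _ = _ := by rw [h5, one_mul]

end Pool.Agent.H.MP_e5d137_al.G3
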