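import Pool.Agent.H.MP_e5d137_al.G3.Low

/-!
# The boundary of a box is small
-/

namespace Pool.Agent.H.MP_e5d137_al.G3

open Matrix Finsupp

/-- pairwise different colours -/
lemma cols_inj {i : ℕ} {N : Finset V} (hN : IsCell i N) {x y z w : V} (hx : x ∈ N) (hy : y ∈ N)
    (hz : z ∈ N) (hw : w ∈ N) (h1 : x ≠ y) (h2 : x ≠ z) (h3 : x ≠ w) (h4 : y ≠ z) (h5 : y ≠ w)
    (h6 : z ≠ w) : Function.Injective ![col x, col y, col z, col w] := by
  have h := hN.col_inj
  have n1 : col x ≠ col y := fun e => h1 (h _ hx _ hy e)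
  have n2 : col x ≠ col z := fun e => h2 (h _ hx _ hz e)
  have n3 : col x ≠ col w := fun e => h3 (h _ hx _ hw e)
  have n4 : col y ≠ col z := fun e => h4 (h _ hy _ hz e)
  have n5 : col y ≠ col w := fun e => h5 (h _ hy _ hw e)
  have n6 : col z ≠ col w := fun e => h6 (h _ hz _ hw e)
  intro i j hij
  fin_cases i <;> fin_cases j <;> simp at hij ⊢ <;> first
    | exact absurd hij n1
    | exact absurd hij n2
    | exact absurd hij n3
    | exact absurd hij n4
    | exact absurd hij n5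
    | exact absurd hij n6
    | exact absurd hij.symm n1
    | exact absurd hij.symm n2
    | exact absurd hij.symm n3
    | exact absurd hij.symm n4
    | exact absurd hij.symm n5
    | exact absurd hij.symm n6

lemma evf_swap02 (x y z w : ℤ) : evf ![z, y, x, w] = -evf ![x, y, z, w] := by
  have h := evf_perm ![x, y, z, w] (Equiv.swap 0 2)
  have e : (fun k => (![x, y, z, w] : Fin 4 → ℤ) ((Equiv.swap 0 2 : Equiv.Perm (Fin 4)) k)) =
      ![z, y, x, w] := by
    funext k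
    fin_cases k <;> rfl
  rw [e, Equiv.Perm.sign_swap (by decide)] at h
  simpa using h

lemma evf_swap03 (x y z w : ℤ) : evf ![w, y, z, x] = -evf ![x, y, z, w] := by
  have h := evf_perm ![x, y, z, w] (Equiv.swap 0 3)
  have e : (fun k => (![x, y, z, w] : Fin 4 → ℤ) ((Equiv.swap 0 3 : Equiv.Perm (Fin 4)) k)) =
      ![w, y, z, x] := by
    funext k
    fin_cases k <;> rfl
  rw [e, Equiv.Perm.sign_swap (by decide)] at h
  simpa using h

lemma phi_zero_of {r : ℕ} {M : Finset V} (h : va ∉ M ∨ (∀ s, vb s ∉ M) ∨ (∀ u t, vc u t ∉ M)) :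
    phi r M = 0 := by
  by_contra hne
  obtain ⟨p, _, hp⟩ := phi_ne hne
  obtain ⟨h1, h2, h3⟩ := Fr_subset hp
  rcases h with h | h | h
  · exact h h1
  · exact h _ h2
  · exact h _ _ h3

section Abs

variable {α : Type} [DecidableEq α] {x y z w : α}

lemma er1 (h1 : x ≠ y) (h2 : x ≠ z) (h3 : x ≠ w) :
    ({x, y, z, w} : Finset α).erase x = {y, z, w} :=
  Finset.erase_insert (by simp [h1, h2, h3])

lemma q12 : ({x, y, z, w} : Finset α) = {y, x, z, w} := by
  ext v; simp only [Finset.mem_insert, Finset.mem_singleton]; tauto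

lemma q13 : ({x, y, z, w} : Finset α) = {z, x, y, w} := by
  ext v; simp only [Finset.mem_insert, Finset.mem_singleton]; tauto

lemma q14 : ({x, y, z, w} : Finset α) = {w, x, y, z} := by
  ext v; simp only [Finset.mem_insert, Finset.mem_singleton]; tauto

end Abs

lemma dd_four (f : Finset V → ℤ) {x y z w : V} (h1 : x ≠ y) (h2 : x ≠ z) (h3 : x ≠ w)
    (h4 : y ≠ z) (h5 : y ≠ w) (h6 : z ≠ w) :
    dd f {x, y, z, w} = sg x {x, y, z, w} * f {y, z, w} + (sg y {x, y, z, w} * f {x, z, w} +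
      (sg z {x, y, z, w} * f {x, y, w} + sg w {x, y, z, w} * f {x, y, z})) := by
  unfold dd
  rw [Finset.sum_insert (by simp [h1, h2, h3]), Finset.sum_insert (by simp [h4, h5]),
    Finset.sum_insert (by simp [h6]), Finset.sum_singleton, er1 h1 h2 h3]
  have e2 : ({x, y, z, w} : Finset V).erase y = {x, z, w} := by
    rw [q12, er1 h1.symm h4 h5]
  have e3 : ({x, y, z, w} : Finset V).erase z = {x, y, w} := by
    rw [q13, er1 h2.symm h4.symm h6]
  have e4 : ({x, y, z, w} : Finset V).erase w = {x, y, z} := by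
    rw [q14, er1 h3.symm h5.symm h6.symm]
  rw [e2, e3, e4]

/-- abstract cancellation of the second and third terms -/
lemma canc23 {N : Finset V} (hN : IsCell 2 N) {x y z w : V} (hNd : N = {x, y, z, w})
    (h1 : x ≠ y) (h2 : x ≠ z) (h3 : x ≠ w) (h4 : y ≠ z) (h5 : y ≠ w) (h6 : z ≠ w) :
    sg y N * evf ![col x, col z, col w] + sg z N * evf ![col x, col y, col w] = 0 := by
  have hm1 : x ∈ N := by rw [hNd]; simp
  have hm2 : y ∈ N := by rw [hNd]; simp
  have hm3 : z ∈ N := by rw [hNd]; simp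
  have hm4 : w ∈ N := by rw [hNd]; simp
  have f1 := sg_evf4 (N := N) y x z w (by rw [hNd, q12])
    (cols_inj hN hm2 hm1 hm3 hm4 h1.symm h4 h5 h2 h3 h6)
  have f2 := sg_evf4 (N := N) z x y w (by rw [hNd, q13])
    (cols_inj hN hm3 hm1 hm2 hm4 h2.symm h4.symm h6 h1 h3 h5)
  rw [f1, f2, evf_swap02]
  ring

lemma canc34 {N : Finset V} (hN : IsCell 2 N) {x y z w : V} (hNd : N = {x, y, z, w})
    (h1 : x ≠ y) (h2 : x ≠ z) (h3 : x ≠ w) (h4 : y ≠ z) (h5 : y ≠ w) (h6 : z ≠ w) :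
    sg z N * evf ![col x, col y, col w] + sg w N * evf ![col x, col y, col z] = 0 := by
  have hm1 : x ∈ N := by rw [hNd]; simp
  have hm2 : y ∈ N := by rw [hNd]; simp
  have hm3 : z ∈ N := by rw [hNd]; simp
  have hm4 : w ∈ N := by rw [hNd]; simp
  have f1 := sg_evf4 (N := N) z x y w (by rw [hNd, q13])
    (cols_inj hN hm3 hm1 hm2 hm4 h2.symm h4.symm h6 h1 h3 h5)
  have f2 := sg_evf4 (N := N) w x y z (by rw [hNd, q14])
    (cols_inj hN hm4 hm1 hm2 hm3 h3.symm h5.symm h6.symm h1 h2 h4)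
  rw [f1, f2, evf_swap03]
  ring

/-- cancellation, first type -/
lemma cancel1 {r : ℕ} {s s' u t : ℤ} (hss : s ≠ s')
    (hN : IsCell 2 {va, vb s, vb s', vc u t}) (h1 : (s, u, t) ∈ Bx r) (h2 : (s', u, t) ∈ Bx r) :
    dd (phi r) {va, vb s, vb s', vc u t} = 0 := by
  have n1 := va_ne_vb s
  have n2 := va_ne_vb s'
  have n3 := va_ne_vc u t
  have n4 : vb s ≠ vb s' := fun h => hss (vb_inj h)
  have n5 := vb_ne_vc s u t
  have n6 := vb_ne_vc s' u t
  rw [dd_four _ n1 n2 n3 n4 n5 n6]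
  have e1 : phi r {vb s, vb s', vc u t} = 0 := by
    apply phi_zero_of
    left
    rw [Finset.mem_insert, Finset.mem_insert, Finset.mem_singleton]
    rintro (h | h | h)
    · exact n1 h
    · exact n2 h
    · exact n3 h
  have e4 : phi r {va, vb s, vb s'} = 0 := by
    apply phi_zero_of
    right; right
    intro u' t'
    rw [Finset.mem_insert, Finset.mem_insert, Finset.mem_singleton]
    rintro (h | h | h)
    · exact va_ne_vc _ _ h.symm
    · exact vb_ne_vc _ _ _ h.symm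
    · exact vb_ne_vc _ _ _ h.symm
  have e2 : phi r {va, vb s', vc u t} = sgm (s', u, t) := by
    have := phi_Fr r (s', u, t)
    rwa [if_pos h2] at this
  have e3 : phi r {va, vb s, vc u t} = sgm (s, u, t) := by
    have := phi_Fr r (s, u, t)
    rwa [if_pos h1] at this
  rw [e1, e4, e2, e3, mul_zero, mul_zero, zero_add, add_zero]
  exact canc23 hN rfl n1 n2 n3 n4 n5 n6

/-- cancellation, second type -/
lemma cancel2 {r : ℕ} {s u t u' t' : ℤ} (hss : (u, t) ≠ (u', t'))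
    (hN : IsCell 2 {va, vb s, vc u t, vc u' t'}) (h1 : (s, u, t) ∈ Bx r)
    (h2 : (s, u', t') ∈ Bx r) :
    dd (phi r) {va, vb s, vc u t, vc u' t'} = 0 := by
  have n1 := va_ne_vb s
  have n2 := va_ne_vc u t
  have n3 := va_ne_vc u' t'
  have n4 := vb_ne_vc s u t
  have n5 := vb_ne_vc s u' t'
  have n6 : vc u t ≠ vc u' t' := fun h => hss (by
    obtain ⟨a, b⟩ := vc_inj h
    rw [a, b])
  rw [dd_four _ n1 n2 n3 n4 n5 n6]
  have e1 : phi r {vb s, vc u t, vc u' t'} = 0 := by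
    apply phi_zero_of
    left
    rw [Finset.mem_insert, Finset.mem_insert, Finset.mem_singleton]
    rintro (h | h | h)
    · exact n1 h
    · exact n2 h
    · exact n3 h
  have e4 : phi r {va, vc u t, vc u' t'} = 0 := by
    apply phi_zero_of
    right; left
    intro s'
    rw [Finset.mem_insert, Finset.mem_insert, Finset.mem_singleton]
    rintro (h | h | h)
    · exact va_ne_vb _ h.symm
    · exact vb_ne_vc _ _ _ h
    · exact vb_ne_vc _ _ _ h
  have e2 : phi r {va, vb s, vc u' t'} = sgm (s, u', t') := by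
    have := phi_Fr r (s, u', t')
    rwa [if_pos h2] at this
  have e3 : phi r {va, vb s, vc u t} = sgm (s, u, t) := by
    have := phi_Fr r (s, u, t)
    rwa [if_pos h1] at this
  rw [e1, e4, e2, e3, mul_zero, mul_zero, zero_add, zero_add]
  exact canc34 hN rfl n1 n2 n3 n4 n5 n6

/-- the part of the box near its boundary -/
noncomputable def DD (r : ℕ) : Finset (ℤ × ℤ × ℤ) :=
  ({0, (r : ℤ) - 1} ×ˢ (Finset.Ico 0 (r : ℤ) ×ˢ Finset.Ico 0 ((r : ℤ) ^ 2))) ∪
  ((Finset.Ico 0 (r : ℤ) ×ˢ (({0, (r : ℤ) - 1} : Finset ℤ) ×ˢ Finset.Ico 0 ((r : ℤ) ^ 2))) ∪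
  (Finset.Ico 0 (r : ℤ) ×ˢ (Finset.Ico 0 (r : ℤ) ×ˢ
    (Finset.Ico 0 (r : ℤ) ∪ Finset.Ico ((r : ℤ) ^ 2 - r) ((r : ℤ) ^ 2)))))

lemma card_DD (r : ℕ) : (DD r).card ≤ 6 * r ^ 3 := by
  have h1 : ((r : ℤ) ^ 2).toNat = r ^ 2 := by
    rw [← Nat.cast_pow, Int.toNat_natCast]
  have h2 : ({0, (r : ℤ) - 1} : Finset ℤ).card ≤ 2 := Finset.card_le_two
  have h3 : (Finset.Ico 0 (r : ℤ) ∪ Finset.Ico ((r : ℤ) ^ 2 - r) ((r : ℤ) ^ 2)).card ≤ 2 * r := by
    refine (Finset.card_union_le _ _).trans ?_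
    simp only [Int.card_Ico, sub_zero, Int.toNat_natCast, sub_sub_cancel]
    omega
  unfold DD
  refine (Finset.card_union_le _ _).trans ?_
  refine (Nat.add_le_add_left (Finset.card_union_le _ _) _).trans ?_
  simp only [Finset.card_product, Int.card_Ico, sub_zero, Int.toNat_natCast, h1]
  calc ({0, (r : ℤ) - 1} : Finset ℤ).card * (r * r ^ 2) +
      (r * (({0, (r : ℤ) - 1} : Finset ℤ).card * r ^ 2) +
      r * (r * (Finset.Ico 0 (r : ℤ) ∪ Finset.Ico ((r : ℤ) ^ 2 - r) ((r : ℤ) ^ 2)).card))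
      ≤ 2 * (r * r ^ 2) + (r * (2 * r ^ 2) + r * (r * (2 * r))) := by gcongr
    _ = 6 * r ^ 3 := by ring

end Pool.Agent.H.MP_e5d137_al.G3
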