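import Pool.Agent.H.MP_e5d137_al.G3.IsoIneq

/-!
# Mass inequality
-/

namespace Pool.Agent.H.MP_e5d137_al.G3

open Matrix Finsupp

open Classical in
/-- frames with large coefficient, sorted -/
noncomputable def TT (c : Cell 3 →₀ ℤ) (k : ℕ) : Finset (V × V × V) :=
  (c.support.filter (fun M => k ≤ (c M).natAbs)).image srt

open Classical in
/-- flags of the frames with large coefficient -/
noncomputable def EE (c : Cell 3 →₀ ℤ) (k : ℕ) : Finset (V × V) :=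
  (TT c k).image (fun t => (t.1, nrm (cr t.2.1 t.2.2))) ∪
    (TT c k).image (fun t => (t.2.2, nrm (cr t.1 t.2.1)))

lemma TT_spec {c : Cell 3 →₀ ℤ} {k : ℕ} {t : V × V × V} (ht : t ∈ TT c k) :
    Pos t.1 ∧ Pos (t.2.1 - t.1) ∧ Pos (t.2.2 - t.2.1) ∧
    (dt t.1 t.2.1 t.2.2 = 1 ∨ dt t.1 t.2.1 t.2.2 = -1) ∧
    k ≤ (ex c {t.1, t.2.1, t.2.2}).natAbs := by
  classical
  obtain ⟨M, hM, rfl⟩ := Finset.mem_image.1 ht
  obtain ⟨h1, h2⟩ := Finset.mem_filter.1 hM
  obtain ⟨e1, e2, e3, e4, e5⟩ := srt_spec M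
  refine ⟨e2, e3, e4, e5, ?_⟩
  rw [← e1, ex_cell]
  exact h2

lemma TT_frm {c : Cell 3 →₀ ℤ} {k : ℕ} {t : V × V × V} (ht : t ∈ TT c k) : Frm (EE c k) t := by
  classical
  obtain ⟨h1, h2, h3, h4, _⟩ := TT_spec ht
  exact ⟨h1, h2, h3, h4, Finset.mem_union_left _ (Finset.mem_image.2 ⟨t, ht, rfl⟩),
    Finset.mem_union_right _ (Finset.mem_image.2 ⟨t, ht, rfl⟩)⟩

/-- every flag of `EE` comes from an oriented frame -/
lemma EE_spec {c : Cell 3 →₀ ℤ} {k : ℕ} {p : V × V} (hp : p ∈ EE c k) :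
    ∃ y z : V, Pos p.1 ∧ Pos y ∧ Pos z ∧ (dt p.1 y z = 1 ∨ dt p.1 y z = -1) ∧
      p.2 = nrm (cr y z) ∧ k ≤ (ex c {p.1, y, z}).natAbs := by
  classical
  rcases Finset.mem_union.1 hp with h | h
  · obtain ⟨t, ht, rfl⟩ := Finset.mem_image.1 h
    have hF := TT_frm ht
    obtain ⟨h1, _, _, h4, h5⟩ := TT_spec ht
    exact ⟨t.2.1, t.2.2, h1, hF.pb, hF.pc, h4, rfl, h5⟩
  · obtain ⟨t, ht, rfl⟩ := Finset.mem_image.1 h
    have hF := TT_frm ht
    obtain ⟨h1, _, _, h4, h5⟩ := TT_spec ht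
    refine ⟨t.1, t.2.1, hF.pc, h1, hF.pb, ?_, rfl, ?_⟩
    · show dt t.2.2 t.1 t.2.1 = 1 ∨ dt t.2.2 t.1 t.2.1 = -1
      rw [← dt_cyc]
      exact h4
    · show k ≤ (ex c {t.2.2, t.1, t.2.1}).natAbs
      have : ({t.2.2, t.1, t.2.1} : Finset V) = {t.1, t.2.1, t.2.2} := by
        ext w
        simp only [Finset.mem_insert, Finset.mem_singleton]
        tauto
      rw [this]
      exact h5

lemma EE_pr {c : Cell 3 →₀ ℤ} {k : ℕ} {p : V × V} (hp : p ∈ EE c k) :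
    Pr p.2 ∧ p.2 ⬝ᵥ p.1 ≠ 0 := by
  obtain ⟨y, z, _, _, _, h4, h5, _⟩ := EE_spec hp
  have h6 : p.1 ⬝ᵥ cr y z = 1 ∨ p.1 ⬝ᵥ cr y z = -1 := by
    rw [← dt_eq_dot]; exact h4
  rw [h5]
  refine ⟨pr_nrm h6, ?_⟩
  rw [dotProduct_comm] at h6
  rcases nrm_dot (cr y z) p.1 with h7 | h7 <;> rw [h7] <;> rcases h6 with h8 | h8 <;> rw [h8] <;>
    norm_num

lemma Q_R {x y z : V} {N : Finset V} (h : Q x y z N) : R (x, nrm (cr y z)) N := by
  refine ⟨h.1, fun w hw hwx => ?_⟩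
  obtain ⟨p, q, rfl⟩ := h.2 w hw hwx
  have h1 : cr y z ⬝ᵥ ((p : ℤ) • y + (q : ℤ) • z) = 0 := by
    rw [dotProduct_add, dotProduct_smul, dotProduct_smul, dotProduct_comm _ y,
      dotProduct_comm _ z, dot_cr_left, dot_cr_right]
    simp
  show nrm (cr y z) ⬝ᵥ _ = 0
  rcases nrm_dot (cr y z) ((p : ℤ) • y + (q : ℤ) • z) with h2 | h2 <;> rw [h2, h1]
  rfl

open Classical in
lemma EE_card (c : Cell 3 →₀ ℤ) (k : ℕ) : (EE c k).card * k ≤ mass (bdW 2 c) := by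
  have h1 : ∀ p ∈ EE c k, k ≤ ∑ N ∈ (bdW 2 c).support.filter (fun N => R p N.1),
      (bdW 2 c N).natAbs := by
    intro p hp
    obtain ⟨y, z, hx, hy, hz, hd, h5, h6⟩ := EE_spec hp
    refine h6.trans ((cone_bound c _ p.1 y z le_rfl hx hy hz hd).trans ?_)
    unfold AA
    apply Finset.sum_le_sum_of_subset
    intro N hN
    obtain ⟨a1, a2⟩ := Finset.mem_filter.1 hN
    refine Finset.mem_filter.2 ⟨a1, ?_⟩
    have := Q_R a2
    rw [← h5] at this
    exact this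
  calc (EE c k).card * k = ∑ p ∈ EE c k, k := by rw [Finset.sum_const, smul_eq_mul]
    _ ≤ ∑ p ∈ EE c k, ∑ N ∈ (bdW 2 c).support.filter (fun N => R p N.1),
        (bdW 2 c N).natAbs := Finset.sum_le_sum h1
    _ = ∑ N ∈ (bdW 2 c).support, ∑ p ∈ (EE c k).filter (fun p => R p N.1),
        (bdW 2 c N).natAbs := by
        simp only [Finset.sum_filter]
        rw [Finset.sum_comm]
    _ ≤ ∑ N ∈ (bdW 2 c).support, (bdW 2 c N).natAbs := by
        apply Finset.sum_le_sum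
        intro N _
        rw [Finset.sum_const, smul_eq_mul]
        have : ((EE c k).filter (fun p => R p N.1)).card ≤ 1 := by
          rw [Finset.card_le_one]
          intro p hp p' hp'
          obtain ⟨a1, a2⟩ := Finset.mem_filter.1 hp
          obtain ⟨b1, b2⟩ := Finset.mem_filter.1 hp'
          exact R_unique (EE_pr a1).1 (EE_pr b1).1 (EE_pr a1).2 a2 b2
        calc _ ≤ 1 * (bdW 2 c N).natAbs := Nat.mul_le_mul_right _ this
          _ = _ := one_mul _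
    _ = mass (bdW 2 c) := rfl

/-- the isoperimetric inequality -/
theorem mass_ineq (c : Cell 3 →₀ ℤ) :
    (mass c : ℝ) ≤ 20 * Z * Z * (mass (bdW 2 c) : ℝ) ^ ((4 : ℝ) / 3) := by
  classical
  set A : ℝ := (mass (bdW 2 c) : ℝ) with hA
  set n : ℕ := mass c with hn
  have h1 : mass c = ∑ k ∈ Finset.Icc 1 n, (c.support.filter (fun M => k ≤ (c M).natAbs)).card := by
    apply level_sum c.support (fun M => (c M).natAbs) n
    intro M hM
    exact Finset.single_le_sum (f := fun M => (c M).natAbs) (fun _ _ => Nat.zero_le _) hM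
  have h2 : ∀ k ∈ Finset.Icc 1 n,
      ((c.support.filter (fun M => k ≤ (c M).natAbs)).card : ℝ) ≤
        20 * Z * (A / k) ^ ((4 : ℝ) / 3) := by
    intro k hk
    have hk1 : 1 ≤ k := (Finset.mem_Icc.1 hk).1
    have hkr : (0 : ℝ) < k := by exact_mod_cast hk1
    have h3 : (c.support.filter (fun M => k ≤ (c M).natAbs)).card = (TT c k).card := by
      unfold TT
      rw [Finset.card_image_of_injective _ srt_inj]
    rw [h3]
    refine (frame_ineq (TT c k) (EE c k) (fun t ht => TT_frm ht)).trans ?_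
    have h4 : ((EE c k).card : ℝ) ≤ A / k := by
      rw [le_div_iff₀ hkr, hA]
      have := EE_card c k
      exact_mod_cast this
    exact mul_le_mul_of_nonneg_left (Real.rpow_le_rpow (Nat.cast_nonneg _) h4 (by norm_num))
      (mul_nonneg (by norm_num) Z_nonneg)
  have h5 : (mass c : ℝ) = ∑ k ∈ Finset.Icc 1 n,
      ((c.support.filter (fun M => k ≤ (c M).natAbs)).card : ℝ) := by exact_mod_cast h1
  rw [hn, h5]
  calc ∑ k ∈ Finset.Icc 1 n, ((c.support.filter (fun M => k ≤ (c M).natAbs)).card : ℝ)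
      ≤ ∑ k ∈ Finset.Icc 1 n, 20 * Z * (A / k) ^ ((4 : ℝ) / 3) := Finset.sum_le_sum h2
    _ = 20 * Z * ∑ k ∈ Finset.Icc 1 n, (A / k) ^ ((4 : ℝ) / 3) := by rw [← Finset.mul_sum]
    _ ≤ 20 * Z * (A ^ ((4 : ℝ) / 3) * Z) := by
        have hZ := Z_nonneg
        gcongr
        exact zeta_sum (by positivity) n
    _ = _ := by ring

end Pool.Agent.H.MP_e5d137_al.G3
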