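import Mathlib

/-!
# Straight line drawings without crossings have at most three edges per vertex
-/

namespace Pool.Agent.H.MP_e5d137_al.G3

section Affine

lemma aff_pos {α β p q t : ℝ} (h : ∀ s, p < s → s < q → α * s + β ≠ 0) (hq : 0 < α * q + β)
    (h1 : p < t) (h2 : t < q) : 0 < α * t + β := by
  by_contra hcon
  have h3 : α * t + β < 0 := lt_of_le_of_ne (not_lt.1 hcon) (h t h1 h2)
  have h4 : 0 < α * (q - t) := by linarith
  have hα : 0 < α := by
    by_contra hα
    have : α * (q - t) ≤ 0 := mul_nonpos_of_nonpos_of_nonneg (not_lt.1 hα) (by linarith)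
    linarith
  apply h (-β / α)
  · have : t < -β / α := by
      rw [lt_div_iff₀ hα]
      linarith
    linarith
  · rw [div_lt_iff₀ hα]
    linarith
  · field_simp
    ring

lemma aff_limit {α β p q : ℝ} (hpq : p < q) (h : ∀ s, p < s → s < q → 0 < α * s + β) :
    0 ≤ α * p + β := by
  by_contra hcon
  push Not at hcon
  have h1 := h ((p + q) / 2) (by linarith) (by linarith)
  have hα : 0 < α := by
    by_contra hα
    have h2 : α * ((q - p) / 2) ≤ 0 :=
      mul_nonpos_of_nonpos_of_nonneg (not_lt.1 hα) (by linarith)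
    nlinarith
  -- the zero lies strictly between p and the midpoint
  have h3 : p < -β / α := by
    rw [lt_div_iff₀ hα]
    linarith
  have h4 : -β / α < (p + q) / 2 := by
    rw [div_lt_iff₀ hα]
    linarith
  have h5 := h (-β / α) h3 (by linarith)
  have h6 : α * (-β / α) + β = 0 := by
    field_simp
    ring
  linarith

end Affine

/-- A straight line drawing: vertices `P` with coordinates `X`, `Y`, edges `E`, the edge `e`
goes from `l e` to `r e` (from left to right) on the line of slope `a e` and intercept `b e`;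
no vertex lies in the interior of an edge. -/
structure Drw {ι ε : Type} (X Y : ι → ℝ) (l r : ε → ι) (a b : ε → ℝ) (P : Finset ι)
    (E : Finset ε) : Prop where
  inj : ∀ u ∈ P, ∀ v ∈ P, X u = X v → u = v
  lP : ∀ e ∈ E, l e ∈ P
  rP : ∀ e ∈ E, r e ∈ P
  lt : ∀ e ∈ E, X (l e) < X (r e)
  ly : ∀ e ∈ E, Y (l e) = a e * X (l e) + b e
  ry : ∀ e ∈ E, Y (r e) = a e * X (r e) + b e
  nv : ∀ e ∈ E, ∀ w ∈ P, X (l e) < X w → X w < X (r e) → Y w ≠ a e * X w + b e

/-- crossing edges -/
def Crs {ι ε : Type} (X : ι → ℝ) (l r : ε → ι) (a b : ε → ℝ) (e f : ε) : Prop :=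
  e ≠ f ∧ ∃ t, X (l e) < t ∧ t < X (r e) ∧ X (l f) < t ∧ t < X (r f) ∧
    a e * t + b e = a f * t + b f

section Plane

variable {ι ε : Type} {X Y : ι → ℝ} {l r : ε → ι} {a b : ε → ℝ} {P : Finset ι} {E : Finset ε}

/-- the configuration used in the charging argument -/
structure Wdg (X Y : ι → ℝ) (l r : ε → ι) (a b : ε → ℝ) (P : Finset ι) (E : Finset ε)
    (e f : ε) (w : ι) : Prop where
  fE : f ∈ E
  lf : l f = l e
  sl : a f < a e
  nb : ∀ g ∈ E, l g = l e → a f < a g → a g < a e → False
  wP : w ∈ P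
  x1 : X (l e) < X w
  x2 : X w ≤ X (r e)
  x3 : X w ≤ X (r f)
  y1 : a f * X w + b f ≤ Y w
  y2 : Y w ≤ a e * X w + b e
  mn : ∀ w' ∈ P, X (l e) < X w' → X w' < X w → a f * X w' + b f ≤ Y w' →
    Y w' ≤ a e * X w' + b e → False

variable (hD : Drw X Y l r a b P E)
  (hC : ∀ e ∈ E, ∀ f ∈ E, ¬ Crs X l r a b e f)

include hD hC

omit hD in
lemma crs_ne {e f : ε} (he : e ∈ E) (hf : f ∈ E) (hef : e ≠ f) {t : ℝ} (h1 : X (l e) < t)
    (h2 : t < X (r e)) (h3 : X (l f) < t) (h4 : t < X (r f)) :
    a e * t + b e ≠ a f * t + b f := fun h =>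
  hC e he f hf ⟨hef, t, h1, h2, h3, h4, h⟩

/-- two edges with the same left end and the same slope are equal -/
lemma eq_of_slope {e f : ε} (he : e ∈ E) (hf : f ∈ E) (hl : l e = l f) (ha : a e = a f) :
    e = f := by
  by_contra hef
  have h1 := hD.ly e he
  have h2 := hD.ly f hf
  have hb : b e = b f := by
    rw [hl, ha] at h1
    linarith
  have h3 := hD.lt e he
  have h4 := hD.lt f hf
  set m := min (X (r e)) (X (r f)) with hm
  have h5 : X (l e) < m := lt_min h3 (by rw [hl]; exact h4)
  have h6 : m ≤ X (r e) := min_le_left _ _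
  have h7 : m ≤ X (r f) := min_le_right _ _
  refine crs_ne hC he hf hef (t := (X (l e) + m) / 2) (by linarith) (by linarith)
    (by rw [← hl]; linarith) (by linarith) ?_
  rw [ha, hb]

lemma eq_of_ends {e f : ε} (he : e ∈ E) (hf : f ∈ E) (hl : l e = l f) (hr : r e = r f) :
    e = f := by
  apply eq_of_slope hD hC he hf hl
  have h1 := hD.ly e he
  have h2 := hD.ly f hf
  have h3 := hD.ry e he
  have h4 := hD.ry f hf
  have h5 := hD.lt e he
  rw [hl] at h1 h5
  rw [hr] at h3 h5
  have h6 : (a e - a f) * (X (r f) - X (l f)) = 0 := by linarith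
  rcases mul_eq_zero.1 h6 with h7 | h7
  · linarith
  · linarith

/-- the key lemma: no edge passes through the wedge strictly between `f` and `e` above `w` -/
lemma core {e f : ε} {w : ι} (he : e ∈ E) (hW : Wdg X Y l r a b P E e f w) {g : ε} (hg : g ∈ E)
    (h1 : X (l g) < X w) (h2 : X w < X (r g)) (h3 : a f * X w + b f < a g * X w + b g)
    (h4 : a g * X w + b g < a e * X w + b e) : False := by
  have hge : g ≠ e := by
    rintro rfl
    exact lt_irrefl _ h4
  have hgf : g ≠ f := by
    rintro rfl
    exact lt_irrefl _ h3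
  set p := max (X (l e)) (X (l g)) with hp
  have hpw : p < X w := max_lt hW.x1 h1
  have hpe : X (l e) ≤ p := le_max_left _ _
  have hpg : X (l g) ≤ p := le_max_right _ _
  have hlf : X (l f) = X (l e) := by rw [hW.lf]
  have k1 : ∀ s, p < s → s < X w → 0 < (a e - a g) * s + (b e - b g) := by
    intro s hs1 hs2
    refine aff_pos (p := p) (q := X w) (fun s' hs1' hs2' => ?_) (by linarith) hs1 hs2
    have := crs_ne hC he hg hge.symm (t := s') (by linarith) (by linarith [hW.x2]) (by linarith)
      (by linarith)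
    intro h
    apply this
    linarith
  have k2 : ∀ s, p < s → s < X w → 0 < (a g - a f) * s + (b g - b f) := by
    intro s hs1 hs2
    refine aff_pos (p := p) (q := X w) (fun s' hs1' hs2' => ?_) (by linarith) hs1 hs2
    have := crs_ne hC hg hW.fE hgf (t := s') (by linarith) (by linarith) (by linarith)
      (by linarith [hW.x3])
    intro h
    apply this
    linarith
  have m1 := aff_limit hpw k1
  have m2 := aff_limit hpw k2
  by_cases hcase : X (l e) < X (l g)
  · have hpp : p = X (l g) := max_eq_right hcase.le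
    have h5 := hD.ly g hg
    rw [hpp] at m1 m2
    exact hW.mn (l g) (hD.lP g hg) hcase h1 (by linarith) (by linarith)
  · have hpp : p = X (l e) := max_eq_left (not_lt.1 hcase)
    rw [hpp] at m1 m2
    have h5 := hD.ly e he
    have h6 := hD.ly f hW.fE
    rw [hW.lf] at h6
    have h7 : Y (l e) = a g * X (l e) + b g := by linarith
    rcases (not_lt.1 hcase).lt_or_eq with h8 | h8
    · exact hD.nv g hg (l e) (hD.lP e he) h8 (by linarith [hW.x1]) h7
    · have h9 : l g = l e := hD.inj _ (hD.lP g hg) _ (hD.lP e he) h8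
      have hx := hW.x1
      refine hW.nb g hg h9 ?_ ?_
      · have : 0 < (a g - a f) * (X w - X (l e)) := by linarith
        have h10 : 0 < a g - a f := by
          by_contra hcon
          have := mul_nonpos_of_nonpos_of_nonneg (not_lt.1 hcon) (by linarith : 0 ≤ X w - X (l e))
          linarith
        linarith
      · have : 0 < (a e - a g) * (X w - X (l e)) := by linarith
        have h10 : 0 < a e - a g := by
          by_contra hcon
          have := mul_nonpos_of_nonpos_of_nonneg (not_lt.1 hcon) (by linarith : 0 ≤ X w - X (l e))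
          linarith
        linarith

omit hC in
lemma exists_wedge {e : ε} (he : e ∈ E) (hlow : ∃ f ∈ E, l f = l e ∧ a f < a e) :
    ∃ f w, Wdg X Y l r a b P E e f w := by
  classical
  obtain ⟨f0, hf0, hf01, hf02⟩ := hlow
  obtain ⟨f, hf, hmax⟩ := Finset.exists_max_image (E.filter (fun f => l f = l e ∧ a f < a e)) a
    ⟨f0, Finset.mem_filter.2 ⟨hf0, hf01, hf02⟩⟩
  obtain ⟨hfE, hlf, hsl⟩ := Finset.mem_filter.1 hf
  have h5 := hD.ly e he
  have h6 := hD.ly f hfE
  rw [hlf] at h6
  have h7 := hD.lt e he
  have h8 := hD.lt f hfE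
  rw [hlf] at h8
  have hcmp : ∀ t, X (l e) < t → a f * t + b f ≤ a e * t + b e := by
    intro t ht
    have : 0 ≤ (a e - a f) * (t - X (l e)) := mul_nonneg (by linarith) (by linarith)
    linarith
  have hne : (P.filter (fun w => X (l e) < X w ∧ X w ≤ X (r e) ∧ X w ≤ X (r f) ∧
      a f * X w + b f ≤ Y w ∧ Y w ≤ a e * X w + b e)).Nonempty := by
    rcases le_total (X (r e)) (X (r f)) with h | h
    · refine ⟨r e, Finset.mem_filter.2 ⟨hD.rP e he, h7, le_rfl, h, ?_, ?_⟩⟩
      · rw [hD.ry e he]
        exact hcmp _ h7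
      · rw [hD.ry e he]
    · refine ⟨r f, Finset.mem_filter.2 ⟨hD.rP f hfE, h8, h, le_rfl, ?_, ?_⟩⟩
      · rw [hD.ry f hfE]
      · rw [hD.ry f hfE]
        exact hcmp _ h8
  obtain ⟨w, hw, hmin⟩ := Finset.exists_min_image _ X hne
  obtain ⟨hwP, w1, w2, w3, w4, w5⟩ := Finset.mem_filter.1 hw
  refine ⟨f, w, hfE, hlf, hsl, ?_, hwP, w1, w2, w3, w4, w5, ?_⟩
  · intro g hg hlg h9 h10
    have := hmax g (Finset.mem_filter.2 ⟨hg, hlg, h10⟩)
    linarith
  · intro w' hw' h9 h10 h11 h12
    have := hmin w' (Finset.mem_filter.2 ⟨hw', h9, by linarith, by linarith, h11, h12⟩)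
    linarith

/-- a drawing without crossings has at most three edges per vertex -/
theorem planar_bound : E.card ≤ 3 * P.card := by
  classical
  set E1 := E.filter (fun e => ∃ f ∈ E, l f = l e ∧ a f < a e) with hE1
  have h0 : (E \ E1).card ≤ P.card := by
    apply Finset.card_le_card_of_injOn l
    · intro e he
      exact hD.lP e (Finset.mem_sdiff.1 he).1
    · intro e he f hf hef
      obtain ⟨he1, he2⟩ := Finset.mem_sdiff.1 (Finset.mem_coe.1 he)
      obtain ⟨hf1, hf2⟩ := Finset.mem_sdiff.1 (Finset.mem_coe.1 hf)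
      rcases lt_trichotomy (a e) (a f) with h | h | h
      · exact absurd (Finset.mem_filter.2 ⟨hf1, e, he1, hef, h⟩) hf2
      · exact eq_of_slope hD hC he1 hf1 hef h
      · exact absurd (Finset.mem_filter.2 ⟨he1, f, hf1, hef.symm, h⟩) he2
  have hw : ∀ e, ∃ fw : ε × ι, e ∈ E1 → Wdg X Y l r a b P E e fw.1 fw.2 := by
    intro e
    by_cases he : e ∈ E1
    · obtain ⟨he1, he2⟩ := Finset.mem_filter.1 he
      obtain ⟨f, w, h⟩ := exists_wedge hD he1 he2
      exact ⟨(f, w), fun _ => h⟩
    · exact ⟨(e, l e), fun h => absurd h he⟩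
  choose fw hfw using hw
  have h1 : E1.card ≤ (P ×ˢ (Finset.univ : Finset Bool)).card := by
    apply Finset.card_le_card_of_injOn (fun e => ((fw e).2, decide ((fw e).2 = r e)))
    · intro e he
      have := hfw e he
      exact Finset.mem_coe.2 (Finset.mem_product.2 ⟨this.wP, Finset.mem_univ _⟩)
    · intro e1 he1 e2 he2 heq
      have hW1 := hfw e1 he1
      have hW2 := hfw e2 he2
      have he1' : e1 ∈ E := (Finset.mem_filter.1 (Finset.mem_coe.1 he1)).1
      have he2' : e2 ∈ E := (Finset.mem_filter.1 (Finset.mem_coe.1 he2)).1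
      obtain ⟨hw12, hflag⟩ := Prod.ext_iff.1 heq
      simp only at hw12 hflag
      rw [decide_eq_decide] at hflag
      rw [← hw12] at hW2 hflag
      set w := (fw e1).2 with hwdef
      set f1 := (fw e1).1
      set f2 := (fw e2).1
      by_cases hfl : w = r e1
      · -- both end at w
        have hfl2 : w = r e2 := hflag.1 hfl
        have key : ∀ e f : ε, e ∈ E → Wdg X Y l r a b P E e f w → w = r e →
            X w < X (r f) ∧ a f * X w + b f < Y w ∧ Y w = a e * X w + b e := by
          intro e f he hW hwe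
          have hy : Y w = a e * X w + b e := by rw [hwe]; exact hD.ry e he
          refine ⟨lt_of_le_of_ne hW.x3 ?_, ?_, hy⟩
          · intro h
            have h2 : w = r f := hD.inj _ hW.wP _ (hD.rP f hW.fE) h
            have h3 := eq_of_ends hD hC he hW.fE hW.lf.symm (by rw [← hwe, h2])
            have h4 := hW.sl
            rw [h3] at h4
            exact lt_irrefl _ h4
          · rw [hy]
            have h5 := hD.ly e he
            have h6 := hD.ly f hW.fE
            rw [hW.lf] at h6
            have : 0 < (a e - a f) * (X w - X (l e)) :=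
              mul_pos (by linarith [hW.sl]) (by linarith [hW.x1])
            linarith
        obtain ⟨p1, p2, p3⟩ := key e1 f1 he1' hW1 hfl
        obtain ⟨q1, q2, q3⟩ := key e2 f2 he2' hW2 hfl2
        have hlf1 : X (l f1) < X w := by rw [hW1.lf]; exact hW1.x1
        have hlf2 : X (l f2) < X w := by rw [hW2.lf]; exact hW2.x1
        have hff : f1 = f2 := by
          rcases lt_trichotomy (a f1 * X w + b f1) (a f2 * X w + b f2) with h | h | h
          · exact (core hD hC he1' hW1 hW2.fE hlf2 q1 h (by linarith)).elim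
          · by_contra hne
            exact crs_ne hC hW1.fE hW2.fE hne hlf1 p1 hlf2 q1 h
          · exact (core hD hC he2' hW2 hW1.fE hlf1 p1 h (by linarith)).elim
        apply eq_of_ends hD hC he1' he2'
        · rw [← hW1.lf, ← hW2.lf, hff]
        · rw [← hfl, ← hfl2]
      · have hfl2 : ¬ w = r e2 := fun h => hfl (hflag.2 h)
        have key : ∀ e f : ε, e ∈ E → Wdg X Y l r a b P E e f w → ¬ w = r e →
            X w < X (r e) ∧ Y w < a e * X w + b e := by
          intro e f he hW hwe
          have h1 : X w < X (r e) := lt_of_le_of_ne hW.x2 (fun h =>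
            hwe (hD.inj _ hW.wP _ (hD.rP e he) h))
          exact ⟨h1, lt_of_le_of_ne hW.y2 (hD.nv e he w hW.wP hW.x1 h1)⟩
        obtain ⟨p1, p2⟩ := key e1 f1 he1' hW1 hfl
        obtain ⟨q1, q2⟩ := key e2 f2 he2' hW2 hfl2
        rcases lt_trichotomy (a e1 * X w + b e1) (a e2 * X w + b e2) with h | h | h
        · exact (core hD hC he2' hW2 he1' hW1.x1 p1 (by linarith [hW2.y1]) h).elim
        · by_contra hne
          exact crs_ne hC he1' he2' hne hW1.x1 p1 hW2.x1 q1 h
        · exact (core hD hC he1' hW1 he2' hW2.x1 q1 (by linarith [hW1.y1]) h).elim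
  have h2 : E1 ⊆ E := Finset.filter_subset _ _
  have h3 := Finset.card_sdiff_add_card_eq_card h2
  rw [Finset.card_product, Finset.card_univ, Fintype.card_bool] at h1
  omega

end Plane

end Pool.Agent.H.MP_e5d137_al.G3
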