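import Pool.Agent.H.MP_e5d137_al.G3.Planar

/-!
# The crossing lemma and the Szemerédi-Trotter theorem
-/

namespace Pool.Agent.H.MP_e5d137_al.G3

section Sampling

variable {ι ε : Type}

/-- probability weight of a subset -/
noncomputable def wt (p : ℝ) (P S : Finset ι) : ℝ := p ^ S.card * (1 - p) ^ (P.card - S.card)

lemma sum_wt_superset [DecidableEq ι] (p : ℝ) (P T : Finset ι) (hT : T ⊆ P) :
    ∑ S ∈ P.powerset.filter (fun S => T ⊆ S), wt p P S = p ^ T.card := by
  have h1 : P.powerset.filter (fun S => T ⊆ S) = (P \ T).powerset.image (fun S => T ∪ S) := by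
    ext S
    simp only [Finset.mem_filter, Finset.mem_powerset, Finset.mem_image]
    constructor
    · rintro ⟨h1, h2⟩
      exact ⟨S \ T, Finset.sdiff_subset_sdiff h1 le_rfl, Finset.union_sdiff_of_subset h2⟩
    · rintro ⟨S', h1, rfl⟩
      exact ⟨Finset.union_subset hT (h1.trans Finset.sdiff_subset), Finset.subset_union_left⟩
  rw [h1, Finset.sum_image]
  · have h2 : ∀ S ∈ (P \ T).powerset, wt p P (T ∪ S) =
        p ^ T.card * (p ^ S.card * (1 - p) ^ ((P \ T).card - S.card)) := by
      intro S hS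
      rw [Finset.mem_powerset] at hS
      have hd : Disjoint T S := by
        rw [Finset.disjoint_left]
        intro x hx hx'
        exact (Finset.mem_sdiff.1 (hS hx')).2 hx
      unfold wt
      rw [Finset.card_union_of_disjoint hd, Finset.card_sdiff_of_subset hT, pow_add, mul_assoc]
      congr 3
      omega
    rw [Finset.sum_congr rfl h2, ← Finset.mul_sum, Finset.sum_pow_mul_eq_add_pow]
    simp
  · intro S hS S' hS' h
    have hS1 := Finset.mem_powerset.1 (Finset.mem_coe.1 hS)
    have hS2 := Finset.mem_powerset.1 (Finset.mem_coe.1 hS')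
    have key : ∀ U : Finset ι, U ⊆ P \ T → (T ∪ U) \ T = U := by
      intro U hU
      ext x
      simp only [Finset.mem_sdiff, Finset.mem_union]
      constructor
      · rintro ⟨h | h, h'⟩
        · exact absurd h h'
        · exact h
      · intro h
        exact ⟨Or.inr h, (Finset.mem_sdiff.1 (hU h)).2⟩
    rw [← key S hS1, ← key S' hS2]
    simp only at h
    rw [h]

lemma sum_wt_count [DecidableEq ι] (p : ℝ) (P : Finset ι) (E : Finset ε) (T : ε → Finset ι)
    (hT : ∀ e ∈ E, T e ⊆ P) :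
    ∑ S ∈ P.powerset, wt p P S * ((E.filter (fun e => T e ⊆ S)).card : ℝ) =
      ∑ e ∈ E, p ^ (T e).card := by
  have h1 : ∀ S : Finset ι, ((E.filter (fun e => T e ⊆ S)).card : ℝ) =
      ∑ e ∈ E, if T e ⊆ S then (1 : ℝ) else 0 := by
    intro S
    rw [Finset.sum_ite, Finset.sum_const_zero, add_zero, Finset.sum_const, nsmul_eq_mul, mul_one]
  simp only [h1, Finset.mul_sum]
  rw [Finset.sum_comm]
  refine Finset.sum_congr rfl (fun e he => ?_)
  rw [← sum_wt_superset p P (T e) (hT e he), Finset.sum_filter]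
  refine Finset.sum_congr rfl (fun S _ => ?_)
  split_ifs <;> simp

lemma wt_nonneg {p : ℝ} (h0 : 0 ≤ p) (h1 : p ≤ 1) (P S : Finset ι) : 0 ≤ wt p P S := by
  unfold wt
  have : 0 ≤ 1 - p := by linarith
  positivity

end Sampling

section Crossing

variable {ι ε : Type} {X Y : ι → ℝ} {l r : ε → ι} {a b : ε → ℝ} {P : Finset ι} {E : Finset ε}

open Classical in
/-- number of edges in terms of the number of crossings -/
theorem crossing_lemma (hD : Drw X Y l r a b P E)
    (h4 : ∀ e ∈ E, ∀ f ∈ E, Crs X l r a b e f → ({l e, r e, l f, r f} : Finset ι).card = 4)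
    (hE : 4 * P.card ≤ E.card) :
    E.card ^ 3 ≤ 64 * P.card ^ 2 *
      ((E ×ˢ E).filter (fun x => Crs X l r a b x.1 x.2)).card := by
  set Cr := (E ×ˢ E).filter (fun x => Crs X l r a b x.1 x.2) with hCr
  rcases Nat.eq_zero_or_pos P.card with hP | hP
  · have hE0 : E = ∅ := by
      rw [Finset.eq_empty_iff_forall_notMem]
      intro e he
      have := hD.lP e he
      rw [Finset.card_eq_zero.1 hP] at this
      simp at this
    simp [hE0]
  have hEpos : 0 < E.card := by omega
  -- bound for every subset of vertices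
  have key : ∀ S ∈ P.powerset, ((E.filter (fun e => ({l e, r e} : Finset ι) ⊆ S)).card : ℝ) ≤
      3 * ((P.filter (fun v => ({v} : Finset ι) ⊆ S)).card : ℝ) +
      ((Cr.filter (fun x => ({l x.1, r x.1, l x.2, r x.2} : Finset ι) ⊆ S)).card : ℝ) := by
    intro S hS
    rw [Finset.mem_powerset] at hS
    have hPS : P.filter (fun v => ({v} : Finset ι) ⊆ S) = S := by
      ext v
      simp only [Finset.mem_filter, Finset.singleton_subset_iff]
      exact ⟨fun h => h.2, fun h => ⟨hS h, h⟩⟩
    rw [hPS]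
    set ES := E.filter (fun e => ({l e, r e} : Finset ι) ⊆ S) with hES
    set CS := Cr.filter (fun x => ({l x.1, r x.1, l x.2, r x.2} : Finset ι) ⊆ S) with hCS
    have hmem : ∀ e ∈ ES, e ∈ E ∧ l e ∈ S ∧ r e ∈ S := by
      intro e he
      obtain ⟨h1, h2⟩ := Finset.mem_filter.1 he
      exact ⟨h1, h2 (by simp), h2 (by simp)⟩
    have hD' : Drw X Y l r a b S (ES \ CS.image Prod.fst) := by
      have hsub : ∀ e ∈ ES \ CS.image Prod.fst, e ∈ ES := fun e he => (Finset.mem_sdiff.1 he).1
      refine ⟨fun u hu v hv h => hD.inj u (hS hu) v (hS hv) h,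
        fun e he => (hmem e (hsub e he)).2.1, fun e he => (hmem e (hsub e he)).2.2,
        fun e he => hD.lt e (hmem e (hsub e he)).1, fun e he => hD.ly e (hmem e (hsub e he)).1,
        fun e he => hD.ry e (hmem e (hsub e he)).1,
        fun e he w hw => hD.nv e (hmem e (hsub e he)).1 w (hS hw)⟩
    have hC' : ∀ e ∈ ES \ CS.image Prod.fst, ∀ f ∈ ES \ CS.image Prod.fst,
        ¬ Crs X l r a b e f := by
      intro e he f hf hef
      obtain ⟨he1, he2⟩ := Finset.mem_sdiff.1 he
      obtain ⟨hf1, _⟩ := Finset.mem_sdiff.1 hf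
      apply he2
      refine Finset.mem_image.2 ⟨(e, f), Finset.mem_filter.2 ⟨Finset.mem_filter.2
        ⟨Finset.mem_product.2 ⟨(hmem e he1).1, (hmem f hf1).1⟩, hef⟩, ?_⟩, rfl⟩
      intro v hv
      simp only [Finset.mem_insert, Finset.mem_singleton] at hv
      rcases hv with rfl | rfl | rfl | rfl
      · exact (hmem e he1).2.1
      · exact (hmem e he1).2.2
      · exact (hmem f hf1).2.1
      · exact (hmem f hf1).2.2
    have h1 := planar_bound hD' hC'
    have h2 := Finset.le_card_sdiff (CS.image Prod.fst) ES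
    have h3 : (CS.image Prod.fst).card ≤ CS.card := Finset.card_image_le
    have h4 : ES.card ≤ 3 * S.card + CS.card := by omega
    exact_mod_cast h4
  set p : ℝ := 4 * P.card / E.card with hp
  have hEr : (0 : ℝ) < E.card := by exact_mod_cast hEpos
  have hPr : (0 : ℝ) < P.card := by exact_mod_cast hP
  have hp0 : 0 < p := by positivity
  have hp1 : p ≤ 1 := by
    rw [hp, div_le_one hEr]
    exact_mod_cast hE
  have hsum := Finset.sum_le_sum (fun S hS =>
    mul_le_mul_of_nonneg_left (key S hS) (wt_nonneg hp0.le hp1 P S))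
  simp only [mul_add, Finset.sum_add_distrib] at hsum
  rw [sum_wt_count p P E (fun e => {l e, r e}) (by
    intro e he v hv
    simp only [Finset.mem_insert, Finset.mem_singleton] at hv
    rcases hv with rfl | rfl
    · exact hD.lP e he
    · exact hD.rP e he)] at hsum
  rw [sum_wt_count p P Cr (fun x => {l x.1, r x.1, l x.2, r x.2}) (by
    intro x hx v hv
    obtain ⟨hx1, _⟩ := Finset.mem_filter.1 hx
    obtain ⟨hx2, hx3⟩ := Finset.mem_product.1 hx1
    simp only [Finset.mem_insert, Finset.mem_singleton] at hv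
    rcases hv with rfl | rfl | rfl | rfl
    · exact hD.lP _ hx2
    · exact hD.rP _ hx2
    · exact hD.lP _ hx3
    · exact hD.rP _ hx3)] at hsum
  have hv : ∑ S ∈ P.powerset, wt p P S *
      (3 * ((P.filter (fun v => ({v} : Finset ι) ⊆ S)).card : ℝ)) = 3 * (P.card * p) := by
    have := sum_wt_count p P P (fun v => {v}) (by
      intro v hv w hw
      rw [Finset.mem_singleton.1 hw]
      exact hv)
    simp only [Finset.card_singleton, pow_one, Finset.sum_const, nsmul_eq_mul] at this
    rw [← this, Finset.mul_sum]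
    exact Finset.sum_congr rfl (fun S _ => by ring)
  rw [hv] at hsum
  have he : ∑ e ∈ E, p ^ ({l e, r e} : Finset ι).card = E.card * p ^ 2 := by
    rw [← nsmul_eq_mul, ← Finset.sum_const]
    refine Finset.sum_congr rfl (fun e he => ?_)
    rw [Finset.card_pair]
    intro h
    have := hD.lt e he
    rw [h] at this
    exact lt_irrefl _ this
  have hc : ∑ x ∈ Cr, p ^ ({l x.1, r x.1, l x.2, r x.2} : Finset ι).card = Cr.card * p ^ 4 := by
    rw [← nsmul_eq_mul, ← Finset.sum_const]
    refine Finset.sum_congr rfl (fun x hx => ?_)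
    obtain ⟨hx1, hx4⟩ := Finset.mem_filter.1 hx
    obtain ⟨hx2, hx3⟩ := Finset.mem_product.1 hx1
    rw [h4 _ hx2 _ hx3 hx4]
  rw [he, hc] at hsum
  have hpE : p * E.card = 4 * P.card := by
    rw [hp]
    field_simp
  have h5 : (P.card : ℝ) ≤ Cr.card * p ^ 3 := by
    have h6 : (E.card : ℝ) * p ^ 2 = 4 * P.card * p := by
      rw [← hpE]; ring
    rw [h6] at hsum
    have h7 : (P.card : ℝ) * p ≤ (Cr.card * p ^ 3) * p := by nlinarith
    exact le_of_mul_le_mul_right h7 hp0
  have h6 : (E.card : ℝ) ^ 3 * P.card ≤ 64 * P.card ^ 2 * Cr.card * P.card := by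
    calc (E.card : ℝ) ^ 3 * P.card ≤ E.card ^ 3 * (Cr.card * p ^ 3) := by gcongr
      _ = (p * E.card) ^ 3 * Cr.card := by ring
      _ = 64 * P.card ^ 2 * Cr.card * P.card := by rw [hpE]; ring
  have h7 := le_of_mul_le_mul_right h6 hPr
  exact_mod_cast h7

end Crossing

section ST

variable {ι κ : Type}

open Classical in
/-- The Szemerédi-Trotter theorem for points with distinct abscissas and non-vertical lines. -/
theorem szemeredi_trotter (X Y : ι → ℝ) (a b : κ → ℝ) (P : Finset ι) (L : Finset κ)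
    (hX : ∀ u ∈ P, ∀ v ∈ P, X u = X v → u = v)
    (hL : ∀ x ∈ L, ∀ y ∈ L, a x = a y → b x = b y → x = y) :
    ((L ×ˢ P).filter (fun x => Y x.2 = a x.1 * X x.2 + b x.1)).card ≤ L.card + 4 * P.card ∨
    (((L ×ˢ P).filter (fun x => Y x.2 = a x.1 * X x.2 + b x.1)).card - L.card) ^ 3 ≤
      64 * P.card ^ 2 * L.card ^ 2 := by
  set I := (L ×ˢ P).filter (fun x => Y x.2 = a x.1 * X x.2 + b x.1) with hI
  have hImem : ∀ x, x ∈ I ↔ x.1 ∈ L ∧ x.2 ∈ P ∧ Y x.2 = a x.1 * X x.2 + b x.1 := by
    intro x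
    simp only [hI, Finset.mem_filter, Finset.mem_product]
    tauto
  set E := I.filter (fun x => ∃ q, (x.1, q) ∈ I ∧ X x.2 < X q) with hE
  have hnext : ∀ x : κ × ι, ∃ q, x ∈ E → (x.1, q) ∈ I ∧ X x.2 < X q ∧
      ∀ q', (x.1, q') ∈ I → X x.2 < X q' → X q ≤ X q' := by
    intro x
    by_cases hx : x ∈ E
    · obtain ⟨h1, q0, h2, h3⟩ := Finset.mem_filter.1 hx
      obtain ⟨q, hq, hmin⟩ := Finset.exists_min_image
        (P.filter (fun q => (x.1, q) ∈ I ∧ X x.2 < X q)) X
        ⟨q0, Finset.mem_filter.2 ⟨((hImem _).1 h2).2.1, h2, h3⟩⟩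
      obtain ⟨hq1, hq2, hq3⟩ := Finset.mem_filter.1 hq
      exact ⟨q, fun _ => ⟨hq2, hq3, fun q' h h' => hmin q'
        (Finset.mem_filter.2 ⟨((hImem _).1 h).2.1, h, h'⟩)⟩⟩
    · exact ⟨x.2, fun h => absurd h hx⟩
  choose nx hnx using hnext
  have hEI : ∀ x ∈ E, x ∈ I := fun x hx => (Finset.mem_filter.1 hx).1
  -- same line, overlapping edges
  have hsame : ∀ x ∈ E, ∀ y ∈ E, x.1 = y.1 → ∀ t, X x.2 < t → t < X (nx x) → X y.2 < t →
      t < X (nx y) → x = y := by
    intro x hx y hy hxy t h1 h2 h3 h4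
    have hx' := hEI x hx
    have hy' := hEI y hy
    rcases lt_trichotomy (X x.2) (X y.2) with h | h | h
    · have := (hnx x hx).2.2 y.2 (by rw [hxy]; exact hy') h
      linarith
    · exact Prod.ext hxy (hX _ ((hImem x).1 hx').2.1 _ ((hImem y).1 hy').2.1 h)
    · have := (hnx y hy).2.2 x.2 (by rw [← hxy]; exact hx') h
      linarith
  have hD : Drw X Y (fun x : κ × ι => x.2) nx (fun x => a x.1) (fun x => b x.1) P E := by
    refine ⟨hX, fun e he => ((hImem e).1 (hEI e he)).2.1,
      fun e he => ((hImem _).1 (hnx e he).1).2.1, fun e he => (hnx e he).2.1,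
      fun e he => ((hImem e).1 (hEI e he)).2.2, fun e he => ((hImem _).1 (hnx e he).1).2.2, ?_⟩
    intro e he w hw h1 h2 h3
    have := (hnx e he).2.2 w ((hImem _).2 ⟨((hImem e).1 (hEI e he)).1, hw, h3⟩) h1
    linarith
  -- two different lines meet in one point
  have hmeet : ∀ x ∈ L, ∀ y ∈ L, x ≠ y → ∀ s t, a x * s + b x = a y * s + b y →
      a x * t + b x = a y * t + b y → s = t := by
    intro x hx y hy hxy s t hs ht
    have h1 : (a x - a y) * (s - t) = 0 := by linarith
    rcases mul_eq_zero.1 h1 with h | h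
    · exfalso
      apply hxy
      apply hL x hx y hy (by linarith)
      have h2 : a x = a y := by linarith
      rw [h2] at hs
      linarith
    · linarith
  have hcl : ∀ x ∈ E, ∀ y ∈ E, Crs X (fun x : κ × ι => x.2) nx (fun x => a x.1)
      (fun x => b x.1) x y → x.1 ≠ y.1 := by
    rintro x hx y hy ⟨hne, t, h1, h2, h3, h4, _⟩ hxy
    exact hne (hsame x hx y hy hxy t h1 h2 h3 h4)
  have h4 : ∀ e ∈ E, ∀ f ∈ E, Crs X (fun x : κ × ι => x.2) nx (fun x => a x.1)
      (fun x => b x.1) e f → ({e.2, nx e, f.2, nx f} : Finset ι).card = 4 := by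
    intro x hx y hy hc
    have hne := hcl x hx y hy hc
    obtain ⟨_, t, h1, h2, h3, h4, h5⟩ := hc
    have hxL := ((hImem x).1 (hEI x hx)).1
    have hyL := ((hImem y).1 (hEI y hy)).1
    have ix : ∀ q, (x.1, q) ∈ I → Y q = a x.1 * X q + b x.1 := fun q hq => ((hImem _).1 hq).2.2
    have iy : ∀ q, (y.1, q) ∈ I → Y q = a y.1 * X q + b y.1 := fun q hq => ((hImem _).1 hq).2.2
    have hcom : ∀ q, (x.1, q) ∈ I → (y.1, q) ∈ I → X q = t := by
      intro q hq1 hq2
      refine hmeet x.1 hxL y.1 hyL hne (X q) t ?_ h5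
      rw [← ix q hq1, ← iy q hq2]
    have ex1 : (x.1, x.2) ∈ I := hEI x hx
    have ex2 := (hnx x hx).1
    have ey1 : (y.1, y.2) ∈ I := hEI y hy
    have ey2 := (hnx y hy).1
    have n1 : x.2 ≠ nx x := fun h => by
      have := (hnx x hx).2.1
      rw [← h] at this
      exact lt_irrefl _ this
    have n2 : x.2 ≠ y.2 := fun h => by
      have := hcom x.2 ex1 (by rw [h]; exact ey1)
      linarith
    have n3 : x.2 ≠ nx y := fun h => by
      have := hcom x.2 ex1 (by rw [h]; exact ey2)
      linarith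
    have n4 : nx x ≠ y.2 := fun h => by
      have := hcom (nx x) ex2 (by rw [h]; exact ey1)
      linarith
    have n5 : nx x ≠ nx y := fun h => by
      have := hcom (nx x) ex2 (by rw [h]; exact ey2)
      linarith
    have n6 : y.2 ≠ nx y := fun h => by
      have := (hnx y hy).2.1
      rw [← h] at this
      exact lt_irrefl _ this
    rw [Finset.card_insert_of_notMem (by simp [n1, n2, n3]),
      Finset.card_insert_of_notMem (by simp [n4, n5]), Finset.card_pair n6]
  have hIE : I.card ≤ L.card + E.card := by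
    have h1 : (I \ E).card ≤ L.card := by
      apply Finset.card_le_card_of_injOn Prod.fst
      · intro x hx
        exact ((hImem x).1 (Finset.mem_sdiff.1 (Finset.mem_coe.1 hx)).1).1
      · intro x hx y hy hxy
        obtain ⟨hx1, hx2⟩ := Finset.mem_sdiff.1 (Finset.mem_coe.1 hx)
        obtain ⟨hy1, hy2⟩ := Finset.mem_sdiff.1 (Finset.mem_coe.1 hy)
        rcases lt_trichotomy (X x.2) (X y.2) with h | h | h
        · exact absurd (Finset.mem_filter.2 ⟨hx1, y.2, by rw [hxy]; exact hy1, h⟩) hx2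
        · exact Prod.ext hxy (hX _ ((hImem x).1 hx1).2.1 _ ((hImem y).1 hy1).2.1 h)
        · exact absurd (Finset.mem_filter.2 ⟨hy1, x.2, by rw [← hxy]; exact hx1, h⟩) hy2
    have h2 := Finset.card_sdiff_add_card_eq_card (Finset.filter_subset
      (fun x : κ × ι => ∃ q, (x.1, q) ∈ I ∧ X x.2 < X q) I)
    rw [← hE] at h2
    omega
  by_cases hbig : 4 * P.card ≤ E.card
  · right
    have h1 := crossing_lemma hD h4 hbig
    have h2 : ((E ×ˢ E).filter (fun x => Crs X (fun x : κ × ι => x.2) nx (fun x => a x.1)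
        (fun x => b x.1) x.1 x.2)).card ≤ L.card ^ 2 := by
      rw [sq, ← Finset.card_product]
      apply Finset.card_le_card_of_injOn (fun x => (x.1.1, x.2.1))
      · intro x hx
        obtain ⟨hx1, _⟩ := Finset.mem_filter.1 (Finset.mem_coe.1 hx)
        obtain ⟨hx2, hx3⟩ := Finset.mem_product.1 hx1
        exact Finset.mem_coe.2 (Finset.mem_product.2 ⟨((hImem _).1 (hEI _ hx2)).1,
          ((hImem _).1 (hEI _ hx3)).1⟩)
      · intro x hx y hy hxy
        obtain ⟨hx1, hx4⟩ := Finset.mem_filter.1 (Finset.mem_coe.1 hx)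
        obtain ⟨hx2, hx3⟩ := Finset.mem_product.1 hx1
        obtain ⟨hy1, hy4⟩ := Finset.mem_filter.1 (Finset.mem_coe.1 hy)
        obtain ⟨hy2, hy3⟩ := Finset.mem_product.1 hy1
        obtain ⟨e1, e2⟩ := Prod.ext_iff.1 hxy
        simp only at e1 e2
        have hne := hcl _ hx2 _ hx3 hx4
        obtain ⟨_, t, a1, a2, a3, a4, a5⟩ := hx4
        obtain ⟨_, t', c1, c2, c3, c4, c5⟩ := hy4
        have htt : t = t' := by
          refine hmeet _ ((hImem _).1 (hEI _ hx2)).1 _ ((hImem _).1 (hEI _ hx3)).1 hne t t' a5 ?_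
          rw [e1, e2]
          exact c5
        subst htt
        exact Prod.ext (hsame _ hx2 _ hy2 e1 t a1 a2 c1 c2) (hsame _ hx3 _ hy3 e2 t a3 a4 c3 c4)
    calc (I.card - L.card) ^ 3 ≤ E.card ^ 3 := Nat.pow_le_pow_left (by omega) 3
      _ ≤ _ := h1
      _ ≤ 64 * P.card ^ 2 * L.card ^ 2 := Nat.mul_le_mul_left _ h2
  · left
    omega

end ST

end Pool.Agent.H.MP_e5d137_al.G3
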