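import Pool.Agent.H.MP_e5d137_al.G3.Flip

/-!
# Finiteness of sublevel sets, tops of cells
-/

namespace Pool.Agent.H.MP_e5d137_al.G3

open Matrix

lemma ht_congr {g w : GL3} (h : cfg g = cfg w) : ht g = ht w := by
  unfold ht
  rw [qf_eq_of_subset h.subset]

lemma qf_eq_of_yv {g w : GL3} (h : ∀ j, qf g (yv j) = qf w (yv j)) : qf g = qf w := by
  funext x
  rw [(isQ_qf g).eq_sum_yv, (isQ_qf w).eq_sum_yv]
  simp only [h]

/-- the height is injective on configurations -/
lemma cfg_eq_of_ht {g w : GL3} (h : ht g = ht w) : cfg g = cfg w := by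
  apply cfg_eq_of_qf
  apply qf_eq_of_yv
  have h1 := eta_indep (fun j => qf g (yv j) - qf w (yv j)) (by
    unfold ht S at h
    push_cast
    simp only [mul_sub, Finset.sum_sub_distrib]
    linarith)
  intro j
  have := congrFun h1 j
  simpa [sub_eq_zero] using this

/-- configurations of bounded height -/
def Low (t : ℝ) : Set (Finset V) := {v | ∃ g, cfg g = v ∧ ht g < t}

lemma low_finite (t : ℝ) : (Low t).Finite := by
  classical
  let F : (Fin 6 → ℤ) → Finset V := fun n =>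
    if h : ∃ g : GL3, (fun j => qf g (yv j)) = n then cfg h.choose else ∅
  have hfin : (F '' (Set.Icc 0 (fun j => ⌊t / eta j⌋))).Finite := (Set.finite_Icc _ _).image F
  refine hfin.subset ?_
  rintro v ⟨g, rfl, hg⟩
  refine ⟨fun j => qf g (yv j), ⟨?_, ?_⟩, ?_⟩
  · intro j
    exact qf_nonneg g _
  · intro j
    show qf g (yv j) ≤ ⌊t / eta j⌋
    rw [Int.le_floor, le_div_iff₀ (eta_pos j)]
    have h1 : ∀ j, 0 ≤ eta j * (qf g (yv j) : ℝ) := fun j => by
      have := (eta_pos j).le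
      have h2 : (0 : ℝ) ≤ qf g (yv j) := by exact_mod_cast qf_nonneg g _
      positivity
    have h2 : eta j * (qf g (yv j) : ℝ) ≤ ht g :=
      Finset.single_le_sum (f := fun j => eta j * (qf g (yv j) : ℝ)) (fun j _ => h1 j)
        (Finset.mem_univ j)
    linarith
  · have h : ∃ w : GL3, (fun j => qf w (yv j)) = (fun j => qf g (yv j)) := ⟨g, rfl⟩
    show (if h : ∃ w : GL3, (fun j => qf w (yv j)) = (fun j => qf g (yv j)) then cfg h.choose
      else ∅) = cfg g
    rw [dif_pos h]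
    exact cfg_eq_of_qf (qf_eq_of_yv (fun j => congrFun h.choose_spec j))

lemma q0_add_three (u v w : V) : q0 (u + v + w) ≤ 3 * (q0 u + q0 v + q0 w) := by
  have h1 := q0_nonneg (u - v)
  have h2 := q0_nonneg (v - w)
  have h3 := q0_nonneg (u - w)
  have h4 : q0 (u - v) + q0 (v - w) + q0 (u - w) + q0 (u + v + w) = 3 * (q0 u + q0 v + q0 w) := by
    simp only [q0, Pi.add_apply, Pi.sub_apply]
    ring
  linarith

lemma q0_smul (n : ℤ) (u : V) : q0 (n • u) = n ^ 2 * q0 u := by
  simp only [q0, Pi.smul_apply, smul_eq_mul]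
  ring

lemma qf_smul (g : GL3) (n : ℤ) (u : V) : qf g (n • u) = n ^ 2 * qf g u := by
  unfold qf
  rw [ac_smul, q0_smul]

lemma cramer (x y z u : V) : dt x y z • u = dt u y z • x + dt x u z • y + dt x y u • z := by
  apply v_ext <;> simp only [dt, Pi.add_apply, Pi.smul_apply, smul_eq_mul] <;> ring

lemma qf_bound {g : GL3} {x y z : V} (hx : qf g x = 1) (hy : qf g y = 1) (hz : qf g z = 1)
    (h : dt x y z ≠ 0) (u : V) :
    qf g u ≤ 3 * (dt u y z ^ 2 + dt x u z ^ 2 + dt x y u ^ 2) := by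
  have h1 : qf g (dt x y z • u) ≤ 3 * (dt u y z ^ 2 + dt x u z ^ 2 + dt x y u ^ 2) := by
    rw [cramer]
    have h2 : qf g (dt u y z • x + dt x u z • y + dt x y u • z) ≤
        3 * (qf g (dt u y z • x) + qf g (dt x u z • y) + qf g (dt x y u • z)) := by
      unfold qf
      rw [ac_add, ac_add]
      exact q0_add_three _ _ _
    rw [qf_smul, qf_smul, qf_smul, hx, hy, hz] at h2
    linarith
  rw [qf_smul] at h1
  have h2 : 1 ≤ dt x y z ^ 2 := by
    have : 0 < dt x y z ^ 2 := by positivity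
    omega
  have h3 := qf_nonneg g u
  nlinarith

/-- configurations containing a spanning set have bounded height -/
lemma ht_bound {M : Finset V} (hM : Spans M) : ∃ B : ℝ, ∀ g, M ⊆ cfg g → ht g < B := by
  obtain ⟨x, hx, y, hy, z, hz, h⟩ := hM
  refine ⟨(∑ j, eta j * ((3 * (dt (yv j) y z ^ 2 + dt x (yv j) z ^ 2 + dt x y (yv j) ^ 2) : ℤ) : ℝ))
    + 1, fun g hg => ?_⟩
  have h1 : ht g ≤ ∑ j, eta j *
      ((3 * (dt (yv j) y z ^ 2 + dt x (yv j) z ^ 2 + dt x y (yv j) ^ 2) : ℤ) : ℝ) := by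
    unfold ht S
    apply Finset.sum_le_sum
    intro j _
    apply mul_le_mul_of_nonneg_left _ (eta_pos j).le
    have := qf_bound (mem_cfg_iff.1 (hg hx)).2 (mem_cfg_iff.1 (hg hy)).2 (mem_cfg_iff.1 (hg hz)).2
      h (yv j)
    exact_mod_cast this
  linarith

/-- finitely many configurations contain a given spanning set -/
lemma finite_cfg_above {M : Finset V} (hM : Spans M) :
    {v : Finset V | (∃ g, cfg g = v) ∧ M ⊆ v}.Finite := by
  obtain ⟨B, hB⟩ := ht_bound hM
  refine (low_finite B).subset ?_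
  rintro v ⟨⟨g, rfl⟩, hg⟩
  exact ⟨g, rfl, hB g hg⟩

/-- `g` is a configuration of maximal height containing `M` -/
def IsTop (M : Finset V) (g : GL3) : Prop := M ⊆ cfg g ∧ ∀ w, M ⊆ cfg w → ht w ≤ ht g

/-- height as a function of the configuration -/
noncomputable def hts (v : Finset V) : ℝ := by
  classical
  exact if h : ∃ g, cfg g = v then ht h.choose else 0

lemma hts_cfg (g : GL3) : hts (cfg g) = ht g := by
  classical
  unfold hts
  have h : ∃ w, cfg w = cfg g := ⟨g, rfl⟩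
  rw [dif_pos h]
  exact ht_congr h.choose_spec

lemma exists_top {M : Finset V} (hM : Spans M) {g : GL3} (hg : M ⊆ cfg g) :
    ∃ w, IsTop M w := by
  obtain ⟨v, ⟨⟨w, rfl⟩, hw⟩, hmax⟩ := Set.exists_max_image _ hts (finite_cfg_above hM)
    ⟨cfg g, ⟨g, rfl⟩, hg⟩
  refine ⟨w, hw, fun w' hw' => ?_⟩
  have := hmax (cfg w') ⟨⟨w', rfl⟩, hw'⟩
  rwa [hts_cfg, hts_cfg] at this

/-- crossing a wall changes the height by the coordinate -/
lemma ht_flip (g : GL3) (k : Fin 6) : ∃ w, (cfg g).erase (sv g k) ⊆ cfg w ∧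
    ht w - ht g = al g k := by
  obtain ⟨g1, h1, h2⟩ := exists_label g k
  refine ⟨g1 * nb, ?_, ?_⟩
  · rw [← h1, ← h2]
    exact erase_subset_nb g1
  · rw [ht_sub, Finset.sum_eq_single k]
    · rw [← h2, qf_nb]
      norm_num
    · intro l _ hl
      have : sv g l ∈ cfg (g1 * nb) := by
        apply erase_subset_nb
        rw [h1, h2]
        exact Finset.mem_erase.2 ⟨fun h => hl (sv_injective g h), sv_mem_cfg g l⟩
      rw [(mem_cfg_iff.1 this).2]
      simp
    · intro h
      exact absurd (Finset.mem_univ k) h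

lemma IsTop.sdiff {M : Finset V} {g : GL3} (h : IsTop M g) : cfg g \ M ⊆ Dn g := by
  intro x hx
  obtain ⟨hx1, hx2⟩ := Finset.mem_sdiff.1 hx
  obtain ⟨k, rfl⟩ := mem_cfg.1 hx1
  rw [sv_mem_Dn]
  by_contra hcon
  have hpos : 0 < al g k := lt_of_le_of_ne (not_lt.1 hcon) (al_ne_zero g k).symm
  obtain ⟨w, hw1, hw2⟩ := ht_flip g k
  have := h.2 w (fun y hy => hw1 (Finset.mem_erase.2 ⟨fun h' => hx2 (h' ▸ hy), h.1 hy⟩))
  linarith

lemma isTop_of_sdiff {M : Finset V} {g : GL3} (hM : M ⊆ cfg g) (h : cfg g \ M ⊆ Dn g) :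
    IsTop M g := ⟨hM, fun _ hw => (ht_le_of_top h hw).1⟩

/-- a configuration without removable vectors is the minimum -/
lemma min_of_empty {g : GL3} (h : Dn g = ∅) (w : GL3) : ht g ≤ ht w := by
  have h1 := ht_sub g w
  have h2 : 0 ≤ ∑ k, al g k * ((qf w (sv g k) : ℝ) - 1) := by
    apply Finset.sum_nonneg
    intro k _
    have h3 : 0 ≤ al g k := by
      by_contra hcon
      have : sv g k ∈ Dn g := sv_mem_Dn.2 (not_le.1 hcon)
      rw [h] at this
      simp at this
    have h4 : (1 : ℤ) ≤ qf w (sv g k) := qf_ge_one (pos_sv g k)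
    have h5 : (1 : ℝ) ≤ qf w (sv g k) := by exact_mod_cast h4
    exact mul_nonneg h3 (by linarith)
  linarith

end Pool.Agent.H.MP_e5d137_al.G3
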