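import Mathlib

/-!
# Integer vectors of length three, sign normalisation, the standard configuration

The root lattice `A_3`: the form `q0`, its six pairs of minimal vectors `s k`, the coordinates
`A k` of a rank one form in the basis given by the minimal vectors.
-/

namespace Pool.Agent.H.MP_e5d137_al.G3

open Matrix

/-- integer vectors -/
abbrev V : Type := Fin 3 → ℤ

/-- the group `GL(3,ℤ)` -/
abbrev GL3 : Type := Matrix.GeneralLinearGroup (Fin 3) ℤ

/-- linear action -/
def ac (g : GL3) (x : V) : V := (g : Matrix (Fin 3) (Fin 3) ℤ) *ᵥ x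

lemma ac_mul (g h : GL3) (x : V) : ac (g * h) x = ac g (ac h x) := by
  simp [ac, Matrix.mulVec_mulVec]

lemma ac_one (x : V) : ac 1 x = x := by simp [ac]

lemma ac_neg (g : GL3) (x : V) : ac g (-x) = -ac g x := by simp [ac, Matrix.mulVec_neg]

lemma ac_add (g : GL3) (x y : V) : ac g (x + y) = ac g x + ac g y := by
  simp [ac, Matrix.mulVec_add]

lemma ac_smul (g : GL3) (n : ℤ) (x : V) : ac g (n • x) = n • ac g x :=
  Matrix.mulVec_smul _ _ _

lemma ac_zero (g : GL3) : ac g 0 = 0 := by simp [ac]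

lemma ac_inv_ac (g : GL3) (x : V) : ac g⁻¹ (ac g x) = x := by
  rw [← ac_mul, inv_mul_cancel, ac_one]

lemma ac_ac_inv (g : GL3) (x : V) : ac g (ac g⁻¹ x) = x := by
  rw [← ac_mul, mul_inv_cancel, ac_one]

lemma ac_injective (g : GL3) : Function.Injective (ac g) := fun x y h => by
  rw [← ac_inv_ac g x, h, ac_inv_ac]

lemma ac_eq_zero (g : GL3) (x : V) : ac g x = 0 ↔ x = 0 := by
  constructor
  · intro h
    apply ac_injective g
    rw [h, ac_zero]
  · rintro rfl
    exact ac_zero g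

/-- lexicographic positivity -/
def Pos (x : V) : Prop := 0 < x 0 ∨ (x 0 = 0 ∧ (0 < x 1 ∨ (x 1 = 0 ∧ 0 < x 2)))

instance (x : V) : Decidable (Pos x) := by unfold Pos; infer_instance

lemma Pos.add {x y : V} (hx : Pos x) (hy : Pos y) : Pos (x + y) := by
  unfold Pos at *
  simp only [Pi.add_apply]
  omega

lemma Pos.ne_zero {x : V} (hx : Pos x) : x ≠ 0 := by
  rintro rfl
  simp [Pos] at hx

lemma not_pos_neg {x : V} (hx : Pos x) : ¬ Pos (-x) := by
  unfold Pos at *
  simp only [Pi.neg_apply]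
  omega

lemma v_ext {x y : V} (h0 : x 0 = y 0) (h1 : x 1 = y 1) (h2 : x 2 = y 2) : x = y := by
  funext i
  fin_cases i
  · exact h0
  · exact h1
  · exact h2

lemma pos_or_neg {x : V} (hx : x ≠ 0) : Pos x ∨ Pos (-x) := by
  by_contra hcon
  apply hx
  unfold Pos at hcon
  simp only [Pi.neg_apply] at hcon
  apply v_ext <;> simp only [Pi.zero_apply] <;> omega

/-- sign normalisation -/
def nrm (x : V) : V := if Pos x then x else -x

lemma nrm_of_pos {x : V} (hx : Pos x) : nrm x = x := if_pos hx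

lemma nrm_eq (x : V) : nrm x = x ∨ nrm x = -x := by
  unfold nrm
  split_ifs
  · exact Or.inl rfl
  · exact Or.inr rfl

lemma pos_nrm {x : V} (hx : x ≠ 0) : Pos (nrm x) := by
  unfold nrm
  split_ifs with h
  · exact h
  · exact (pos_or_neg hx).resolve_left h

lemma nrm_neg (x : V) : nrm (-x) = nrm x := by
  by_cases hx : x = 0
  · subst hx; simp
  · rcases pos_or_neg hx with h | h
    · rw [nrm_of_pos h]
      unfold nrm
      rw [if_neg (not_pos_neg h), neg_neg]
    · rw [nrm_of_pos h]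
      unfold nrm
      rw [if_neg]
      intro h'
      exact not_pos_neg h' h

lemma nrm_nrm (x : V) : nrm (nrm x) = nrm x := by
  rcases nrm_eq x with h | h
  · rw [h, h]
  · rw [h, nrm_neg, h]

lemma nrm_eq_nrm {x y : V} (h : nrm x = nrm y) : x = y ∨ x = -y := by
  rcases nrm_eq x with h1 | h1 <;> rcases nrm_eq y with h2 | h2 <;> rw [h1, h2] at h
  · exact Or.inl h
  · exact Or.inr h
  · exact Or.inr (by rw [← h, neg_neg])
  · exact Or.inl (neg_injective h)

lemma nrm_ac_nrm (g : GL3) (x : V) : nrm (ac g (nrm x)) = nrm (ac g x) := by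
  rcases nrm_eq x with h | h
  · rw [h]
  · rw [h, ac_neg, nrm_neg]

/-- projective action on normalised vectors -/
def pac (g : GL3) (x : V) : V := nrm (ac g x)

lemma pac_mul (g h : GL3) (x : V) : pac (g * h) x = pac g (pac h x) := by
  unfold pac
  rw [nrm_ac_nrm, ac_mul]

lemma pac_one {x : V} (hx : Pos x) : pac 1 x = x := by
  unfold pac
  rw [ac_one, nrm_of_pos hx]

lemma pos_pac (g : GL3) {x : V} (hx : x ≠ 0) : Pos (pac g x) :=
  pos_nrm (fun h => hx ((ac_eq_zero g x).1 h))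

lemma pac_inv_pac (g : GL3) {x : V} (hx : Pos x) : pac g⁻¹ (pac g x) = x := by
  rw [← pac_mul, inv_mul_cancel, pac_one hx]

lemma pac_pac_inv (g : GL3) {x : V} (hx : Pos x) : pac g (pac g⁻¹ x) = x := by
  rw [← pac_mul, mul_inv_cancel, pac_one hx]

lemma pac_inj (g : GL3) {x y : V} (hx : Pos x) (hy : Pos y) (h : pac g x = pac g y) : x = y := by
  rw [← pac_inv_pac g hx, h, pac_inv_pac g hy]

/-- the six standard vectors -/
def s : Fin 6 → V :=
  ![![1, 0, 0], ![0, 1, 0], ![0, 0, 1], ![1, 1, 0], ![0, 1, 1], ![1, 1, 1]]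

/-- the quadratic form of the root lattice `A_3` (half the usual one) -/
def q0 (x : V) : ℤ := x 0 ^ 2 - x 0 * x 1 + x 1 ^ 2 - x 1 * x 2 + x 2 ^ 2

lemma q0_neg (x : V) : q0 (-x) = q0 x := by simp only [q0, Pi.neg_apply]; ring

lemma q0_nrm (x : V) : q0 (nrm x) = q0 x := by
  rcases nrm_eq x with h | h <;> rw [h]
  exact q0_neg x

lemma two_q0 (x : V) : 2 * q0 x = x 0 ^ 2 + (x 0 - x 1) ^ 2 + (x 1 - x 2) ^ 2 + x 2 ^ 2 := by
  unfold q0; ring

lemma q0_nonneg (x : V) : 0 ≤ q0 x := by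
  have h := two_q0 x
  have h1 := sq_nonneg (x 0)
  have h2 := sq_nonneg (x 0 - x 1)
  have h3 := sq_nonneg (x 1 - x 2)
  have h4 := sq_nonneg (x 2)
  linarith

lemma q0_pos {x : V} (hx : x ≠ 0) : 1 ≤ q0 x := by
  by_contra hcon
  apply hx
  have h := two_q0 x
  have h1 := sq_nonneg (x 0)
  have h2 := sq_nonneg (x 0 - x 1)
  have h3 := sq_nonneg (x 1 - x 2)
  have h4 := sq_nonneg (x 2)
  have e1 : x 0 ^ 2 = 0 := by omega
  have e2 : (x 0 - x 1) ^ 2 = 0 := by omega
  have e4 : x 2 ^ 2 = 0 := by omega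
  have f1 : x 0 = 0 := by simpa using e1
  have f2 : x 0 - x 1 = 0 := by simpa using e2
  have f4 : x 2 = 0 := by simpa using e4
  apply v_ext <;> simp only [Pi.zero_apply] <;> omega

lemma q0_s (k : Fin 6) : q0 (s k) = 1 := by revert k; decide

lemma q0_eq_one {x : V} (hx : q0 x = 1) : ∃ k, x = s k ∨ x = -s k := by
  have h := two_q0 x
  rw [hx] at h
  have h1 := sq_nonneg (x 0)
  have h2 := sq_nonneg (x 0 - x 1)
  have h3 := sq_nonneg (x 1 - x 2)
  have h4 := sq_nonneg (x 2)
  obtain ⟨a, b, c, rfl⟩ : ∃ a b c : ℤ, x = ![a, b, c] := ⟨x 0, x 1, x 2, v_ext rfl rfl rfl⟩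
  simp only [Matrix.cons_val_zero, Matrix.cons_val_one, Matrix.cons_val] at h h1 h2 h3 h4
  have b1 : a ≤ 1 := by nlinarith
  have b2 : -1 ≤ a := by nlinarith
  have b3 : a - b ≤ 1 := by nlinarith
  have b4 : -1 ≤ a - b := by nlinarith
  have b5 : c ≤ 1 := by nlinarith
  have b6 : -1 ≤ c := by nlinarith
  have b7 : b ≤ 2 := by linarith
  have b8 : -2 ≤ b := by linarith
  interval_cases a <;> interval_cases b <;> interval_cases c <;>
    first
    | (exfalso; omega)
    | decide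

end Pool.Agent.H.MP_e5d137_al.G3
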